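import Pool.Agent.Helper5.DO.TilX

/-! ALL DIMENSIONS, one unit direction, part 9: a class of corners with one unit direction gives a class of corners with
two base coordinates: `cls_til`, `nr_til`. -/

set_option autoImplicit false

namespace Pool.Agent.Helper5.DO

open Finset Filter Topology Pool.Agent.Helper69.RK Pool.Agent.Helper31.EC Pool.Agent.Helper31.EC.Sp
open Pool.Agent.Helper31.EC.QS
open Pool.Agent.Helper82.TP (Lit)
open Pool.Agent.Helper57.TA (sc wgt)
open Pool.Agent.Helper10.JET (tc)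
open Pool.Agent.Helper13.AM (CD Cls)

noncomputable section

variable {S : Sp} {N r : ℕ}

theorem Lit_pull {T : Sp} (p : Pj T S) {β : ℕ → Type} {V : ∀ k, (S.F k).Ω → β k} {f : QS S} (h : Lit V f) :
    Lit (fun k ω => V k (p.π k ω)) (p.qs f) := by
  obtain ⟨g, rfl, hg⟩ := h
  refine ⟨p.tr g, rfl, ?_⟩
  filter_upwards [hg] with k hk ω ω' h1 h2 h3 h4
  exact hk _ _ (p.supp k ω h1) (p.supp k ω' h2) ((p.hZ k ω ω' h1 h2).mp h3) h4

theorem Lit_rest (E : ∀ k, (S.F k).Ω → Prop) (hE : 0 < ul (S.pr E)) {β : ℕ → Type} {V : ∀ k, (S.F k).Ω → β k}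
    {f : QS S} (h : Lit V f) : Lit (S := S.rest E) V (QS.rest E hE f) := by
  obtain ⟨g, rfl, hg⟩ := h
  refine ⟨TR.rest E g, rfl, ?_⟩
  filter_upwards [hg] with k hk ω ω' h1 h2 h3 h4
  exact hk _ _ ((S.F k).rest_supp (E k) ω h1).1 ((S.F k).rest_supp (E k) ω' h2).1 h3 h4

theorem cd_congr {d : ℕ} {q q' : Fin (d + 1) → QS S} {R : Fin N → QS S} {al : Fin r → ℕ → Type}
    {bV : ∀ i k, (S.F k).Ω → al i k} {a a' u u' : Fin r → Fin (d + 1) → QS S} {g : ℕ}
    {cf : Fin r → Fin N → Fin (g + 1) → QS S} {kb : ℝ → ℕ → Type} {VK : ∀ s k, (S.F k).Ω → kb s k} {m : ℝ → ℕ}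
    {G : ∀ s, Fin (m s) → QS S} {q0 q0' : ℝ → Fin (d + 1) → QS S}
    {F F' : ℝ → Fin N → MvPolynomial (Fin (d + 1) ⊕ Fin N) (QS S)} {γ : ℝ → Fin N → QS S}
    (h1 : q = q') (h2 : a = a') (h3 : u = u') (h4 : q0 = q0') (h5 : F = F') :
    (CD.mk q R al bV a u g cf kb VK m G q0 F γ : CD S d N r) = CD.mk q' R al bV a' u' g cf kb VK m G q0' F' γ := by
  subst h1 h2 h3 h4 h5
  rfl

theorem py_coeff_hom {T : Sp} (g : QS S →+* QS T) {k : ℕ} (c : Fin (k + 1) → QS S) (m : ℕ) :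
    (py fun a => g (c a)).coeff m = g ((py c).coeff m) := by
  rw [← py_map, Polynomial.coeff_map]

/-! ### extensions -/

section

variable {T : Sp} (p : Pj T S) (c : CD S 0 N r) (l : Fin N) (K : ℕ)

theorem fl_pull (i : Fin r) : fl (c.pull p) l K i = p.qs (fl c l K i) := by
  unfold fl
  rw [tc_hom, py_map]
  rfl

theorem fa_pull (i : Fin r) : fa (c.pull p) l K i = p.qs (fa c l K i) := by
  unfold fa
  exact py_coeff_hom p.qs _ _

theorem fu_pull (i : Fin r) : fu (c.pull p) l K i = p.qs (fu c l K i) := by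
  unfold fu
  rw [map_mul, map_natCast]
  congr 1
  exact py_coeff_hom p.qs _ _

theorem f0_pull (s : ℝ) : f0 (c.pull p) l K s = p.qs (f0 c l K s) := by
  unfold f0
  exact MvPolynomial.coeff_map _ _ _

theorem til_pull (i0 : Fin r) (al : Fin r → ℕ → Type) (bV : ∀ i k, (S.F k).Ω → al i k) :
    (til c l K i0 al bV).pull p = til (c.pull p) l K i0 al (fun i k ω => bV i k (p.π k ω)) := by
  refine cd_congr ?_ ?_ ?_ ?_ ?_
  · funext j
    rcases j with ⟨j, hj⟩
    interval_cases j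
    · rfl
    · exact (fl_pull p c l K i0).symm
  · funext i j
    rcases j with ⟨j, hj⟩
    interval_cases j
    · exact map_zero _
    · exact (fa_pull p c l K i).symm
  · funext i j
    rcases j with ⟨j, hj⟩
    interval_cases j
    · exact map_one _
    · exact (fu_pull p c l K i).symm
  · funext s j
    rcases j with ⟨j, hj⟩
    interval_cases j
    · rfl
    · exact (f0_pull p c l K s).symm
  · funext s j
    exact MvPolynomial.map_rename _ _ _

variable {l K}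

theorem LV_pull {al : Fin r → ℕ → Type} {bV : ∀ i k, (S.F k).Ω → al i k} (h : LV c l K al bV) :
    LV (c.pull p) l K al (fun i k ω => bV i k (p.π k ω)) where
  bdd := fun i => (p.bdd_iff _).mpr (h.bdd i)
  lit := by
    intro i
    rw [fa_pull, fu_pull]
    exact ⟨Lit_pull p (h.lit i).1, Lit_pull p (h.lit i).2⟩
  gen := by
    intro i
    rw [← p.map_io, h.gen i, p.map_sup, fa_pull, fu_pull, p.qs_dg, p.qs_dg]

end

/-! ### events -/

section

variable (E : ∀ k, (S.F k).Ω → Prop) (hE : 0 < ul (S.pr E)) (c : CD S 0 N r) (l : Fin N) (K : ℕ)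

theorem fl_rest (i : Fin r) : fl (c.rest E hE) l K i = QS.rest E hE (fl c l K i) := by
  unfold fl
  rw [tc_hom, py_map]
  rfl

theorem fa_rest (i : Fin r) : fa (c.rest E hE) l K i = QS.rest E hE (fa c l K i) := by
  unfold fa
  exact py_coeff_hom (QS.rest E hE) _ _

theorem fu_rest (i : Fin r) : fu (c.rest E hE) l K i = QS.rest E hE (fu c l K i) := by
  unfold fu
  rw [map_mul, map_natCast]
  congr 1
  exact py_coeff_hom (QS.rest E hE) _ _

theorem f0_rest (s : ℝ) : f0 (c.rest E hE) l K s = QS.rest E hE (f0 c l K s) := by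
  unfold f0
  exact MvPolynomial.coeff_map _ _ _

theorem til_rest (i0 : Fin r) (al : Fin r → ℕ → Type) (bV : ∀ i k, (S.F k).Ω → al i k) :
    (til c l K i0 al bV).rest E hE = til (c.rest E hE) l K i0 al bV := by
  refine cd_congr ?_ ?_ ?_ ?_ ?_
  · funext j
    rcases j with ⟨j, hj⟩
    interval_cases j
    · rfl
    · exact (fl_rest E hE c l K i0).symm
  · funext i j
    rcases j with ⟨j, hj⟩
    interval_cases j
    · exact map_zero _
    · exact (fa_rest E hE c l K i).symm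
  · funext i j
    rcases j with ⟨j, hj⟩
    interval_cases j
    · exact map_one _
    · exact (fu_rest E hE c l K i).symm
  · funext s j
    rcases j with ⟨j, hj⟩
    interval_cases j
    · rfl
    · exact (f0_rest E hE c l K s).symm
  · funext s j
    exact MvPolynomial.map_rename _ _ _

variable {l K}

theorem LV_rest {al : Fin r → ℕ → Type} {bV : ∀ i k, (S.F k).Ω → al i k} (h : LV c l K al bV) :
    LV (S := S.rest E) (c.rest E hE) l K al bV where
  bdd := fun i => rest_VB E (h.bdd i)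
  lit := by
    intro i
    rw [fa_rest, fu_rest]
    exact ⟨Lit_rest E hE (h.lit i).1, Lit_rest E hE (h.lit i).2⟩
  gen := by
    intro i
    rw [← restL_io E hE (h.bdd i), h.gen i, restL_sup, fa_rest, fu_rest, QS.rest_dg, QS.rest_dg]

end

/-! ### (EXC) under extensions and on events -/

theorem exc_pull {T : Sp} (p : Pj T S) {c : CD S 0 N r} {w : Fin N → ℝ} {z : Fin N} {f : QS S} (h0 : Exc c w z f) :
    Exc (c.pull p) w z (p.qs f) := by
  intro s hs0 hs
  have h1 := h0 s hs0 hs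
  have e1 : (c.pull p).K s = p.map (c.K s) := (p.map_io _).symm
  have e2 : dg ((c.pull p).q 0) 1 ⊔ dg (p.qs f) 1 ⊔ vd ((c.pull p).M z) 1 =
      p.map (dg (c.q 0) 1 ⊔ dg f 1 ⊔ vd (c.M z) 1) := by
    rw [p.map_sup, p.map_sup, ← p.qs_dg, ← p.qs_dg, ← p.qs_vd]
    rfl
  rw [e1, e2, p.h_map]
  exact h1

theorem exc_le {c : CD S 0 N r} {O : S.L} {w : Fin N → ℝ} {z l : Fin N} {K : ℕ} {ρ : ℝ} (A : c.Ax w z ρ)
    (J : J1 c O w z l K) (i : Fin r) {s : ℝ} (hs0 : 0 ≤ s) (hs : w z * s ≤ 1) :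
    h (dg (c.q 0) 1 ⊔ dg (fl c l K i) 1 ⊔ vd (c.M z) 1) (c.K s) ≤
      2 * (1 - s) + ∑ j ∈ univ.erase z, (1 - w j * s) := by
  rw [h_chain, sum_one_sub]
  have h1 := tf_le A (fun s h h' => fl_frame (i0 := i) A J h h') (fun s _ _ => f0_K A s _ l) hs0 hs
  have h2 : h (vd (c.M z) 1) (dg (c.q 0) 1 ⊔ dg (fl c l K i) 1 ⊔ c.K s) ≤
      h (vd (c.M z) 1) (c.K s ⊔ dg (c.q 0) 1) :=
    h_anti (sup_le le_sup_right (le_sup_left.trans le_sup_left))
  rw [pr2' A hs0 hs le_rfl] at h2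
  linarith

/-- entropies are averages over an event and its complement; a maximal entropy is maximal on events -/
theorem h_rest_ge (E : ∀ k, (S.F k).Ω → Prop) (hE : 0 < ul (S.pr E)) {x y : S.L} {B : ℝ} (h0 : B ≤ h x y)
    (hc : ∀ hE' : 0 < ul (S.pr (fun k ω => ¬ E k ω)),
      h (restL (fun k ω => ¬ E k ω) hE' x) (restL (fun k ω => ¬ E k ω) hE' y) ≤ B) :
    B ≤ h (restL E hE x) (restL E hE y) := by
  have hp1 : ul (S.pr E) ≤ 1 := ul_le_const (UB_pr E) (Eventually.of_forall fun k => pr_le_one E k)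
  rcases lt_or_eq_of_le hp1 with hp | hp
  · have hE' : 0 < ul (S.pr (fun k ω => ¬ E k ω)) := by
      rw [ul_pr_compl]
      linarith
    have h1 := hc hE'
    have e1 := H_split E hE hE' (x ⊔ y)
    have e2 := H_split E hE hE' y
    have e3 : h x y = ul (S.pr E) * h (restL E hE x) (restL E hE y) +
        (1 - ul (S.pr E)) * h (restL (fun k ω => ¬ E k ω) hE' x) (restL (fun k ω => ¬ E k ω) hE' y) := by
      unfold Pool.Agent.Helper31.EC.h
      rw [e1, e2, restL_sup, restL_sup]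
      ring
    rw [e3] at h0
    have h2 : (1 - ul (S.pr E)) * h (restL (fun k ω => ¬ E k ω) hE' x) (restL (fun k ω => ¬ E k ω) hE' y) ≤
        (1 - ul (S.pr E)) * B := mul_le_mul_of_nonneg_left h1 (by linarith)
    have h3 : ul (S.pr E) * B ≤ ul (S.pr E) * h (restL E hE x) (restL E hE y) := by linarith
    exact le_of_mul_le_mul_left h3 hE
  · have hT : Typ E := by
      rw [Typ_iff, ← hp]
      exact ul_tendsto (UB_pr E)
    have h1 := h_restL_typ E hT x y
    rw [h1]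
    exact h0

/-! ### classes -/

/-- CLASS OF CORNERS WITH ONE UNIT DIRECTION: `C S c O`: the corner `c` with the digits `O` of its point (also beyond
the resolution); `l` = the lowest vertical coordinate, `K` = its weight -/
structure Cls0 (N r : ℕ) (w : Fin N → ℝ) (z l : Fin N) (K : ℕ) (ρ : ℝ) (C : ∀ S : Sp, CD S 0 N r → S.L → Prop) :
    Prop where
  ax : ∀ S c O, C S c O → c.Ax w z ρ
  j1 : ∀ S c O, C S c O → J1 c O w z l K
  pull : ∀ S c O, C S c O → ∀ (T : Sp) (p : Pj T S), C T (c.pull p) (p.map O)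
  rest : ∀ S c O, C S c O → ∀ (E : ∀ k, (S.F k).Ω → Prop) (hE : 0 < ul (S.pr E)),
    C (S.rest E) (c.rest E hE) (restL E hE O)
  zoom : ∀ S c O, C S c O → ∀ (s e : ℝ) (he : 0 < e) (h1 : e ≤ 1), 0 ≤ s → w z * s + e ≤ 1 →
    ∀ Z : ∀ k, Setoid (S.F k).Ω, (∀ k, Z k = Setoid.ker (c.VK s k)) →
      ∃ (c' : CD (S.chg Z e he) 0 N r) (O' : (S.chg Z e he).L), c.ZR w z s e he h1 Z c' ∧ C _ c' O'
  /-- (H) -/
  nr : ∀ S c O, C S c O → ∀ (D : ℕ) (κ : ℝ), 0 < κ → κ ≤ 1 → NR D c.pt ⊥ κ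
  /-- (EXC0): the new base coordinate is real over the lower point -/
  exc0 : ∀ S c O, C S c O → ∀ i, 1 ≤ h (dg (fl c l K i) 1) (T1 c z)

/-- the class of the prolonged corners -/
def TilC (w : Fin N → ℝ) (z l : Fin N) (K : ℕ) (C : ∀ S : Sp, CD S 0 N r → S.L → Prop) (S : Sp) (c' : CD S 1 N r) :
    Prop := ∃ (c : CD S 0 N r) (O : S.L) (i0 : Fin r) (al : Fin r → ℕ → Type) (bV : ∀ i k, (S.F k).Ω → al i k),
      C S c O ∧ (∀ i, Exc c w z (fl c l K i)) ∧ LV c l K al bV ∧ c' = til c l K i0 al bV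

variable {w : Fin N → ℝ} {z l : Fin N} {K : ℕ} {ρ : ℝ} {C : ∀ S : Sp, CD S 0 N r → S.L → Prop}

theorem exc_lt (h0 : Cls0 N r w z l K ρ C) {S : Sp} {c : CD S 0 N r} {O : S.L} (hc : C S c O) (i : Fin r) {s x : ℝ}
    (hs0 : 0 ≤ s) (hsx : s ≤ x) (hx : w z * x < 1) : x - s ≤ h (dg (fl c l K i) x) (c.K s ⊔ T1 c z) := by
  have A := h0.ax S c O hc
  have J := h0.j1 S c O hc
  have hw := A.w1 z
  have hw0 : 0 < w z := by linarith
  obtain ⟨n, hn⟩ : ∃ n : ℕ, (x - s) * w z / (1 - w z * x) ≤ n := exists_nat_ge _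
  obtain ⟨δ, hδ⟩ : ∃ δ, δ = (x - s) / (n + 1) := ⟨_, rfl⟩
  have hn0 : (0 : ℝ) < n + 1 := by positivity
  have hδ0 : 0 ≤ δ := by rw [hδ]; exact div_nonneg (by linarith) hn0.le
  have hδ1 : w z * δ ≤ 1 - w z * x := by
    rw [div_le_iff₀ (by linarith)] at hn
    rw [hδ, ← mul_div_assoc, div_le_iff₀ hn0]
    nlinarith
  have hnδ : ((n : ℝ) + 1) * δ = x - s := by rw [hδ]; field_simp
  have key : ∀ k : ℕ, k ≤ n + 1 → k * δ ≤ h (dg (fl c l K i) (s + k * δ)) (c.K s ⊔ T1 c z) := by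
    intro k
    induction k with
    | zero =>
      intro _
      rw [Nat.cast_zero, zero_mul]
      exact h_nonneg _ _
    | succ k ih =>
      intro hk
      have hk1 : ((k : ℝ) + 1) ≤ n + 1 := by exact_mod_cast hk
      have hk0 : (0 : ℝ) ≤ k * δ := by positivity
      have hkδ : (k : ℝ) * δ + δ ≤ x - s := by
        rw [← hnδ]
        nlinarith
      have hsk : w z * (s + k * δ) ≤ w z * x := mul_le_mul_of_nonneg_left (by linarith) hw0.le
      obtain ⟨e, he⟩ : ∃ e, e = 1 - w z * (s + k * δ) := ⟨_, rfl⟩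
      have he0 : 0 < e := by rw [he]; linarith
      have he1 : e ≤ 1 := by
        rw [he]
        have : 0 ≤ w z * (s + k * δ) := by positivity
        linarith
      obtain ⟨c', O', hZ, hc'⟩ := h0.zoom S c O hc (s + k * δ) e he0 he1 (by positivity) (by rw [he]; linarith)
        (fun j => Setoid.ker (c.VK (s + k * δ) j)) (fun _ => rfl)
      have h1 := step A J (s := s + k * δ) (by positivity) (by rw [he]; linarith) hZ (h0.ax _ _ _ hc')
        (h0.j1 _ _ _ hc') i (h0.exc0 _ _ _ hc' i) hδ0 (by rw [he]; linarith)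
      have h2 := ih (by omega)
      have h3 := h_chain (dg (fl c l K i) (s + k * δ)) (dg (fl c l K i) (s + k * δ + δ)) (c.K s ⊔ T1 c z)
      have h4 : dg (fl c l K i) (s + k * δ) ⊔ dg (fl c l K i) (s + k * δ + δ) = dg (fl c l K i) (s + k * δ + δ) :=
        sup_eq_right.mpr (dg_mono _ (by linarith))
      have h5 : h (dg (fl c l K i) (s + k * δ + δ)) (c.K (s + k * δ) ⊔ T1 c z) ≤
          h (dg (fl c l K i) (s + k * δ + δ)) (dg (fl c l K i) (s + k * δ) ⊔ (c.K s ⊔ T1 c z)) := by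
        refine h_anti (sup_le ?_ (sup_le_sup_right (A.bx.mono s (s + k * δ) hs0 (by linarith) (by linarith)) _))
        exact (f_le A (fun s h h' => fl_frame A J h h') (fun s _ _ => f0_K A s _ l) (by positivity)
          (by linarith)).trans le_sup_left
      rw [h4] at h3
      have e1 : s + ((k + 1 : ℕ) : ℝ) * δ = s + k * δ + δ := by push_cast; ring
      have e2 : ((k + 1 : ℕ) : ℝ) * δ = k * δ + δ := by push_cast; ring
      rw [e1, e2]
      linarith
  have h1 := key (n + 1) le_rfl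
  push_cast at h1
  rw [hnδ, add_sub_cancel] at h1
  exact h1

theorem exc_all (h0 : Cls0 N r w z l K ρ C) {S : Sp} {c : CD S 0 N r} {O : S.L} (hc : C S c O) (i : Fin r) {s x : ℝ}
    (hs0 : 0 ≤ s) (hsx : s ≤ x) (hx : w z * x ≤ 1) : x - s ≤ h (dg (fl c l K i) x) (c.K s ⊔ T1 c z) := by
  have hw := (h0.ax S c O hc).w1 z
  have hw0 : 0 < w z := by linarith
  by_contra hcc
  push Not at hcc
  obtain ⟨x', hx'⟩ : ∃ x', x' = max s ((x + (h (dg (fl c l K i) x) (c.K s ⊔ T1 c z) + s)) / 2) := ⟨_, rfl⟩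
  have h1 := h_nonneg (dg (fl c l K i) x) (c.K s ⊔ T1 c z)
  have h2 : x' < x := by
    rw [hx']
    exact max_lt (by linarith) (by linarith)
  have h3 : s ≤ x' := by rw [hx']; exact le_max_left _ _
  have h4 : (x + (h (dg (fl c l K i) x) (c.K s ⊔ T1 c z) + s)) / 2 ≤ x' := by rw [hx']; exact le_max_right _ _
  have h5 := exc_lt h0 hc i hs0 h3 (lt_of_lt_of_le (mul_lt_mul_of_pos_left h2 hw0) hx)
  have h6 : h (dg (fl c l K i) x') (c.K s ⊔ T1 c z) ≤ h (dg (fl c l K i) x) (c.K s ⊔ T1 c z) :=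
    h_mono (dg_mono _ h2.le)
  linarith

/-- there are prolonged corners -/
theorem til_ne (h0 : Cls0 N r w z l K ρ C) {S : Sp} {c : CD S 0 N r} {O : S.L} (hc : C S c O) :
    ∃ (S : Sp) (c' : CD S 1 N r), TilC w z l K C S c' := by
  have A := h0.ax S c O hc
  have J := h0.j1 S c O hc
  have hw := A.w1 z
  have hw0 : 0 < w z := by linarith
  have hi : Nonempty (Fin r) := by
    by_contra hcc
    rw [not_nonempty_iff] at hcc
    have h1 := A.lb.lab 0 le_rfl (by rw [mul_zero]; exact one_pos) (dg (c.q 0) 1)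
      ((dg_le_vd c.q 1 0).trans le_sup_left) (fun i => (hcc.false i).elim)
    have h2 := h_t_K A le_rfl (by rw [mul_zero]; exact zero_le_one)
    rw [h_zero h1] at h2
    linarith
  obtain ⟨i0⟩ := hi
  obtain ⟨e, he⟩ : ∃ e, e = 1 / w z := ⟨_, rfl⟩
  have he0 : 0 < e := by rw [he]; positivity
  have hwe : w z * e = 1 := by rw [he]; field_simp
  have he1 : e ≤ 1 := by nlinarith
  obtain ⟨c', O', hZ, hc'⟩ := h0.zoom S c O hc 0 e he0 he1 le_rfl (by rw [mul_zero, zero_add]; exact he1)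
    (fun j => Setoid.ker (c.VK 0 j)) (fun _ => rfl)
  obtain ⟨bV, hL⟩ := exists_LV c' l K
  refine ⟨_, _, c', O', i0, _, bV, hc', fun i => ?_, hL, rfl⟩
  rw [exc_iff (h0.ax _ _ _ hc')]
  refine exc_zoom A J le_rfl (by rw [mul_zero, zero_add]; exact he1) hZ (h0.ax _ _ _ hc') (h0.j1 _ _ _ hc') i
    fun s' h1 h2 => ?_
  rw [zero_add, zero_add]
  refine exc_all h0 hc i (mul_nonneg he0.le h1) ?_ hwe.le
  have h3 : s' ≤ 1 := (sc_lt A h1 h2).le
  nlinarith

/-- **THE PROLONGED CORNERS FORM A CLASS** -/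
theorem cls_til (h0 : Cls0 N r w z l K ρ C) : Cls 1 N r w z (ρ + 1 / w z) (TilC w z l K C) where
  ax := by
    rintro S _ ⟨c, O, i0, al, bV, hc, hX, hL, rfl⟩
    exact til_ax (h0.ax S c O hc) (h0.j1 S c O hc) hL hX
  pull := by
    rintro S _ ⟨c, O, i0, al, bV, hc, hX, hL, rfl⟩ T p
    refine ⟨c.pull p, p.map O, i0, al, _, h0.pull S c O hc T p, fun i => ?_, LV_pull p c hL,
      til_pull p c l K i0 al bV⟩
    rw [fl_pull]
    exact exc_pull p (hX i)
  rest := by
    rintro S _ ⟨c, O, i0, al, bV, hc, hX, hL, rfl⟩ E hE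
    refine ⟨c.rest E hE, restL E hE O, i0, al, bV, h0.rest S c O hc E hE, fun i => ?_, LV_rest E hE c hL,
      til_rest E hE c l K i0 al bV⟩
    intro s hs0 hs
    have A := h0.ax S c O hc
    have e1 : ∀ (E : ∀ k, (S.F k).Ω → Prop) (hE : 0 < ul (S.pr E)), (c.rest E hE).K s = restL E hE (c.K s) :=
      fun E hE => (restL_io E hE (A.bx.bdd s)).symm
    have e2 : ∀ (E : ∀ k, (S.F k).Ω → Prop) (hE : 0 < ul (S.pr E)),
        dg ((c.rest E hE).q 0) 1 ⊔ dg (fl (c.rest E hE) l K i) 1 ⊔ vd ((c.rest E hE).M z) 1 =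
        restL E hE (dg (c.q 0) 1 ⊔ dg (fl c l K i) 1 ⊔ vd (c.M z) 1) := by
      intro E hE
      rw [restL_sup, restL_sup, fl_rest, ← QS.rest_dg, ← QS.rest_dg]
      congr 1
      exact QS.rest_vd E hE (c.M z) 1
    rw [e1, e2]
    refine h_rest_ge E hE (hX i s hs0 hs) fun hE' => ?_
    have h2 := exc_le (h0.ax _ _ _ (h0.rest S c O hc _ hE')) (h0.j1 _ _ _ (h0.rest S c O hc _ hE')) i hs0 hs
    rw [e1, e2] at h2
    exact h2
  zoom := by
    rintro S _ ⟨c, O, i0, al, bV, hc, hX, hL, rfl⟩ s e he h1 hs0 hse Z hZ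
    obtain ⟨c', O', h2, h3⟩ := h0.zoom S c O hc s e he h1 hs0 hse Z hZ
    obtain ⟨bV', hL'⟩ := exists_LV c' l K
    have A := h0.ax S c O hc
    have J := h0.j1 S c O hc
    refine ⟨til c' l K i0 _ bV', til_zoom A J hL he h1 hs0 hse h2 (h0.ax _ _ _ h3) (h0.j1 _ _ _ h3) hL', c', O', i0,
      _, bV', h3, fun i => ?_, hL', rfl⟩
    obtain rfl : Z = fun k => Setoid.ker (c.VK s k) := funext h2.base
    rw [exc_iff (h0.ax _ _ _ h3)]
    refine exc_zoom A J hs0 hse h2 (h0.ax _ _ _ h3) (h0.j1 _ _ _ h3) i fun s' h4 h5 => ?_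
    have hw := A.w1 z
    have h6 : w z * (s + e * s') ≤ 1 := by
      have := mul_le_mul_of_nonneg_left h5 he.le
      nlinarith
    have h7 := (exc_iff A).mp (hX i) (s + e * s') (by positivity) h6
    have h8 := h_triangle (dg (fl c l K i) 1) (dg (fl c l K i) (s + e)) (c.K (s + e * s') ⊔ T1 c z)
    have h9 : h (dg (fl c l K i) 1) (dg (fl c l K i) (s + e) ⊔ (c.K (s + e * s') ⊔ T1 c z)) ≤ 1 - (s + e) :=
      (h_anti le_sup_left).trans (h_dg_dg _ (se_le A he hs0 hse))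
    linarith

/-- **(H) FOR THE CLASS OF THE PROLONGED CORNERS** -/
theorem nr_til (h0 : Cls0 N r w z l K ρ C) : Pool.Agent.Helper13.AM.NR (TilC w z l K C) := by
  rintro S _ ⟨c, O, i0, al, bV, hc, hX, hL, rfl⟩ D κ h1 h2
  exact til_nr (h0.ax S c O hc) (h0.j1 S c O hc) i0 h1 h2 (h0.nr S c O hc D κ h1 h2)

end

end Pool.Agent.Helper5.DO
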