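import Pool.Agent.Helper10.BLD.St1
import Pool.Agent.Helper10.JET.Span
import Pool.Agent.Helper89.LX.Det

/-! [PLN]: one unit direction: the plane point (height, jet of order `K - 1`) is full. -/

set_option autoImplicit false

namespace Pool.Agent.Helper5.DO

open Finset Filter Topology Pool.Agent.Helper69.RK Pool.Agent.Helper31.EC Pool.Agent.Helper31.EC.Sp
open Pool.Agent.Helper31.EC.QS
open Pool.Agent.Helper57.TA (exists_round one_notMem_Id)
open Pool.Agent.Helper10.JET (Lg ind_copies)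
open Pool.Agent.Helper13.AM (CD)
open Pool.Agent.Helper10.BLD (Cl1)

noncomputable section

/-! ### rates on events -/

section

variable {S : Sp}

/-- entropies are averages over an event and its complement -/
theorem H_ge_split (E : ∀ k, (S.F k).Ω → Prop) (hE : 0 < ul (S.pr E)) (x : S.L) {A B p : ℝ} (hp : p ≤ ul (S.pr E))
    (hBA : B ≤ A) (h1 : A ≤ H (restL E hE x))
    (h2 : ∀ hE' : 0 < ul (S.pr (fun k ω => ¬ E k ω)), B ≤ H (restL (fun k ω => ¬ E k ω) hE' x)) :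
    p * A + (1 - p) * B ≤ H x := by
  have hp1 : ul (S.pr E) ≤ 1 := ul_le_const (UB_pr E) (Eventually.of_forall fun k => pr_le_one E k)
  have key : ul (S.pr E) * A + (1 - ul (S.pr E)) * B ≤ H x := by
    rcases lt_or_eq_of_le hp1 with hlt | heq
    · have hE' : 0 < ul (S.pr (fun k ω => ¬ E k ω)) := by
        rw [ul_pr_compl]
        linarith
      rw [H_split E hE hE' x]
      have h3 := mul_le_mul_of_nonneg_left h1 hE.le
      have h4 := mul_le_mul_of_nonneg_left (h2 hE') (by linarith : 0 ≤ 1 - ul (S.pr E))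
      linarith
    · have hT : Typ E := by
        rw [Typ_iff, ← heq]
        exact ul_tendsto (UB_pr E)
      rw [heq, ← H_restL_typ E hT hE x]
      linarith
  have h5 : 0 ≤ (ul (S.pr E) - p) * (A - B) := mul_nonneg (by linarith) (by linarith)
  linarith

/-- a maximal entropy is maximal on events -/
theorem h_rest_top (E : ∀ k, (S.F k).Ω → Prop) (hE : 0 < ul (S.pr E)) (t : QS S) {y : S.L} {a : ℝ} (ha0 : 0 ≤ a)
    (h0 : a ≤ h (dg t a) y) : a ≤ h (dg (QS.rest E hE t) a) (restL E hE y) := by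
  rw [QS.rest_dg]
  refine h_rest_ge E hE h0 fun hE' => ?_
  rw [← QS.rest_dg]
  exact (h_le_H _ _).trans (H_dg_le _ ha0)

theorem h_ml {x y v : S.L} (hx : x ≤ y ⊔ v) : h x v ≤ h y v := by
  have h1 := h_mono (B := v) hx
  rwa [h_sup_right_of_le le_rfl] at h1

/-- the first digits of a full variable are full -/
theorem h_first {t : QS S} {y : S.L} (h0 : h (dg t 1) y = 1) {a : ℝ} (ha1 : a ≤ 1) : a ≤ h (dg t a) y := by
  have h1 := h_triangle (dg t 1) (dg t a) y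
  have h2 := h_dg_dg t ha1
  have h3 : h (dg t 1) (dg t a ⊔ y) ≤ h (dg t 1) (dg t a) := h_anti le_sup_left
  linarith

/-- probability of a finite union -/
theorem ul_pr_union {ι : Type} (s : Finset ι) (E : ι → ∀ k, (S.F k).Ω → Prop) :
    ul (S.pr fun k ω => ∃ i ∈ s, E i k ω) ≤ ∑ i ∈ s, ul (S.pr (E i)) := by
  classical
  induction s using Finset.induction_on with
  | empty =>
    rw [Finset.sum_empty]
    refine (ul_mono (UB_pr _) (UB_const 0) (Eventually.of_forall fun k => ?_)).trans_eq (ul_const 0)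
    show mass (res (S.F k).μ _) ≤ 0
    unfold mass
    refine (Finset.sum_nonpos fun ω _ => ?_)
    rw [res_neg]
    rintro ⟨i, hi, -⟩
    exact absurd hi (Finset.notMem_empty i)
  | insert a t ha ih =>
    rw [Finset.sum_insert ha]
    have h1 : ul (S.pr fun k ω => ∃ i ∈ insert a t, E i k ω) ≤
        ul (fun k => S.pr (E a) k + S.pr (fun k ω => ∃ i ∈ t, E i k ω) k) := by
      refine ul_mono (UB_pr _) ((UB_pr _).add (UB_pr _)) (Eventually.of_forall fun k => ?_)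
      refine le_trans (FSp.pb_mono _ fun ω _ h => ?_) (Pool.Agent.Helper89.LX.pb_or (S.F k) (E a k) _)
      obtain ⟨i, hi, h⟩ := h
      rcases Finset.mem_insert.mp hi with h3 | h3
      · subst h3
        exact Or.inl h
      · exact Or.inr ⟨i, h3, h⟩
    rw [ul_add (UB_pr _) (UB_pr _)] at h1
    linarith

/-- finitely many events cover a typical event: one of them is large -/
theorem exists_large_event {ι : Type} [Fintype ι] [Nonempty ι] (E : ι → ∀ k, (S.F k).Ω → Prop)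
    (h : ul (S.pr fun k ω => ∃ i, E i k ω) = 1) : ∃ i, 1 / (Fintype.card ι : ℝ) ≤ ul (S.pr (E i)) := by
  classical
  by_contra hc
  push Not at hc
  have h3 := ul_pr_union (S := S) univ E
  have e : (fun k ω => ∃ i ∈ univ, E i k ω) = fun k ω => ∃ i, E i k ω := by
    funext k ω
    simp
  rw [e, h] at h3
  have h5 : ∑ i, ul (S.pr (E i)) < ∑ _i : ι, 1 / (Fintype.card ι : ℝ) :=
    Finset.sum_lt_sum_of_nonempty univ_nonempty fun i _ => hc i
  rw [Finset.sum_const, Finset.card_univ, nsmul_eq_mul, mul_one_div_cancel (by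
    have : 0 < Fintype.card ι := Fintype.card_pos
    positivity)] at h5
  linarith

end

section

variable {S : Sp} {N r : ℕ} {c : CD S 0 N r} {O : S.L} {w : Fin N → ℝ} {z l : Fin N} {K : ℕ} {ρ : ℝ}

/-- two copies over (height, jet); on an event where two top coefficients differ the plane point is almost full -/
theorem pln_large (A : c.Ax w z ρ) (J : J1 c O w z l K) (i0 : Fin r) {F : Fin 2 → QS S} (hF0 : F 0 = c.q 0)
    (hF1 : F 1 = fl c l K i0) (C0 : CQ S F 1) (i j : Fin r) {ε : ℝ} (hε0 : 0 ≤ ε)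
    (E : ∀ k, (C0.W.F k).Ω → Prop) (hE : 0 < ul (C0.W.pr E))
    (hL : Lg (QS.rest E hE ((C0.p 0).qs (fu c l K i) - (C0.p 1).qs (fu c l K j))) ε) :
    2 - ε ≤ H (restL E hE ((C0.p 0).map (dg (c.q 0) 1 ⊔ dg (fl c l K i0) 1))) := by
  have hFO : vd F 1 ≤ O := by
    rw [vd_le]
    intro a
    fin_cases a
    · show dg (F 0) 1 ≤ O
      rw [hF0]
      exact ((dg_le_vd c.q 1 0).trans le_sup_left).trans J.hO
    · show dg (F 1) 1 ≤ O
      rw [hF1]
      exact fl_O J i0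
  obtain ⟨T, hT⟩ : ∃ T, T = (C0.p 0).qs (c.q 0) := ⟨_, rfl⟩
  obtain ⟨Ft, hFt⟩ : ∃ Ft, Ft = (C0.p 0).qs (fl c l K i0) := ⟨_, rfl⟩
  have hT1 : (C0.p 1).qs (c.q 0) = T := by rw [hT, ← hF0, C0.com 1 0 0]
  have hFt1 : (C0.p 1).qs (fl c l K i0) = Ft := by rw [hFt, ← hF1, C0.com 1 0 1]
  obtain ⟨U, hU⟩ : ∃ U, U = (C0.p 0).qs (fu c l K i) := ⟨_, rfl⟩
  obtain ⟨U', hU'⟩ : ∃ U', U' = (C0.p 1).qs (fu c l K j) := ⟨_, rfl⟩
  obtain ⟨B, hB⟩ : ∃ B, B = (C0.p 0).qs (fa c l K i) := ⟨_, rfl⟩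
  obtain ⟨B', hB'⟩ : ∃ B', B' = (C0.p 1).qs (fa c l K j) := ⟨_, rfl⟩
  rw [← hU, ← hU'] at hL
  have e0 : Ft = B + T * U := by
    rw [hFt, fl_line J i0 i, map_add, map_mul, hB, hT, hU]
  have e1 : Ft = B' + T * U' := by
    rw [← hFt1, fl_line J i0 j, map_add, map_mul, hB', hT1, hU']
  -- the two copies
  obtain ⟨X0, hX0⟩ : ∃ X0, X0 = (C0.p 0).map (c.xi i) := ⟨_, rfl⟩
  obtain ⟨X1, hX1⟩ : ∃ X1, X1 = (C0.p 1).map (c.xi j) := ⟨_, rfl⟩
  have hUX : dg U 1 ≤ X0 := by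
    rw [hU, hX0, (C0.p 0).qs_dg]
    exact (C0.p 0).map_mono ((fu_cv i).trans le_sup_right)
  have hBX : dg B 1 ≤ X0 := by
    rw [hB, hX0, (C0.p 0).qs_dg]
    exact (C0.p 0).map_mono ((fa_cv i).trans le_sup_right)
  have hUX' : dg U' 1 ≤ X1 := by
    rw [hU', hX1, (C0.p 1).qs_dg]
    exact (C0.p 1).map_mono ((fu_cv j).trans le_sup_right)
  have hBX' : dg B' 1 ≤ X1 := by
    rw [hB', hX1, (C0.p 1).qs_dg]
    exact (C0.p 1).map_mono ((fa_cv j).trans le_sup_right)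
  have hT0 : h (dg T 1) X0 = 1 := by
    rw [hT, hX0, (C0.p 0).qs_dg, (C0.p 0).h_map]
    exact A.ln.time i
  have hT1' : h (dg T 1) X1 = 1 := by
    rw [← hT1, hX1, (C0.p 1).qs_dg, (C0.p 1).h_map]
    exact A.ln.time j
  -- independence of the second top coefficient
  have hr : I (dg (fu c l K j) 1) (vd F 1) ⊥ = 0 :=
    I_zero_mono J.r1 ((Finset.le_sup (f := fun i => dg (fu c l K i) 1) (mem_univ j)).trans le_sup_left)
      (hFO.trans le_sup_left)
  have hind : I (dg U' 1) (dg T 1 ⊔ X0) ⊥ = 0 := by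
    have h2 := ind_copies C0 (fun _ => dg (fu c l K j) 1) (fun _ => hr) {1} 0 (by decide) (dg (c.q 0) 1 ⊔ c.xi i)
    rw [Finset.sup_singleton, (C0.p 0).map_sup, ← (C0.p 0).qs_dg, ← (C0.p 1).qs_dg, ← hT, ← hX0, ← hU'] at h2
    exact h2
  have hTU : h (dg T 1) (X0 ⊔ dg U' 1) = 1 := by
    have h2 := I_chain_right (dg U' 1) X0 (dg T 1) ⊥
    rw [sup_comm X0 (dg T 1), hind, sup_bot_eq] at h2
    have h3 := I_nonneg (dg U' 1) X0 ⊥
    have h4 := I_nonneg (dg U' 1) (dg T 1) X0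
    have h5 : I (dg U' 1) (dg T 1) X0 = 0 := by linarith
    rw [I_zero_iff_h'] at h5
    rw [sup_comm, h5, hT0]
  have hε1 : 1 - ε ≤ 1 := by linarith
  obtain ⟨X, hX⟩ : ∃ X, X = restL E hE X0 := ⟨_, rfl⟩
  obtain ⟨V, hV⟩ : ∃ V, V = restL E hE (dg U' 1) := ⟨_, rfl⟩
  obtain ⟨Y, hY⟩ : ∃ Y, Y = restL E hE (dg B' 1) := ⟨_, rfl⟩
  have k1 : 1 - ε ≤ h Y V := by
    rcases le_or_gt (1 - ε) 0 with hneg | hpos
    · exact hneg.trans (h_nonneg _ _)
    have h2 : 1 - ε ≤ h (dg (QS.rest E hE T) (1 - ε)) (restL E hE (X0 ⊔ dg U' 1)) :=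
      h_rest_top E hE T hpos.le (h_first hTU hε1)
    have h3 : dg (QS.rest E hE T) (1 - ε) ≤ X ⊔ V ⊔ Y := by
      have h4 := Lg.dg_le (S := C0.W.rest E) (c0 := QS.rest E hE (B - B')) (a := QS.rest E hE T) (r := 1)
        (δ := 1 - ε) le_rfl hε1 (by
          have e : (1 : ℝ) - (1 - ε) = ε := by ring
          rw [e]
          exact hL) (by
          rw [← map_mul, ← map_add]
          have e : B - B' + (U - U') * T = 0 := by
            have : B + T * U = B' + T * U' := e0.symm.trans e1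
            linear_combination this
          rw [e, map_zero]
          exact (Id _ 1).zero_mem)
      refine h4.trans ?_
      have kB : dg (QS.rest E hE (B - B')) 1 ≤ X ⊔ V ⊔ Y := by
        rw [map_sub]
        refine (Kn _ 1 le_rfl _).sub_mem ?_ ?_
        · show dg _ 1 ≤ _
          rw [QS.rest_dg]
          exact (restL_mono E hE hBX).trans (hX ▸ le_sup_left.trans le_sup_left)
        · show dg _ 1 ≤ _
          rw [QS.rest_dg]
          exact hY ▸ le_sup_right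
      have kU : dg (QS.rest E hE (U - U')) 1 ≤ X ⊔ V ⊔ Y := by
        rw [map_sub]
        refine (Kn _ 1 le_rfl _).sub_mem ?_ ?_
        · show dg _ 1 ≤ _
          rw [QS.rest_dg]
          exact (restL_mono E hE hUX).trans (hX ▸ le_sup_left.trans le_sup_left)
        · show dg _ 1 ≤ _
          rw [QS.rest_dg]
          exact hV ▸ le_sup_right.trans le_sup_left
      exact sup_le kB kU
    rw [restL_sup, ← hX, ← hV] at h2
    have h5 : h (dg (QS.rest E hE T) (1 - ε)) (X ⊔ V) ≤ h Y (X ⊔ V) := h_ml (by rwa [sup_comm Y])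
    have h6 : h Y (X ⊔ V) ≤ h Y V := h_anti le_sup_right
    linarith
  have k2 : 1 ≤ h (dg (QS.rest E hE T) 1) (Y ⊔ V) := by
    have h2 := h_rest_top E hE T zero_le_one hT1'.ge
    refine h2.trans (h_anti ?_)
    rw [hY, hV, ← restL_sup]
    exact restL_mono E hE (sup_le hBX' hUX')
  have k3 : restL E hE ((C0.p 0).map (dg (c.q 0) 1 ⊔ dg (fl c l K i0) 1)) =
      dg (QS.rest E hE T) 1 ⊔ dg (QS.rest E hE Ft) 1 := by
    rw [(C0.p 0).map_sup, restL_sup, ← (C0.p 0).qs_dg, ← (C0.p 0).qs_dg, ← hT, ← hFt, ← QS.rest_dg, ← QS.rest_dg]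
  rw [k3]
  have k4 : Y ≤ dg (QS.rest E hE T) 1 ⊔ dg (QS.rest E hE Ft) 1 ⊔ V := by
    rw [hY, ← QS.rest_dg]
    have e : QS.rest E hE B' = QS.rest E hE Ft - QS.rest E hE T * QS.rest E hE U' := by
      rw [e1, map_add, map_mul]
      ring
    rw [e]
    refine (Kn _ 1 le_rfl _).sub_mem ?_ ((Kn _ 1 le_rfl _).mul_mem ?_ ?_)
    · show dg _ 1 ≤ _
      exact le_sup_right.trans le_sup_left
    · show dg _ 1 ≤ _
      exact le_sup_left.trans le_sup_left
    · show dg _ 1 ≤ _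
      rw [QS.rest_dg]
      exact hV ▸ le_sup_right
  have k5 : h (dg (QS.rest E hE T) 1 ⊔ Y) V ≤ h (dg (QS.rest E hE T) 1 ⊔ dg (QS.rest E hE Ft) 1) V :=
    h_ml (sup_le (le_sup_left.trans le_sup_left) k4)
  have k6 : h (dg (QS.rest E hE T) 1 ⊔ Y) V = h Y V + h (dg (QS.rest E hE T) 1) (Y ⊔ V) := by
    rw [sup_comm, h_chain]
  have k7 := h_le_H (dg (QS.rest E hE T) 1 ⊔ dg (QS.rest E hE Ft) 1) V
  linarith

end

section

variable {S : Sp} {N r : ℕ} {c : CD S 0 N r} {O : S.L} {w : Fin N → ℝ} {z l : Fin N} {K : ℕ} {ρ : ℝ}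
  {C : ∀ S : Sp, CD S 0 N r → S.L → Prop}

/-- the event where all top coefficients of the two copies agree is negligible -/
theorem pln_small (h0 : Cl1 N r w z l K ρ C) (hc : C S c O) (i0 : Fin r) {F : Fin 2 → QS S} (hFO : vd F 1 ≤ O)
    (C0 : CQ S F 1) {ε : ℝ} (hε0 : 0 < ε) (hε1 : ε ≤ 1) (G : ∀ k, (C0.W.F k).Ω → Prop) (hG : 0 < ul (C0.W.pr G))
    (hs : ∀ i j, QS.rest G hG ((C0.p 0).qs (fu c l K i) - (C0.p 1).qs (fu c l K j)) ∈ Id (C0.W.rest G) ε) :
    False := by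
  have J := h0.j1 S c O hc
  have hc' := h0.rest _ _ _ (h0.pull _ _ _ hc C0.W (C0.p 0)) G hG
  have J' := h0.j1 _ _ _ hc'
  have hr : ∀ j, I (dg (fu c l K j) 1) (vd F 1) ⊥ = 0 := fun j =>
    I_zero_mono J.r1 ((Finset.le_sup (f := fun i => dg (fu c l K i) 1) (mem_univ j)).trans le_sup_left)
      (hFO.trans le_sup_left)
  obtain ⟨U, hU⟩ : ∃ U : Fin r → QS (C0.W.rest G), U = fun i => QS.rest G hG ((C0.p 0).qs (fu c l K i)) := ⟨_, rfl⟩
  obtain ⟨U', hU'⟩ : ∃ U' : QS (C0.W.rest G), U' = QS.rest G hG ((C0.p 1).qs (fu c l K i0)) := ⟨_, rfl⟩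
  have hd : ∀ i, U i - U' ∈ Id (C0.W.rest G) ε := by
    intro i
    have h1 := hs i i0
    rw [map_sub] at h1
    rw [hU, hU']
    exact h1
  -- the first digits are independent of themselves
  have h1 : I (dg U' 1) (dg (U i0) 1) ⊥ = 0 := by
    have h2 := ind_copies C0 (fun _ => dg (fu c l K i0) 1) (fun _ => hr i0) {1} 0 (by decide) (dg (fu c l K i0) 1)
    have h3 := I_rest_zero G hG h2
    rw [Finset.sup_singleton, ← (C0.p 0).qs_dg, ← (C0.p 1).qs_dg, ← QS.rest_dg, ← QS.rest_dg, restL_bot] at h3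
    rw [hU, hU']
    exact h3
  have h2 : dg (U i0) ε = dg U' ε := dg_eq_of_sub_mem (hd i0) le_rfl hε1
  have h3 : dg (U i0) ε ≤ ⊥ := by
    have h4 : I (dg (U i0) ε) (dg (U i0) ε) ⊥ = 0 :=
      I_zero_mono h1 (h2 ▸ (QS.dg_mono _ hε1).trans le_sup_left) ((QS.dg_mono _ hε1).trans le_sup_left)
    rw [I_eq, h_zero (le_sup_left : dg (U i0) ε ≤ dg (U i0) ε ⊔ ⊥), sub_zero] at h4
    exact h_eq_zero_iff.mp h4
  obtain ⟨α, hα1, hα2⟩ := exists_round (U i0) hε0.le hε1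
  have hα : ∀ i, U i - α ∈ Id (C0.W.rest G) ε := by
    intro i
    have e : U i - α = (U i - U') - (U i0 - U') + (U i0 - α) := by ring
    rw [e]
    exact (Id _ ε).add_mem ((Id _ ε).sub_mem (hd i) (hd i0)) hα2
  have h5 := J'.spn ε hε0 hε1 ![-α, 1] (by
    rw [vd_le]
    intro a
    fin_cases a
    · show dg (-α) 1 ≤ _
      exact (Kn _ 1 le_rfl _).neg_mem ((hα1.trans h3).trans bot_le)
    · exact (Kn _ 1 le_rfl _).one_mem) (by
    intro i
    show -α + 1 * fu ((c.pull (C0.p 0)).rest G hG) l K i ∈ _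
    rw [fu_rest, fu_pull]
    have e : -α + 1 * QS.rest G hG ((C0.p 0).qs (fu c l K i)) = U i - α := by
      rw [hU]
      ring
    rw [e]
    exact hα i) 1
  exact one_notMem_Id hε0 h5

/-- one step: the lower bound `β` of the class improves -/
theorem pln_step (h0 : Cl1 N r w z l K ρ C) (hc : C S c O) (i0 : Fin r) {ε β : ℝ} (hε0 : 0 < ε) (hε1 : ε ≤ 1)
    (hβ : ∀ (S : Sp) (c : CD S 0 N r) (O : S.L), C S c O → β ≤ H (dg (c.q 0) 1 ⊔ dg (fl c l K i0) 1))
    (hβ2 : β ≤ 2 - ε) :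
    1 / ((r : ℝ) * r) * (2 - ε) + (1 - 1 / ((r : ℝ) * r)) * β ≤ H (dg (c.q 0) 1 ⊔ dg (fl c l K i0) 1) := by
  classical
  have A := h0.ax S c O hc
  have J := h0.j1 S c O hc
  have hFO : vd (![c.q 0, fl c l K i0] : Fin 2 → QS S) 1 ≤ O := by
    rw [vd_le]
    intro a
    fin_cases a
    · exact ((dg_le_vd c.q 1 0).trans le_sup_left).trans J.hO
    · exact fl_O J i0
  obtain ⟨C0⟩ := exists_CQ (![c.q 0, fl c l K i0] : Fin 2 → QS S) 1
  have hne : Nonempty (Fin r × Fin r) := ⟨(i0, i0)⟩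
  obtain ⟨γ, hγ⟩ : ∃ γ : Fin r × Fin r → TR C0.W, ∀ x, QS.mk (γ x) =
      (C0.p 0).qs (fu c l K x.1) - (C0.p 1).qs (fu c l K x.2) := ⟨fun x => QS.rep _, fun x => QS.mk_rep _⟩
  obtain ⟨E, hEd⟩ : ∃ E : Fin r × Fin r → ∀ k, (C0.W.F k).Ω → Prop, ∀ x k ω, E x k ω ↔
      C0.W.dl ε k < |TR.ev (γ x) k ω| := ⟨fun x k ω => C0.W.dl ε k < |TR.ev (γ x) k ω|, fun _ _ _ => Iff.rfl⟩
  have hsm : ul (C0.W.pr fun k ω => ∃ x, E x k ω) = 1 := by
    by_contra hcon
    have h1 := ul_pr_compl (S := C0.W) (fun k ω => ∃ x, E x k ω)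
    have h2 : ul (C0.W.pr fun k ω => ∃ x, E x k ω) ≤ 1 :=
      ul_le_const (UB_pr _) (Eventually.of_forall fun k => pr_le_one _ k)
    have hG : 0 < ul (C0.W.pr (fun k ω => ¬ ∃ x, E x k ω)) := by
      rw [h1]
      have := lt_of_le_of_ne h2 hcon
      linarith
    refine pln_small h0 hc i0 hFO C0 hε0 hε1 _ hG fun i j => ?_
    rw [← hγ (i, j), QS.rest_mk, mk_mem_Id hε1]
    refine ⟨fun _ _ => True, fun _ => 1, Typ_true, (C0.W.rest _).Sub_const zero_le_one, ?_⟩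
    filter_upwards [Pool.Agent.Helper10.JET.supp_rest _ hG] with k hk ω hω _
    rw [TR.ev_zero, sub_zero, one_mul]
    have h3 := (hk ω hω).2
    have h4 : ¬ E (i, j) k ω := fun hh => h3 ⟨(i, j), hh⟩
    rw [hEd, not_lt] at h4
    exact h4
  obtain ⟨x, hx⟩ := exists_large_event E hsm
  have hcard : (Fintype.card (Fin r × Fin r) : ℝ) = (r : ℝ) * r := by
    rw [Fintype.card_prod, Fintype.card_fin]
    push_cast
    ring
  rw [hcard] at hx
  have hr0 : (0 : ℝ) < r := by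
    have : 0 < r := i0.pos
    exact_mod_cast this
  have hE : 0 < ul (C0.W.pr (E x)) := lt_of_lt_of_le (by positivity) hx
  have h1 := pln_large A J i0 (F := ![c.q 0, fl c l K i0]) rfl rfl C0 x.1 x.2 hε0.le (E x) hE (by
    refine ⟨TR.rest _ (γ x), ?_, ?_⟩
    · rw [← hγ x, QS.rest_mk]
    · filter_upwards [Pool.Agent.Helper10.JET.supp_rest _ hE] with k hk ω hω
      exact (hEd x k ω).mp (hk ω hω).2)
  have h2 := H_ge_split (E x) hE ((C0.p 0).map (dg (c.q 0) 1 ⊔ dg (fl c l K i0) 1)) hx hβ2 h1 (by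
    intro hE'
    have h3 := hβ _ _ _ (h0.rest _ _ _ (h0.pull _ _ _ hc C0.W (C0.p 0)) _ hE')
    rw [fl_rest, fl_pull] at h3
    rw [(C0.p 0).map_sup, restL_sup, ← (C0.p 0).qs_dg, ← (C0.p 0).qs_dg, ← QS.rest_dg, ← QS.rest_dg]
    exact h3)
  rw [(C0.p 0).H_map] at h2
  exact h2

/-- **[PLN]** the plane point (height, jet of order `K - 1`) is full -/
theorem pln (h0 : Cl1 N r w z l K ρ C) (hc : C S c O) (i : Fin r) : H (dg (c.q 0) 1 ⊔ dg (fl c l K i) 1) = 2 := by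
  have hr0 : (0 : ℝ) < r := by
    have : 0 < r := i.pos
    exact_mod_cast this
  apply le_antisymm
  · have h1 := H_sup_le (dg (c.q 0) 1) (dg (fl c l K i) 1)
    have h2 := H_dg_le (c.q 0) zero_le_one
    have h3 := H_dg_le (fl c l K i) zero_le_one
    linarith
  obtain ⟨Z, hZ⟩ : ∃ Z : Set ℝ, Z = {x : ℝ | ∃ (S : Sp) (c : CD S 0 N r) (O : S.L), C S c O ∧
    x = H (dg (c.q 0) 1 ⊔ dg (fl c l K i) 1)} := ⟨_, rfl⟩
  have hZ0 : BddBelow Z := by
    refine ⟨0, ?_⟩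
    rw [hZ]
    rintro x ⟨S, c, O, _, rfl⟩
    exact H_nonneg _
  have hZne : Z.Nonempty := by
    rw [hZ]
    exact ⟨_, S, c, O, hc, rfl⟩
  have hβ : ∀ (S : Sp) (c : CD S 0 N r) (O : S.L), C S c O → sInf Z ≤ H (dg (c.q 0) 1 ⊔ dg (fl c l K i) 1) := by
    intro S c O hc
    exact csInf_le hZ0 (by rw [hZ]; exact ⟨S, c, O, hc, rfl⟩)
  refine le_trans ?_ (hβ S c O hc)
  apply le_of_forall_pos_le_add
  intro ε hε
  obtain ⟨η, hη⟩ : ∃ η, η = min ε 1 := ⟨_, rfl⟩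
  have hη0 : 0 < η := by rw [hη]; exact lt_min hε one_pos
  have hη1 : η ≤ 1 := by rw [hη]; exact min_le_right _ _
  have hηε : η ≤ ε := by rw [hη]; exact min_le_left _ _
  rcases le_or_gt (2 - η) (sInf Z) with h1 | h1
  · linarith
  have h2 : 1 / ((r : ℝ) * r) * (2 - η) + (1 - 1 / ((r : ℝ) * r)) * sInf Z ≤ sInf Z := by
    refine le_csInf hZne ?_
    intro x hx
    have hx' := hx
    rw [hZ] at hx'
    obtain ⟨S, c, O, hc, rfl⟩ := hx'
    exact pln_step h0 hc i hη0 hη1 hβ h1.le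
  have h3 : 0 < 1 / ((r : ℝ) * r) := by positivity
  have h4 : 1 / ((r : ℝ) * r) * (2 - η - sInf Z) ≤ 0 := by linarith
  have h5 : 0 < 1 / ((r : ℝ) * r) * (2 - η - sInf Z) := mul_pos h3 (by linarith)
  linarith

end

end

end Pool.Agent.Helper5.DO
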