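import Pool.Agent.Helper5.DO.Der

/-! Corners with one unit direction, the prolongation by the derivative of highest order: no relation between the
coordinates of the point gives no relation between the prolonged coordinates. -/

set_option autoImplicit false

namespace Pool.Agent.Helper5.DO

open Finset Filter Topology Pool.Agent.Helper69.RK Pool.Agent.Helper31.EC

noncomputable section

open Sp QS

variable {S : Sp}

/-- NO RELATION of degree at most `D`: a polynomial with coefficients known to `B` which is small at the point `x` has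
small coefficients -/
def NR {σ : Type} (D : ℕ) (x : σ → QS S) (B : S.L) (r : ℝ) : Prop :=
  ∀ P : MvPolynomial σ (QS S), P.totalDegree ≤ D → P ∈ PK B → MvPolynomial.eval x P ∈ Id S r →
    ∀ m, P.coeff m ∈ Id S r

/-- SPAN: for all finitely many functions known to `O` there are copies, with these functions in common, and types,
with affinely independent velocities -/
def Spn {ι : Type} {d : ℕ} (a : ι → Fin d → QS S) (O : S.L) : Prop :=
  ∀ (n : ℕ) (F : Fin n → QS S), QS.vd F 1 ≤ O → ∃ (W : Sp) (p : Fin (d + 1) → Pj W S) (i : Fin (d + 1) → ι),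
    (∀ l j, (p l).qs (F j) = (p 0).qs (F j)) ∧
      IsUnit (Matrix.of fun (l : Fin (d + 1)) (j : Fin (d + 1)) =>
        Fin.cases (motive := fun _ => QS W) 1 (fun k => (p l).qs (a (i l) k)) j).det

/-- SPAN for families indexed by a finite type -/
theorem Spn.fam {ι : Type} {d : ℕ} {a : ι → Fin d → QS S} {O : S.L} (h : Spn a O) {κ : Type} [Fintype κ]
    (F : κ → QS S) (hF : QS.vd F 1 ≤ O) : ∃ (W : Sp) (p : Fin (d + 1) → Pj W S) (i : Fin (d + 1) → ι),
    (∀ l j, (p l).qs (F j) = (p 0).qs (F j)) ∧
      IsUnit (Matrix.of fun (l : Fin (d + 1)) (j : Fin (d + 1)) =>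
        Fin.cases (motive := fun _ => QS W) 1 (fun k => (p l).qs (a (i l) k)) j).det := by
  obtain ⟨W, p, i, h1, h2⟩ := h (Fintype.card κ) (fun n => F ((Fintype.equivFin κ).symm n)) (by
    rw [vd_le]
    exact fun n => (dg_le_vd F 1 _).trans hF)
  refine ⟨W, p, i, fun l j => ?_, h2⟩
  have := h1 l (Fintype.equivFin κ j)
  simpa using this

theorem pd_deg {A : Type*} [CommRing A] {σ : Type*} (P : MvPolynomial σ A) (i : σ) {n : ℕ}
    (hn : P.totalDegree ≤ n + 1) : (MvPolynomial.pderiv i P).totalDegree ≤ n := by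
  classical
  unfold MvPolynomial.totalDegree
  apply Finset.sup_le
  intro m hm
  rw [MvPolynomial.mem_support_iff, MvPolynomial.coeff_pderiv] at hm
  have h1 : P.coeff (m + Finsupp.single i 1) ≠ 0 := by
    intro h
    rw [h, zero_mul] at hm
    exact hm rfl
  have h2 := MvPolynomial.le_totalDegree (MvPolynomial.mem_support_iff.mpr h1)
  have h3 : ((m + Finsupp.single i 1).sum fun _ e => e) = (m.sum fun _ e => e) + 1 := by
    rw [Finsupp.sum_add_index' (fun _ => rfl) (fun _ _ _ => rfl), Finsupp.sum_single_index rfl]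
  omega

theorem pd_PK {σ : Type} {B : S.L} {P : MvPolynomial σ (QS S)} (hP : P ∈ PK B) (i : σ) :
    MvPolynomial.pderiv i P ∈ PK B := by
  classical
  intro m
  rw [MvPolynomial.coeff_pderiv]
  refine (Kn S 1 le_rfl B).mul_mem (hP _) ?_
  exact_mod_cast natCast_mem (Kn S 1 le_rfl B) (m i + 1)

/-- the span of the velocities, algebraic form: a linear relation with coefficients known to the point which holds for
all types is trivial -/
theorem Spn.lin {ι : Type} {d : ℕ} {a : ι → Fin d → QS S} {O : S.L} (hs : Spn a O) {r : ℝ} (hr : r ≤ 1)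
    (F : Fin (d + 1) → QS S) (hFO : QS.vd F 1 ≤ O) (hrel : ∀ i, F 0 + ∑ k : Fin d, F k.succ * a i k ∈ Id S r)
    (j : Fin (d + 1)) : F j ∈ Id S r := by
  classical
  obtain ⟨W, p, i, hcom, hdet⟩ := hs.fam F hFO
  rw [← (p 0).qs_mem_Id hr]
  set M : Matrix (Fin (d + 1)) (Fin (d + 1)) (QS W) := Matrix.of fun (l : Fin (d + 1)) (j : Fin (d + 1)) =>
        Fin.cases (motive := fun _ => QS W) 1 (fun k => (p l).qs (a (i l) k)) j with hM
  have h3 := mulVec_mem_ideal (Id W r) M (fun j => (p 0).qs (F j)) hdet (by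
    intro l
    have h4 : M.mulVec (fun j => (p 0).qs (F j)) l =
        (p l).qs (F 0 + ∑ k : Fin d, F k.succ * a (i l) k) := by
      rw [Matrix.mulVec, dotProduct, Fin.sum_univ_succ]
      have e1 : (p 0).qs (F 0) = (p l).qs (F 0) := (hcom l 0).symm
      have e2 : ∀ k : Fin d, (p 0).qs (F k.succ) = (p l).qs (F k.succ) := fun k => (hcom l k.succ).symm
      have e3 : M l 0 = 1 := rfl
      have e4 : ∀ k : Fin d, M l k.succ = (p l).qs (a (i l) k) := fun k => rfl
      have e5 : ∑ k : Fin d, M l k.succ * (p 0).qs (F k.succ) =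
          ∑ k : Fin d, (p l).qs (F k.succ * a (i l) k) := by
        apply Finset.sum_congr rfl
        intro k _
        rw [e2, e4, map_mul, mul_comm]
      rw [e1, e3, one_mul, e5, map_add]
      congr 1
      exact (map_sum _ _ _).symm
    rw [h4]
    exact ((p l).qs_mem_Id hr).mpr (hrel (i l)))
  exact h3 j

/-- the derivatives of a relation in the directions of the spanning velocities are relations. `f`: coordinates with
velocities `a i`, `x`: coordinates with a velocity `v` known to the point and common to all types; SPAN in the algebraic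
form (helper10's `SPN`). -/
theorem pderiv_Id' {ι τ : Type} [Fintype τ] {d : ℕ} {f : Fin d → QS S} {x : τ → QS S} {t : QS S} {ξ : ι → S.L}
    (c : ∀ i, Cur (Sum.elim f x) t (ξ i)) {B O : S.L} (hB : B ≤ O) (hf : QS.vd f 1 ≤ O) (hx : QS.vd x 1 ≤ O)
    (ht : ∀ i, h (dg t 1) (ξ i ⊔ B) = 1) (v : τ → QS S) (hv : ∀ i j, (c i).v (Sum.inr j) = v j) (hvO : QS.vd v 1 ≤ O)
    {r : ℝ} (hs : ∀ F : Fin (d + 1) → QS S, QS.vd F 1 ≤ O →
      (∀ i, F 0 + ∑ k, F k.succ * (c i).v (Sum.inl k) ∈ Id S r) → ∀ j, F j ∈ Id S r)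
    {P : MvPolynomial (Fin d ⊕ τ) (QS S)} (hP : P ∈ PK B)
    (hr : r ≤ 1) (h0 : MvPolynomial.eval (Sum.elim f x) P ∈ Id S r) (k : Fin d) :
    MvPolynomial.eval (Sum.elim f x) (MvPolynomial.pderiv (Sum.inl k) P) ∈ Id S r := by
  classical
  -- the coefficients at the point
  set c0 : QS S := ∑ j : τ, MvPolynomial.eval (Sum.elim f x) (MvPolynomial.pderiv (Sum.inr j) P) * v j with hc0
  set ck : Fin d → QS S := fun k => MvPolynomial.eval (Sum.elim f x) (MvPolynomial.pderiv (Sum.inl k) P) with hck
  have hpd : ∀ j : Fin d ⊕ τ, MvPolynomial.pderiv j P ∈ PK B := fun j => pd_PK hP j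
  have hpt : ∀ j : Fin d ⊕ τ, dg (Sum.elim f x j) 1 ≤ O := by
    rintro (j | j)
    · exact (dg_le_vd f 1 j).trans hf
    · exact (dg_le_vd x 1 j).trans hx
  have hev : ∀ j : Fin d ⊕ τ, MvPolynomial.eval (Sum.elim f x) (MvPolynomial.pderiv j P) ∈ Kn S 1 le_rfl O :=
    fun j => eval_mem (hpd j) _ hB hpt
  set F : Fin (d + 1) → QS S := fun j => Fin.cases (motive := fun _ => QS S) c0 ck j with hF
  have hFO : QS.vd F 1 ≤ O := by
    rw [vd_le]
    intro j
    refine Fin.cases ?_ (fun k => ?_) j
    · have h1 : (∑ j : τ, MvPolynomial.eval (Sum.elim f x) (MvPolynomial.pderiv (Sum.inr j) P) * v j) ∈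
          Kn S 1 le_rfl O := Subring.sum_mem _ fun j _ =>
        (Kn S 1 le_rfl O).mul_mem (hev _) ((dg_le_vd v 1 j).trans hvO)
      exact h1
    · exact hev _
  -- the relation along each type
  have hrel : ∀ i : ι, c0 + ∑ k : Fin d, ck k * (c i).v (Sum.inl k) ∈ Id S r := by
    intro i
    have h1 := (c i).diff (ht i) hP hr h0
    rw [Fintype.sum_sum_type] at h1
    have h2 : ∑ j : τ, MvPolynomial.eval (Sum.elim f x) (MvPolynomial.pderiv (Sum.inr j) P) * (c i).v (Sum.inr j) =
        c0 := Finset.sum_congr rfl fun j _ => by rw [hv i j]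
    rw [h2, add_comm] at h1
    exact h1
  exact hs F hFO hrel k.succ

/-- the same with copies -/
theorem pderiv_Id {ι τ : Type} [Fintype τ] {d : ℕ} {f : Fin d → QS S} {x : τ → QS S} {t : QS S} {ξ : ι → S.L}
    (c : ∀ i, Cur (Sum.elim f x) t (ξ i)) {B O : S.L} (hB : B ≤ O) (hf : QS.vd f 1 ≤ O) (hx : QS.vd x 1 ≤ O)
    (ht : ∀ i, h (dg t 1) (ξ i ⊔ B) = 1) (v : τ → QS S) (hv : ∀ i j, (c i).v (Sum.inr j) = v j) (hvO : QS.vd v 1 ≤ O)
    (hs : Spn (fun i k => (c i).v (Sum.inl k)) O) {P : MvPolynomial (Fin d ⊕ τ) (QS S)} (hP : P ∈ PK B) {r : ℝ}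
    (hr : r ≤ 1) (h0 : MvPolynomial.eval (Sum.elim f x) P ∈ Id S r) (k : Fin d) :
    MvPolynomial.eval (Sum.elim f x) (MvPolynomial.pderiv (Sum.inl k) P) ∈ Id S r :=
  pderiv_Id' c hB hf hx ht v hv hvO (fun F hF h => hs.lin hr F hF h) hP hr h0 k

/-- NO RELATION FOR THE PROLONGATION, SPAN in the algebraic form (helper10's `SPN`) -/
theorem NR.prolong' {ι τ : Type} [Fintype τ] {d : ℕ} {f : Fin d → QS S} {x : τ → QS S} {t : QS S} {ξ : ι → S.L}
    (c : ∀ i, Cur (Sum.elim f x) t (ξ i)) {B O : S.L} (hB : B ≤ O) (hf : QS.vd f 1 ≤ O) (hx : QS.vd x 1 ≤ O)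
    (ht : ∀ i, h (dg t 1) (ξ i ⊔ B) = 1) (v : τ → QS S) (hv : ∀ i j, (c i).v (Sum.inr j) = v j) (hvO : QS.vd v 1 ≤ O)
    {r : ℝ} (hs : ∀ F : Fin (d + 1) → QS S, QS.vd F 1 ≤ O →
      (∀ i, F 0 + ∑ k, F k.succ * (c i).v (Sum.inl k) ∈ Id S r) → ∀ j, F j ∈ Id S r)
    (hr : r ≤ 1) {D : ℕ} (hx0 : NR D x B r) : NR D (Sum.elim f x) B r := by
  classical
  have key : ∀ (n : ℕ) (P : MvPolynomial (Fin d ⊕ τ) (QS S)), P.totalDegree ≤ n → P.totalDegree ≤ D → P ∈ PK B →
      MvPolynomial.eval (Sum.elim f x) P ∈ Id S r → ∀ m, P.coeff m ∈ Id S r := by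
    intro n
    induction n with
    | zero =>
      intro P hn _ hP h0 m
      have h1 : P = MvPolynomial.C (P.coeff 0) := (MvPolynomial.totalDegree_eq_zero_iff_eq_C).mp (Nat.le_zero.mp hn)
      rw [h1] at h0 ⊢
      rw [MvPolynomial.eval_C] at h0
      rw [MvPolynomial.coeff_C]
      split_ifs
      · exact h0
      · exact (Id S r).zero_mem
    | succ n ih =>
      intro P hn hD hP h0
      -- monomials with a coordinate of `f`
      have h1 : ∀ m : (Fin d ⊕ τ) →₀ ℕ, (∃ k : Fin d, m (Sum.inl k) ≠ 0) → P.coeff m ∈ Id S r := by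
        rintro m ⟨k, hk⟩
        have h2 := pderiv_Id' c hB hf hx ht v hv hvO hs hP hr h0 k
        obtain ⟨m1, hm1⟩ : ∃ m1 : (Fin d ⊕ τ) →₀ ℕ, m1 = m - Finsupp.single (Sum.inl k) 1 := ⟨_, rfl⟩
        have h5 := ih _ (pd_deg P (Sum.inl k) hn) (pd_deg P (Sum.inl k) (hD.trans (Nat.le_succ D))) (pd_PK hP _) h2 m1
        rw [MvPolynomial.coeff_pderiv] at h5
        have h6 : m1 + Finsupp.single (Sum.inl k) 1 = m := by
          rw [hm1]
          apply tsub_add_cancel_of_le
          rw [Finsupp.single_le_iff]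
          exact Nat.one_le_iff_ne_zero.mpr hk
        rw [h6, mul_comm] at h5
        have h7 : IsUnit (((m1 (Sum.inl k) : ℕ) : QS S) + 1) := by
          have h8 := Pool.Agent.Helper50.CV.isUnit_nat (S := S) (m1 (Sum.inl k) + 1) (Nat.succ_pos _)
          exact_mod_cast h8
        exact mem_Id_of_unit_mul h7 h5
      -- the remaining part is a polynomial of `x`
      set P0 : MvPolynomial τ (QS S) := ∑ m ∈ P.support.filter (fun m => ∀ k : Fin d, m (Sum.inl k) = 0),
        MvPolynomial.monomial (m.comapDomain Sum.inr Sum.inr_injective.injOn) (P.coeff m) with hP0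
      have h2 : ∀ m : (Fin d ⊕ τ) →₀ ℕ, (∀ k : Fin d, m (Sum.inl k) = 0) →
          MvPolynomial.eval (Sum.elim f x) (MvPolynomial.monomial m (P.coeff m)) =
            MvPolynomial.eval x (MvPolynomial.monomial (m.comapDomain Sum.inr Sum.inr_injective.injOn) (P.coeff m)) := by
        intro m hm
        rw [MvPolynomial.eval_monomial, MvPolynomial.eval_monomial]
        congr 1
        rw [Finsupp.prod_fintype _ _ (fun _ => pow_zero _), Finsupp.prod_fintype _ _ (fun _ => pow_zero _),
          Fintype.prod_sum_type]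
        have h3 : ∏ k : Fin d, Sum.elim f x (Sum.inl k) ^ m (Sum.inl k) = 1 :=
          Finset.prod_eq_one fun k _ => by rw [hm k, pow_zero]
        rw [h3, one_mul]
        rfl
      have h3 : MvPolynomial.eval x P0 ∈ Id S r := by
        have h4 : MvPolynomial.eval (Sum.elim f x) P = MvPolynomial.eval x P0 +
            ∑ m ∈ P.support.filter (fun m => ¬ ∀ k : Fin d, m (Sum.inl k) = 0),
              MvPolynomial.eval (Sum.elim f x) (MvPolynomial.monomial m (P.coeff m)) := by
          conv_lhs => rw [P.as_sum, map_sum, ← Finset.sum_filter_add_sum_filter_not P.support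
            (fun m => ∀ k : Fin d, m (Sum.inl k) = 0)]
          rw [hP0, map_sum]
          congr 1
          exact Finset.sum_congr rfl fun m hm => h2 m (Finset.mem_filter.mp hm).2
        rw [h4] at h0
        refine (Submodule.add_mem_iff_left (Id S r) ?_).mp h0
        refine (Id S r).sum_mem fun m hm => ?_
        rw [MvPolynomial.eval_monomial]
        have h5 := (Finset.mem_filter.mp hm).2
        push Not at h5
        exact (Id S r).mul_mem_right _ (h1 m h5)
      have h4 : P0 ∈ PK B := (PK B).sum_mem fun m _ => monomial_mem _ (hP m)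
      have h40 : P0.totalDegree ≤ D := by
        rw [hP0]
        refine MvPolynomial.totalDegree_finsetSum_le fun m hm => ?_
        refine (MvPolynomial.totalDegree_monomial_le _ _).trans ?_
        refine le_trans ?_ ((MvPolynomial.le_totalDegree (Finset.mem_filter.mp hm).1).trans hD)
        rw [Finsupp.sum_fintype _ _ (fun _ => rfl), Finsupp.sum_fintype _ _ (fun _ => rfl), Fintype.sum_sum_type]
        exact le_add_of_nonneg_left (Nat.zero_le _)
      have h5 := hx0 P0 h40 h4 h3
      intro m
      by_cases hm : ∀ k : Fin d, m (Sum.inl k) = 0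
      · have h6 := h5 (m.comapDomain Sum.inr Sum.inr_injective.injOn)
        have h7 : P0.coeff (m.comapDomain Sum.inr Sum.inr_injective.injOn) = P.coeff m := by
          rw [hP0, MvPolynomial.coeff_sum]
          by_cases h8 : m ∈ P.support
          · rw [Finset.sum_eq_single m]
            · rw [MvPolynomial.coeff_monomial, if_pos rfl]
            · intro m' hm' hne
              rw [MvPolynomial.coeff_monomial, if_neg]
              intro heq
              apply hne
              ext j
              rcases j with j | j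
              · rw [(Finset.mem_filter.mp hm').2 j, hm j]
              · have := DFunLike.congr_fun heq j
                simpa using this
            · intro h9
              exact absurd (Finset.mem_filter.mpr ⟨h8, hm⟩) h9
          · rw [MvPolynomial.notMem_support_iff.mp h8]
            apply Finset.sum_eq_zero
            intro m' hm'
            rw [MvPolynomial.coeff_monomial, if_neg]
            intro heq
            apply h8
            have h9 : m' = m := by
              ext j
              rcases j with j | j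
              · rw [(Finset.mem_filter.mp hm').2 j, hm j]
              · have := DFunLike.congr_fun heq j
                simpa using this
            rw [← h9]
            exact (Finset.mem_filter.mp hm').1
        rw [← h7]
        exact h6
      · push Not at hm
        exact h1 m hm
  intro P hD hP h0 m
  exact key P.totalDegree P le_rfl hD hP h0 m

/-- NO RELATION FOR THE PROLONGATION -/
theorem NR.prolong {ι τ : Type} [Fintype τ] {d : ℕ} {f : Fin d → QS S} {x : τ → QS S} {t : QS S} {ξ : ι → S.L}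
    (c : ∀ i, Cur (Sum.elim f x) t (ξ i)) {B O : S.L} (hB : B ≤ O) (hf : QS.vd f 1 ≤ O) (hx : QS.vd x 1 ≤ O)
    (ht : ∀ i, h (dg t 1) (ξ i ⊔ B) = 1) (v : τ → QS S) (hv : ∀ i j, (c i).v (Sum.inr j) = v j) (hvO : QS.vd v 1 ≤ O)
    (hs : Spn (fun i k => (c i).v (Sum.inl k)) O) {r : ℝ} (hr : r ≤ 1) {D : ℕ} (hx0 : NR D x B r) :
    NR D (Sum.elim f x) B r :=
  NR.prolong' c hB hf hx ht v hv hvO (fun F hF h => hs.lin hr F hF h) hr hx0

end

end Pool.Agent.Helper5.DO
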