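import Pool.Agent.Helper31.EC.Sep
import Pool.Agent.Helper50.CV.Power

/-! Corners with one unit direction, the prolongation: a polynomial relation with known coefficients can be
differentiated along the curves; if the velocities of the first coordinates span, then there is no relation between the
prolonged coordinates when there is none between the old ones. -/

set_option autoImplicit false

namespace Pool.Agent.Helper5.DO

open Finset Filter Topology Pool.Agent.Helper69.RK Pool.Agent.Helper31.EC

noncomputable section

open Sp QS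

section alg

variable {A : Type*} [CommRing A] {σ : Type*}

/-- chain rule for a polynomial along a polynomial curve -/
theorem chain [Fintype σ] (P : MvPolynomial σ A) (p : σ → Polynomial A) :
    Polynomial.derivative (MvPolynomial.aeval p P) =
      ∑ j, MvPolynomial.aeval p (MvPolynomial.pderiv j P) * Polynomial.derivative (p j) := by
  classical
  induction P using MvPolynomial.induction_on with
  | C a =>
    rw [MvPolynomial.aeval_C, Polynomial.algebraMap_eq, Polynomial.derivative_C]
    symm
    apply Finset.sum_eq_zero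
    intro j _
    rw [MvPolynomial.pderiv_C, map_zero, zero_mul]
  | add P Q hP hQ =>
    simp only [map_add, hP, hQ, add_mul, Finset.sum_add_distrib]
  | mul_X P i hP =>
    rw [map_mul, Polynomial.derivative_mul, hP, MvPolynomial.aeval_X, Finset.sum_mul]
    have h1 : ∀ j, MvPolynomial.aeval p (MvPolynomial.pderiv j (P * MvPolynomial.X i)) * Polynomial.derivative (p j) =
        MvPolynomial.aeval p (MvPolynomial.pderiv j P) * Polynomial.derivative (p j) * p i +
          (if j = i then MvPolynomial.aeval p P * Polynomial.derivative (p i) else 0) := by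
      intro j
      rw [Derivation.leibniz, MvPolynomial.pderiv_X, map_add, smul_eq_mul, smul_eq_mul, map_mul, map_mul,
        MvPolynomial.aeval_X]
      by_cases hj : j = i
      · subst hj
        rw [if_pos rfl, Pi.single_eq_same, map_one]
        ring
      · rw [if_neg hj, Pi.single_eq_of_ne (fun h => hj h.symm), map_zero]
        ring
    rw [Finset.sum_congr rfl fun j _ => h1 j, Finset.sum_add_distrib, Finset.sum_ite_eq' Finset.univ i]
    simp

theorem eval_aeval (P : MvPolynomial σ A) (p : σ → Polynomial A) (t : A) :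
    (MvPolynomial.aeval p P).eval t = MvPolynomial.eval (fun j => (p j).eval t) P := by
  induction P using MvPolynomial.induction_on with
  | C a => rw [MvPolynomial.aeval_C, Polynomial.algebraMap_eq, Polynomial.eval_C, MvPolynomial.eval_C]
  | add P Q hP hQ => rw [map_add, Polynomial.eval_add, hP, hQ, map_add]
  | mul_X P i hP => rw [map_mul, Polynomial.eval_mul, hP, MvPolynomial.aeval_X, map_mul, MvPolynomial.eval_X]

end alg

variable {S : Sp}

/-- the subring of polynomials of one variable with known coefficients -/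
def PU (A : S.L) : Subring (Polynomial (QS S)) where
  carrier := {g | ∀ m, dg (g.coeff m) 1 ≤ A}
  mul_mem' := by
    intro P Q hP hQ m
    rw [Polynomial.coeff_mul]
    exact (Kn S 1 le_rfl A).sum_mem fun x _ => (Kn S 1 le_rfl A).mul_mem (hP x.1) (hQ x.2)
  one_mem' := by
    intro m
    rw [Polynomial.coeff_one]
    split_ifs
    · exact (Kn S 1 le_rfl A).one_mem
    · exact (Kn S 1 le_rfl A).zero_mem
  add_mem' := by
    intro P Q hP hQ m
    rw [Polynomial.coeff_add]
    exact (Kn S 1 le_rfl A).add_mem (hP m) (hQ m)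
  zero_mem' := by
    intro m
    rw [Polynomial.coeff_zero]
    exact (Kn S 1 le_rfl A).zero_mem
  neg_mem' := by
    intro P hP m
    rw [Polynomial.coeff_neg]
    exact (Kn S 1 le_rfl A).neg_mem (hP m)

theorem mem_PU {A : S.L} {g : Polynomial (QS S)} : g ∈ PU A ↔ ∀ m, dg (g.coeff m) 1 ≤ A := Iff.rfl

theorem PU_mono {A B : S.L} (h : A ≤ B) : PU A ≤ PU B := fun _ hg m => (hg m).trans h

theorem PU_C {A : S.L} {c : QS S} (hc : dg c 1 ≤ A) : Polynomial.C c ∈ PU A := by
  intro m
  rw [Polynomial.coeff_C]
  split_ifs
  · exact hc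
  · exact (Kn S 1 le_rfl A).zero_mem

theorem PU_derivative {A : S.L} {g : Polynomial (QS S)} (hg : g ∈ PU A) : Polynomial.derivative g ∈ PU A := by
  intro m
  rw [Polynomial.coeff_derivative]
  refine (Kn S 1 le_rfl A).mul_mem (hg _) ?_
  exact_mod_cast natCast_mem (Kn S 1 le_rfl A) (m + 1)

/-- values of polynomials with known coefficients along curves with known coefficients -/
theorem PU_aeval {σ : Type} {A : S.L} {P : MvPolynomial σ (QS S)} (hP : P ∈ PK A) {p : σ → Polynomial (QS S)}
    (hp : ∀ j, p j ∈ PU A) : MvPolynomial.aeval p P ∈ PU A := by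
  classical
  rw [P.as_sum, map_sum]
  refine (PU A).sum_mem fun m _ => ?_
  rw [MvPolynomial.aeval_monomial, Polynomial.algebraMap_eq]
  refine (PU A).mul_mem (PU_C (hP m)) ?_
  exact (PU A).prod_mem fun j _ => (PU A).pow_mem (hp j) _

/-- the coefficients of a small polynomial in a real variable are small -/
theorem poly_Id {g : Polynomial (QS S)} {A : S.L} (hg : g ∈ PU A) {t : QS S} (ht : h (dg t 1) A = 1) {r : ℝ}
    (hr : r ≤ 1) (h0 : g.eval t ∈ Id S r) (m : ℕ) : g.coeff m ∈ Id S r := by
  have h1 : pe (k := g.natDegree) (fun a => g.coeff a) t ∈ Id S r := by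
    have e1 : pe (k := g.natDegree) (fun a => g.coeff a) t = g.eval t := by
      rw [Polynomial.eval_eq_sum_range]
      unfold pe
      rw [Fin.sum_univ_eq_sum_range fun a => g.coeff a * t ^ a]
    rw [e1]
    exact h0
  have h2 : h (dg t 1) (vd (fun a : Fin (g.natDegree + 1) => g.coeff a) 1) = 1 := by
    refine le_antisymm (h_dg_le_one _ _) (ht.ge.trans ?_)
    apply h_anti
    rw [vd_le]
    exact fun i => hg i
  rcases Nat.lt_or_ge g.natDegree m with h3 | h3
  · rw [Polynomial.coeff_eq_zero_of_natDegree_lt h3]
    exact (Id S r).zero_mem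
  · exact real_zero _ t h2 hr h1 ⟨m, Nat.lt_succ_of_le h3⟩

/-- the derivative of a small polynomial in a real variable is small -/
theorem deriv_Id {g : Polynomial (QS S)} {A : S.L} (hg : g ∈ PU A) {t : QS S} (ht : h (dg t 1) A = 1) {r : ℝ}
    (hr : r ≤ 1) (h0 : g.eval t ∈ Id S r) : (Polynomial.derivative g).eval t ∈ Id S r := by
  rw [Polynomial.eval_eq_sum_range]
  refine (Id S r).sum_mem fun m _ => ?_
  rw [Polynomial.coeff_derivative]
  exact (Id S r).mul_mem_right _ ((Id S r).mul_mem_right _ (poly_Id hg ht hr h0 (m + 1)))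

/-- a polynomial curve through the point `x`, with coefficients known to `ξ` -/
structure Cur {σ : Type} (x : σ → QS S) (t : QS S) (ξ : S.L) where
  p : σ → Polynomial (QS S)
  kn : ∀ j, p j ∈ PU ξ
  pt : ∀ j, (p j).eval t = x j

/-- the velocity -/
def Cur.v {σ : Type} {x : σ → QS S} {t : QS S} {ξ : S.L} (c : Cur x t ξ) (j : σ) : QS S :=
  (Polynomial.derivative (c.p j)).eval t

/-- a relation can be differentiated along a curve -/
theorem Cur.diff {σ : Type} [Fintype σ] {x : σ → QS S} {t : QS S} {ξ : S.L} (c : Cur x t ξ) {B : S.L}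
    (ht : h (dg t 1) (ξ ⊔ B) = 1) {P : MvPolynomial σ (QS S)} (hP : P ∈ PK B) {r : ℝ} (hr : r ≤ 1)
    (h0 : MvPolynomial.eval x P ∈ Id S r) :
    ∑ j, MvPolynomial.eval x (MvPolynomial.pderiv j P) * c.v j ∈ Id S r := by
  have hx : (fun j => (c.p j).eval t) = x := funext c.pt
  have h1 : MvPolynomial.aeval c.p P ∈ PU (ξ ⊔ B) :=
    PU_aeval (PK_mono le_sup_right hP) fun j => PU_mono le_sup_left (c.kn j)
  have h2 : (MvPolynomial.aeval c.p P).eval t ∈ Id S r := by
    rw [eval_aeval, hx]
    exact h0
  have h3 := deriv_Id h1 ht hr h2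
  rw [chain, Polynomial.eval_finsetSum] at h3
  have h4 : ∀ j, Polynomial.eval t (MvPolynomial.aeval c.p (MvPolynomial.pderiv j P) * Polynomial.derivative (c.p j)) =
      MvPolynomial.eval x (MvPolynomial.pderiv j P) * c.v j := by
    intro j
    rw [Polynomial.eval_mul, eval_aeval, hx]
    rfl
  rw [Finset.sum_congr rfl fun j _ => h4 j] at h3
  exact h3

end

end Pool.Agent.Helper5.DO
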