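import Pool.Agent.Helper5.DO.VolT
import Pool.Agent.Helper10.BLD.St1
import Pool.Agent.Helper24.PR.Tm
import Pool.Agent.Helper24.PR.Tri
import Pool.Agent.Helper24.PR.Nri
import Pool.Agent.Helper68.VW.Vwp
import Pool.Agent.Helper99.BLD.Nlw

/-! THE HULL OF A SYSTEM at the point of a corner in changed coordinates, on all events of extensions. -/

set_option autoImplicit false

namespace Pool.Agent.Helper5.DO

open Finset Filter Topology Pool.Agent.Helper69.RK Pool.Agent.Helper31.EC Pool.Agent.Helper31.EC.Sp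
open Pool.Agent.Helper31.EC.QS Pool.Agent.Helper40.EL Pool.Agent.Helper89.LX Pool.Agent.Helper84.MT
open Pool.Agent.Helper13.AM (CD Tri)
open Pool.Agent.Helper5.HB (cq NRl lb vol_ge NRl_iff)
open Pool.Agent.Helper56.STL (LForm exists_LForm vd_cor)
open Pool.Agent.Helper10.BLD (Cl1)
open Pool.Agent.Helper24.PR (deg_map)

noncomputable section

variable {S : Sp} {d N r M D : ℕ} {E : ℕ → ℕ}

/-- no relations of any degree on all events of all extensions -/
def NRA {σ : Type} (x : σ → QS S) : Prop := ∀ (D : ℕ) (T : Sp) (p : Pj T S) (A : ∀ k, (T.F k).Ω → Prop)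
  (hA : 0 < ul (T.pr A)) (κ : ℝ), 0 < κ → κ ≤ 1 → NR D (fun i => QS.rest A hA (p.qs (x i))) ⊥ κ

/-- no labels on all events of all extensions -/
def NLA {ι : Type} (O : S.L) (ξ : ι → S.L) : Prop := ∀ (T : Sp) (p : Pj T S) (A : ∀ k, (T.F k).Ω → Prop)
  (hA : 0 < ul (T.pr A)) (X : (T.rest A).L), X ≤ restL A hA (p.map O) → (∀ i, X ≤ restL A hA (p.map (ξ i))) → X ≤ ⊥

/-- images under polynomial maps with an inverse on the right -/
theorem NRA.img {σ τ : Type} {x : σ → QS S} (h : NRA x) (P : τ → MvPolynomial σ (QS S))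
    (hP : ∀ i, P i ∈ PK ⊥) {k : ℕ} (hd : ∀ i, (P i).totalDegree ≤ k) (G : σ → MvPolynomial τ (QS S))
    (hG : ∀ i, MvPolynomial.bind₁ G (P i) = MvPolynomial.X i) : NRA (fun i => MvPolynomial.eval x (P i)) := by
  intro D T p A hA κ h0 h1
  obtain ⟨g, hg⟩ : ∃ g : QS S →+* QS (T.rest A), g = (QS.rest A hA).comp p.qs := ⟨_, rfl⟩
  have hk := h (k * D) T p A hA κ h0 h1
  have h2 := Pool.Agent.Helper24.PR.nr_img' hk (fun i => MvPolynomial.map g (P i)) (fun i m => by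
      rw [MvPolynomial.coeff_map, hg]
      show dg (QS.rest A hA (p.qs ((P i).coeff m))) 1 ≤ ⊥
      rw [QS.rest_dg, p.qs_dg]
      have h3 := restL_mono A hA (p.map_mono (hP i m))
      rw [Pj.map_bot, restL_bot] at h3
      exact h3) (fun i => deg_map g (P i) (hd i)) (fun a => MvPolynomial.map g (G a)) (fun i => by
      have h3 := congrArg (MvPolynomial.map g) (hG i)
      rw [MvPolynomial.map_bind₁, MvPolynomial.map_X] at h3
      exact h3)
  have e : (fun i => QS.rest A hA (p.qs (MvPolynomial.eval x (P i)))) =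
      fun i => MvPolynomial.eval (fun a => QS.rest A hA (p.qs (x a))) (MvPolynomial.map g (P i)) := by
    funext i
    have h3 := MvPolynomial.map_eval g x (P i)
    rw [hg] at h3 ⊢
    exact h3
  rw [e]
  exact h2

theorem NRA.sub {σ τ : Type} {x : τ → QS S} (h : NRA x) (g : σ → τ) (hg : Function.Injective g) :
    NRA (fun a => x (g a)) := fun D T p A hA κ h0 h1 => (h D T p A hA κ h0 h1).sub g hg

/-- triangular changes of coordinates -/
theorem NRA.tri {α ν : Type} [Fintype ν] {q : α → QS S} {R : ν → QS S} (h : NRA (Sum.elim q R)) (w : ν → ℝ)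
    (H : ν → MvPolynomial (α ⊕ ν) (QS S)) (hH : ∀ j, H j ∈ PK ⊥)
    (low : ∀ j n, (H j).coeff n ≠ 0 → ∀ l, n (Sum.inr l) ≠ 0 → w l < w j) :
    NRA (Sum.elim q fun j => R j - MvPolynomial.eval (Sum.elim q R) (H j)) := by
  classical
  obtain ⟨G, h1, h2⟩ := Pool.Agent.Helper24.PR.tri_inv w H low
  obtain ⟨P, hP⟩ : ∃ P : α ⊕ ν → MvPolynomial (α ⊕ ν) (QS S), P = Sum.elim (fun a => MvPolynomial.X (Sum.inl a))
    fun j => MvPolynomial.X (Sum.inr j) - H j := ⟨_, rfl⟩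
  have h3 := h.img P (by
    rintro (a | j)
    · rw [hP]
      exact X_mem _ _
    · rw [hP]
      exact (PK ⊥).sub_mem (X_mem _ _) (hH j)) (k := max 1 (univ.sup fun j => (H j).totalDegree)) (by
    rintro (a | j)
    · rw [hP]
      exact (MvPolynomial.totalDegree_X _).le.trans (le_max_left _ _)
    · rw [hP]
      refine (MvPolynomial.totalDegree_sub _ _).trans (max_le ((MvPolynomial.totalDegree_X _).le.trans
        (le_max_left _ _)) ?_)
      exact (Finset.le_sup (f := fun j => (H j).totalDegree) (mem_univ j)).trans (le_max_right _ _)) G (by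
    rintro (a | j)
    · rw [hP]
      show MvPolynomial.bind₁ G (MvPolynomial.X (Sum.inl a)) = _
      rw [MvPolynomial.bind₁_X_right, h1]
    · rw [hP]
      exact h2 j)
  have e : (fun i => MvPolynomial.eval (Sum.elim q R) (P i)) =
      Sum.elim q fun j => R j - MvPolynomial.eval (Sum.elim q R) (H j) := by
    funext i
    rcases i with a | j
    · rw [hP]
      exact MvPolynomial.eval_X _
    · rw [hP]
      show MvPolynomial.eval (Sum.elim q R) (MvPolynomial.X (Sum.inr j) - H j) = _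
      rw [map_sub, MvPolynomial.eval_X]
      rfl
  rw [← e]
  exact h3

/-- **FULL HULL**, local hypotheses -/
theorem vol_gen {κ₀ : Type} [Fintype κ₀] {ι : Type} {r' : ℕ} (x : κ₀ → QS S) (ξ : ι → S.L)
    (s : MSys S M E (Fin r')) (e : κ₀ ≃ Fin M) (he : ∀ i, x i = cq s.Q (e i)) (f : ι → Fin r')
    (hw : ∀ i, PLe ((s.lf (f i)).win 0) (rp (ξ i)))
    (nl : ∀ X : S.L, X ≤ vd x 1 → (∀ i, X ≤ ξ i) → X ≤ ⊥)
    (hN : ∀ (D : ℕ) (T : Sp) (p : Pj T S) (A : ∀ k, (T.F k).Ω → Prop) (hA : 0 < ul (T.pr A)) (κ : ℝ), 0 < κ → κ ≤ 1 →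
      NR D (fun i => QS.rest A hA (p.qs (x i))) ⊥ κ) (D : ℕ) : (M : ℝ) ≤ s.vol D 0 := by
  obtain ⟨y, hx⟩ := s.exists_can D 0
  obtain ⟨F, hO, hle, hFv, -⟩ := exists_LForm s.Q D (A := s.cnd 0) (i₀ := none) rfl hx.1
  have h1 : F.K ≤ vd x 1 := by
    have h2 := F.K_le
    have h3 : s.Q.dg 1 = vd (fun j => cq s.Q j) 1 := (vd_cor s.Q le_rfl).symm
    rw [h3] at h2
    refine h2.trans ((vd_le _ _ _).mpr fun j => ?_)
    have h4 : cq s.Q j = x (e.symm j) := by rw [he, Equiv.apply_symm_apply]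
    rw [h4]
    exact dg_le_vd x 1 (e.symm j)
  have h3 : F.K ≤ ⊥ := nl F.K h1 fun i => PLe_rp.mp (((rp_rpI F.inf).1.trans (hle (some (f i)))).trans (hw i))
  have h4 : NRl D (lb F.x) s.Q := nrl_lit F h3 (by
    intro T p A hA κ h0 h1
    have h5 := (hN D T p A hA κ h0 h1).sub e.symm e.symm.injective
    have e5 : (fun j => QS.rest A hA (p.qs (cq s.Q j))) = fun j => QS.rest A hA (p.qs (x (e.symm j))) := by
      funext j
      rw [he, Equiv.apply_symm_apply]
    rw [e5]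
    exact h5)
  rw [← s.vol_eq hx.1, ← hFv]
  exact vol_ge s.Q hO.1 h4

/-! ### events of extensions -/

section im

variable {T : Sp} (p : Pj T S) (A : ∀ k, (T.F k).Ω → Prop) (hA : 0 < ul (T.pr A))

/-- the windows of the system on an event of an extension -/
theorem win_imq {r' : ℕ} (s : MSys S M E (Fin r')) (i : Fin r') {ξ : S.L} (h : PLe ((s.lf i).win 0) (rp ξ)) :
    PLe ((((s.im p A hA).pull (imq p A)).lf i).win 0) (rp (restL A hA (p.map ξ))) := by
  have e : (((s.im p A hA).pull (imq p A)).lf i).win 0 = (((s.lf i).win 0).pull p).rest A := by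
    show (((s.lf i).im p A hA).pull (imq p A)).win 0 = _
    rw [win_pull, win_im, Part.im_pull]
  rw [e]
  have h1 := Pool.Agent.Helper68.VW.PLe_rest A hA (Pool.Agent.Helper68.VW.PLe_pull p h)
  have h2 := Pool.Agent.Helper68.VW.PLe_rest A hA (Pool.Agent.Helper99.BLD.rp_pull p ξ).2
  exact h1.trans (h2.trans (Pool.Agent.Helper99.BLD.rp_rest hA (p.map ξ)).2)

/-- the point of the system on an event of an extension -/
theorem cq_imq {r' : ℕ} (s : MSys S M E (Fin r')) (j : Fin M) :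
    cq ((s.im p A hA).pull (imq p A)).Q j = QS.rest A hA (p.qs (cq s.Q j)) := rfl

end im

/-! ### classes of corners -/

section cls

variable {w : Fin N → ℝ} {z : Fin N} {ρ : ℝ} {C : ∀ S : Sp, CD S d N r → Prop}

theorem nra_cls (h : Pool.Agent.Helper13.AM.Cls d N r w z ρ C) (hn : Pool.Agent.Helper13.AM.NR C) {c : CD S d N r}
    (hc : C S c) : NRA c.pt := by
  intro D T p A hA κ h0 h1
  have h2 := hn _ _ (h.rest _ _ (h.pull _ _ hc T p) A hA) D κ h0 h1
  have e1 : (fun i => QS.rest A hA (p.qs (c.pt i))) = ((c.pull p).rest A hA).pt := by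
    funext i
    rcases i with i | i <;> rfl
  rw [e1]
  exact h2

theorem cR_O (c : CD S d N r) {H : Fin N → MvPolynomial (Fin (d + 1) ⊕ Fin N) (QS S)} (hH : Tri w H) :
    vd (Sum.elim c.q (c.cR H)) 1 ≤ c.O := by
  rw [vd_le]
  have hpt : ∀ a, dg (c.pt a) 1 ≤ c.O := by
    rintro (a | a)
    · exact (dg_le_vd c.q 1 a).trans le_sup_left
    · exact (dg_le_vd c.R 1 a).trans le_sup_right
  rintro (i | j)
  · exact (dg_le_vd c.q 1 i).trans le_sup_left
  · refine (Kn S 1 le_rfl c.O).sub_mem ((dg_le_vd c.R 1 j).trans le_sup_right) ?_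
    exact eval_mem (hH.real j) c.pt bot_le hpt

/-- **FULL HULL IN CHANGED COORDINATES** -/
theorem vol_cls (h : Pool.Agent.Helper13.AM.Cls d N r w z ρ C) (hn : Pool.Agent.Helper13.AM.NR C) {c : CD S d N r}
    (hc : C S c) {H : Fin N → MvPolynomial (Fin (d + 1) ⊕ Fin N) (QS S)} (hH : Tri w H) {r' : ℕ}
    (s : MSys S M E (Fin r')) (e : Fin (d + 1) ⊕ Fin N ≃ Fin M) (he : ∀ i, Sum.elim c.q (c.cR H) i = cq s.Q (e i))
    (f : Fin r → Fin r') (hw : ∀ i, PLe ((s.lf (f i)).win 0) (rp (c.xi i))) (D : ℕ) : (M : ℝ) ≤ s.vol D 0 := by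
  have A := h.ax _ _ hc
  refine vol_gen (Sum.elim c.q (c.cR H)) c.xi s e he f hw (fun X hX hi => ?_)
    ((nra_cls h hn hc).tri (q := c.q) (R := c.R) w H hH.real hH.low) D
  rw [← A.bx.K_zero]
  exact A.lb.lab 0 le_rfl (by rw [mul_zero]; exact one_pos) X (hX.trans (cR_O c hH)) fun i => (hi i).trans le_sup_left

/-- the changed coordinates on events of extensions -/
theorem tri_map {T : Sp} (g : QS S →+* QS T) (hg : ∀ x : QS S, dg x 1 ≤ ⊥ → dg (g x) 1 ≤ ⊥)
    {H : Fin N → MvPolynomial (Fin (d + 1) ⊕ Fin N) (QS S)} (hH : Tri w H) :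
    Tri w (fun j => MvPolynomial.map g (H j)) where
  real := fun j m => by
    rw [MvPolynomial.coeff_map]
    exact hg _ (hH.real j m)
  low := fun j n hn => hH.low j n fun h0 => hn (by rw [MvPolynomial.coeff_map, h0, map_zero])

theorem rest_bot_le {T : Sp} (p : Pj T S) (A : ∀ k, (T.F k).Ω → Prop) (hA : 0 < ul (T.pr A)) (x : QS S)
    (hx : dg x 1 ≤ ⊥) : dg (((QS.rest A hA).comp p.qs) x) 1 ≤ ⊥ := by
  show dg (QS.rest A hA (p.qs x)) 1 ≤ ⊥
  rw [QS.rest_dg, p.qs_dg]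
  have h3 := restL_mono A hA (p.map_mono hx)
  rw [Pj.map_bot, restL_bot] at h3
  exact h3

/-- **FULL HULL IN CHANGED COORDINATES on events of extensions** -/
theorem vol_cls_im (h : Pool.Agent.Helper13.AM.Cls d N r w z ρ C) (hn : Pool.Agent.Helper13.AM.NR C) {c : CD S d N r}
    (hc : C S c) {H : Fin N → MvPolynomial (Fin (d + 1) ⊕ Fin N) (QS S)} (hH : Tri w H) {r' : ℕ}
    (s : MSys S M E (Fin r')) (e : Fin (d + 1) ⊕ Fin N ≃ Fin M) (he : ∀ i, Sum.elim c.q (c.cR H) i = cq s.Q (e i))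
    (f : Fin r → Fin r') (hw : ∀ i, PLe ((s.lf (f i)).win 0) (rp (c.xi i))) {T : Sp} (p : Pj T S)
    (A : ∀ k, (T.F k).Ω → Prop) (hA : 0 < ul (T.pr A)) (D : ℕ) : (M : ℝ) ≤ (s.im p A hA).vol D 0 := by
  rw [← (s.im p A hA).vol_pull (imq p A) D 0]
  refine vol_cls h hn (h.rest _ _ (h.pull _ _ hc T p) A hA)
    (tri_map ((QS.rest A hA).comp p.qs) (rest_bot_le p A hA) hH) _ e (fun i => ?_) f (fun i => ?_) D
  · rw [cq_imq, ← he i]
    rcases i with i | j
    · rfl
    · show QS.rest A hA (p.qs (c.R j)) - MvPolynomial.eval ((c.pull p).rest A hA).pt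
        (MvPolynomial.map ((QS.rest A hA).comp p.qs) (H j)) = QS.rest A hA (p.qs (c.R j - MvPolynomial.eval c.pt (H j)))
      rw [map_sub, map_sub]
      have h3 := MvPolynomial.map_eval ((QS.rest A hA).comp p.qs) c.pt (H j)
      have e1 : (fun i => ((QS.rest A hA).comp p.qs) (c.pt i)) = ((c.pull p).rest A hA).pt := by
        funext i
        rcases i with i | i <;> rfl
      have e2 : ((QS.rest A hA).comp p.qs) ∘ c.pt = ((c.pull p).rest A hA).pt := e1
      rw [e2] at h3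
      rw [← h3]
      rfl
  · rw [Pool.Agent.Helper13.AM.CD.rest_xi A hA (h.ax _ _ (h.pull _ _ hc T p)).ln.bdd,
      Pool.Agent.Helper13.AM.CD.pull_xi]
    exact win_imq p A hA s (f i) (hw i)

end cls

/-! ### one unit direction: the point `(t, f, R)` -/

section one

variable {w : Fin N → ℝ} {z l : Fin N} {K : ℕ} {ρ : ℝ} {C : ∀ S : Sp, CD S 0 N r → S.L → Prop} {c : CD S 0 N r}
  {O : S.L}

/-- the point `(t, f, R)` -/
def ptf (c : CD S 0 N r) (l : Fin N) (K : ℕ) (i0 : Fin r) : Fin (1 + 1) ⊕ Fin N → QS S :=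
  Sum.elim ![c.q 0, fl c l K i0] c.R

theorem ptf_rest (i0 : Fin r) {T : Sp} (p : Pj T S) (A : ∀ k, (T.F k).Ω → Prop) (hA : 0 < ul (T.pr A))
    (i : Fin (1 + 1) ⊕ Fin N) :
    QS.rest A hA (p.qs (ptf c l K i0 i)) = ptf ((c.pull p).rest A hA) l K i0 i := by
  rcases i with i | i
  · fin_cases i
    · rfl
    · show QS.rest A hA (p.qs (fl c l K i0)) = fl ((c.pull p).rest A hA) l K i0
      rw [fl_rest, fl_pull]
  · rfl

theorem ptf_O (J : J1 c O w z l K) (i0 : Fin r) : vd (ptf c l K i0) 1 ≤ O := by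
  have hO := J.hO
  rw [vd_le]
  rintro (i | i)
  · fin_cases i
    · exact ((dg_le_vd c.q 1 0).trans le_sup_left).trans hO
    · exact fl_O J i0
  · exact ((dg_le_vd c.R 1 i).trans le_sup_right).trans hO

theorem ptf_nr (h0 : Cl1 N r w z l K ρ C) (hc : C S c O) (i0 : Fin r) : NRA (ptf c l K i0) := by
  intro D T p A hA κ hκ0 hκ1
  have hc1 := h0.rest _ _ _ (h0.pull _ _ _ hc T p) A hA
  have h2 := til_nr (h0.ax _ _ _ hc1) (h0.j1 _ _ _ hc1) i0 (al := fun _ _ => Unit) (bV := fun _ _ _ => ()) (D := D)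
    hκ0 hκ1 (h0.nr _ _ _ hc1 D κ hκ0 hκ1)
  have e : (fun i => QS.rest A hA (p.qs (ptf c l K i0 i))) =
      (til ((c.pull p).rest A hA) l K i0 (fun _ _ => Unit) (fun _ _ _ => ())).pt := by
    funext i
    rw [ptf_rest]
    rfl
  rw [e]
  exact h2

/-- **FULL HULL at the point `(t, f, R)`** -/
theorem vol_c1 (h0 : Cl1 N r w z l K ρ C) (hc : C S c O) (i0 : Fin r) {r' : ℕ} (s : MSys S M E (Fin r'))
    (e : Fin (1 + 1) ⊕ Fin N ≃ Fin M) (he : ∀ i, ptf c l K i0 i = cq s.Q (e i)) (f : Fin r → Fin r')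
    (hw : ∀ i, PLe ((s.lf (f i)).win 0) (rp (c.xi i))) (D : ℕ) : (M : ℝ) ≤ s.vol D 0 := by
  have A := h0.ax _ _ _ hc
  have J := h0.j1 _ _ _ hc
  refine vol_gen (ptf c l K i0) c.xi s e he f hw (fun X hX hi => ?_) (ptf_nr h0 hc i0) D
  rw [← A.bx.K_zero]
  exact J.lab 0 le_rfl (by rw [mul_zero]; exact one_pos) X (hX.trans (ptf_O J i0)) fun i => (hi i).trans le_sup_left

/-- **FULL HULL at the point `(t, f, R)` on events of extensions** -/
theorem vol_c1_im (h0 : Cl1 N r w z l K ρ C) (hc : C S c O) (i0 : Fin r) {r' : ℕ} (s : MSys S M E (Fin r'))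
    (e : Fin (1 + 1) ⊕ Fin N ≃ Fin M) (he : ∀ i, ptf c l K i0 i = cq s.Q (e i)) (f : Fin r → Fin r')
    (hw : ∀ i, PLe ((s.lf (f i)).win 0) (rp (c.xi i))) {T : Sp} (p : Pj T S)
    (A : ∀ k, (T.F k).Ω → Prop) (hA : 0 < ul (T.pr A)) (D : ℕ) : (M : ℝ) ≤ (s.im p A hA).vol D 0 := by
  rw [← (s.im p A hA).vol_pull (imq p A) D 0]
  refine vol_c1 h0 (h0.rest _ _ _ (h0.pull _ _ _ hc T p) A hA) i0 _ e (fun i => ?_) f (fun i => ?_) D
  · rw [cq_imq, ← he i, ptf_rest]
  · rw [Pool.Agent.Helper13.AM.CD.rest_xi A hA (h0.ax _ _ _ (h0.pull _ _ _ hc T p)).ln.bdd,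
      Pool.Agent.Helper13.AM.CD.pull_xi]
    exact win_imq p A hA s (f i) (hw i)

/-- **FULL HULL AT PROLONGED CORNERS in the coordinates `(t, f, c'.cR H)`, on events of extensions** -/
theorem vol_til_im (h0 : Cls0 N r w z l K ρ C) {c' : CD S 1 N r} (hc : TilC w z l K C S c')
    {H : Fin N → MvPolynomial (Fin (1 + 1) ⊕ Fin N) (QS S)} (hH : Tri w H) {r' : ℕ} (s : MSys S M E (Fin r'))
    (e : Fin (1 + 1) ⊕ Fin N ≃ Fin M) (he : ∀ i, Sum.elim c'.q (c'.cR H) i = cq s.Q (e i)) (f : Fin r → Fin r')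
    (hw : ∀ i, PLe ((s.lf (f i)).win 0) (rp (c'.xi i))) {T : Sp} (p : Pj T S) (A : ∀ k, (T.F k).Ω → Prop)
    (hA : 0 < ul (T.pr A)) (D : ℕ) : (M : ℝ) ≤ (s.im p A hA).vol D 0 :=
  vol_cls_im (cls_til h0) (nr_til h0) hc hH s e he f hw p A hA D

end one

end

end Pool.Agent.Helper5.DO
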