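import Pool.Agent.Helper13.AM.Der
import Pool.Agent.Helper5.DO.Pro
import Pool.Agent.Helper10.JET.Near

/-! ALL DIMENSIONS, one unit direction (`d = 0`): the PROLONGED CORNER `til`: base point `(t, f)`, `f` = the Taylor
coefficient of order `K - 1` of the lowest vertical coordinate `l` (weight `K`), the same point, curves, boxes and
frames. Part 1: definitions and small lemmas. -/

set_option autoImplicit false

namespace Pool.Agent.Helper5.DO

open Finset Filter Topology Pool.Agent.Helper69.RK Pool.Agent.Helper31.EC Pool.Agent.Helper31.EC.Sp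
open Pool.Agent.Helper31.EC.QS
open Pool.Agent.Helper82.TP (Lit)
open Pool.Agent.Helper57.TA (sc wgt)
open Pool.Agent.Helper10.JET (tc)
open Pool.Agent.Helper13.AM (CD)

noncomputable section

variable {S : Sp}

/-! ### literal variables for the digits of functions -/

/-- floor of a coordinate to the resolution -/
def flr {q : ℕ} (y : S.VV q) (i : Fin q) : TR S := ⟨fun k ω => (⌊y.v k ω i / S.dl 1 k⌋ : ℝ) * S.dl 1 k, by
  obtain ⟨K, hK, h⟩ := y.bd
  refine ⟨fun k => K k + 1, hK.add (S.Sub_const zero_le_one), ?_⟩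
  filter_upwards [h] with k a ω hω
  have h1 := a ω hω i
  have hd := S.dl_pos 1 k
  have hd1 : S.dl 1 k ≤ 1 := by
    unfold Sp.dl
    apply Real.rpow_le_one_of_one_le_of_nonpos (by norm_num)
    have := (S.F k).pos
    linarith
  have h3 := Int.floor_le (y.v k ω i / S.dl 1 k)
  have h4 := Int.lt_floor_add_one (y.v k ω i / S.dl 1 k)
  rw [le_div_iff₀ hd] at h3
  rw [div_lt_iff₀ hd] at h4
  rw [abs_le] at h1 ⊢
  constructor <;> linarith [h1.1, h1.2]⟩

theorem flr_mk {q : ℕ} (y : S.VV q) (i : Fin q) : QS.mk (flr y i) = QS.mk (TR.cor y i) := by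
  rw [QS.mk_eq]
  refine ⟨fun _ _ => True, fun _ => 1, Typ_true, S.Sub_const zero_le_one, Eventually.of_forall fun k ω _ _ => ?_⟩
  have hd := S.dl_pos 1 k
  have h3 := Int.floor_le (y.v k ω i / S.dl 1 k)
  have h4 := Int.lt_floor_add_one (y.v k ω i / S.dl 1 k)
  rw [le_div_iff₀ hd] at h3
  rw [div_lt_iff₀ hd] at h4
  show |(⌊y.v k ω i / S.dl 1 k⌋ : ℝ) * S.dl 1 k - y.v k ω i| ≤ 1 * S.dl 1 k
  rw [abs_le]
  constructor <;> linarith

/-- literal variable for the digits of finitely many functions -/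
theorem exists_lit {n : ℕ} (x : Fin n → QS S) : ∃ V : ∀ k, (S.F k).Ω → (Fin n → ℤ), Bdd (α := fun _ => Fin n → ℤ) V ∧
    io (α := fun _ => Fin n → ℤ) V = vd x 1 ∧ ∀ i, Lit (β := fun _ => Fin n → ℤ) V (x i) := by
  have hx : ∀ i, QS.mk (rep (x i)) = x i := fun i => mk_rep (x i)
  refine ⟨(TR.vec fun i => rep (x i)).cellv 1, VV.bdd _ 1, ?_, fun i => ?_⟩
  · have h1 : io (α := fun _ => Fin n → ℤ) ((TR.vec fun i => rep (x i)).cellv 1) =
        (TR.vec fun i => rep (x i)).dg 1 := rfl
    rw [h1, TR.vec_dg_eq]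
    show _ = Finset.univ.sup fun i => QS.dg (x i) 1
    refine Finset.sup_congr rfl fun i _ => ?_
    rw [← hx i, QS.dg_mk _ le_rfl, hx i]
  · refine ⟨flr (TR.vec fun i => rep (x i)) i, ?_, Eventually.of_forall fun k ω ω' _ _ _ h => ?_⟩
    · rw [flr_mk, TR.cor_vec, hx]
    · have h2 := congrFun h i
      have h3 : ⌊(TR.vec fun i => rep (x i)).v k ω i / S.dl 1 k⌋ =
        ⌊(TR.vec fun i => rep (x i)).v k ω' i / S.dl 1 k⌋ := h2
      show (⌊(TR.vec fun i => rep (x i)).v k ω i / S.dl 1 k⌋ : ℝ) * S.dl 1 k =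
        (⌊(TR.vec fun i => rep (x i)).v k ω' i / S.dl 1 k⌋ : ℝ) * S.dl 1 k
      rw [h3]

/-! ### polynomials of curves -/

/-- the polynomial with given coefficients -/
def py {k : ℕ} (c : Fin (k + 1) → QS S) : Polynomial (QS S) := ∑ a : Fin (k + 1), Polynomial.monomial (a : ℕ) (c a)

theorem py_eval {k : ℕ} (c : Fin (k + 1) → QS S) (x : QS S) : (py c).eval x = pe c x := by
  unfold py pe
  rw [Polynomial.eval_finsetSum]
  simp only [Polynomial.eval_monomial]

theorem py_coeff {k : ℕ} (c : Fin (k + 1) → QS S) (m : ℕ) :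
    (py c).coeff m = if h : m < k + 1 then c ⟨m, h⟩ else 0 := by
  unfold py
  rw [Polynomial.finsetSum_coeff]
  simp only [Polynomial.coeff_monomial]
  by_cases h : m < k + 1
  · rw [dif_pos h, Finset.sum_eq_single (⟨m, h⟩ : Fin (k + 1))]
    · simp
    · intro b _ hb
      rw [if_neg]
      intro e
      exact hb (Fin.ext e)
    · intro h2
      exact absurd (mem_univ _) h2
  · rw [dif_neg h]
    refine Finset.sum_eq_zero fun a _ => ?_
    rw [if_neg]
    have := a.2
    omega

theorem py_coeff_dg {k : ℕ} {c : Fin (k + 1) → QS S} {A : S.L} (h : vd c 1 ≤ A) (m : ℕ) :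
    dg ((py c).coeff m) 1 ≤ A := by
  rw [py_coeff]
  split_ifs with h1
  · exact (dg_le_vd c 1 ⟨m, h1⟩).trans h
  · exact (Kn S 1 le_rfl A).zero_mem

theorem py_PU {k : ℕ} {c : Fin (k + 1) → QS S} {A : S.L} (h : vd c 1 ≤ A) : py c ∈ PU A := py_coeff_dg h

theorem py_deg {k : ℕ} (c : Fin (k + 1) → QS S) : (py c).natDegree ≤ k := by
  rw [Polynomial.natDegree_le_iff_coeff_eq_zero]
  intro m hm
  rw [py_coeff, dif_neg (by omega)]

theorem py_map {T : Sp} (g : QS S →+* QS T) {k : ℕ} (c : Fin (k + 1) → QS S) :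
    (py c).map g = py fun a => g (c a) := by
  unfold py
  rw [Polynomial.map_sum]
  simp only [Polynomial.map_monomial]

/-- ring homomorphisms and Taylor coefficients -/
theorem tc_hom {T : Sp} (g : QS S →+* QS T) (P : Polynomial (QS S)) (t : QS S) (m : ℕ) :
    g (tc P t m) = tc (P.map g) (g t) m := by
  have h1 : ∀ (T : Sp) (q : Polynomial (QS T)) (x : QS T), tc q x m = (Polynomial.taylor x q).coeff m := by
    intro T q x
    rw [Polynomial.taylor_coeff]
    rfl
  rw [h1, h1, ← Polynomial.map_taylor, Polynomial.coeff_map]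

/-- Taylor coefficients of a polynomial of degree at most `K` -/
theorem tc_top {P : Polynomial (QS S)} {K : ℕ} (hK : 1 ≤ K) (h : ∀ m, K < m → P.coeff m = 0) (t : QS S) :
    tc P t (K - 1) = P.coeff (K - 1) + t * (K * P.coeff K) := by
  have hd : P.natDegree ≤ K := by
    rw [Polynomial.natDegree_le_iff_coeff_eq_zero]
    exact h
  unfold Pool.Agent.Helper10.JET.tc
  rw [Polynomial.hasseDeriv_apply, Polynomial.sum_over_range' _ _ (K + 1) (by omega), Polynomial.eval_finsetSum]
  · rw [← Finset.add_sum_erase _ _ (show K ∈ range (K + 1) by simp), Finset.sum_eq_single (K - 1)]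
    · simp only [Polynomial.eval_monomial]
      have e1 : K - (K - 1) = 1 := by omega
      have e2 : K.choose (K - 1) = K := by
        rw [Nat.choose_symm (show 1 ≤ K from hK), Nat.choose_one_right]
      rw [Nat.choose_self, Nat.sub_self, e1, e2]
      push_cast
      ring
    · intro b hb hb'
      rw [Finset.mem_erase, Finset.mem_range] at hb
      have hb2 : b < K - 1 := by omega
      rw [Nat.choose_eq_zero_of_lt hb2]
      simp
    · intro h2
      exfalso
      apply h2
      rw [Finset.mem_erase, Finset.mem_range]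
      omega
  · intro n
    simp

end

end Pool.Agent.Helper5.DO
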