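import Pool.Agent.Helper5.DO.TilD

/-! ALL DIMENSIONS, one unit direction, part 5: AXIOMS OF THE PROLONGED CORNER (`til_ax`). -/

set_option autoImplicit false

namespace Pool.Agent.Helper5.DO

open Finset Filter Topology Pool.Agent.Helper69.RK Pool.Agent.Helper31.EC Pool.Agent.Helper31.EC.Sp
open Pool.Agent.Helper31.EC.QS
open Pool.Agent.Helper82.TP (Lit)
open Pool.Agent.Helper57.TA (sc wgt)
open Pool.Agent.Helper10.JET (tc)
open Pool.Agent.Helper13.AM (CD)
open Pool.Agent.Helper40.EL (Lab Nul rp)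

noncomputable section

variable {S : Sp} {N r : ℕ}

theorem Lit_zero {β : ℕ → Type} (V : ∀ k, (S.F k).Ω → β k) : Lit V (0 : QS S) :=
  ⟨0, map_zero _, Eventually.of_forall fun _ _ _ _ _ _ _ => rfl⟩

theorem Lit_one {β : ℕ → Type} (V : ∀ k, (S.F k).Ω → β k) : Lit V (1 : QS S) :=
  ⟨1, map_one _, Eventually.of_forall fun _ _ _ _ _ _ _ => rfl⟩

/-- weights of renamed monomials -/
theorem wgt_map (w : Fin N → ℝ) (n : Fin (0 + 1) ⊕ Fin N →₀ ℕ) :
    wgt (Sum.elim (fun _ => 1) w : Fin (1 + 1) ⊕ Fin N → ℝ) (Finsupp.mapDomain φv n) =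
      wgt (Sum.elim (fun _ => 1) w : Fin (0 + 1) ⊕ Fin N → ℝ) n := by
  have h1 : ∀ {σ : Type} [Fintype σ] (wt : σ → ℝ) (m : σ →₀ ℕ), wgt wt m = m.sum fun a x => (x : ℝ) * wt a := by
    intro σ _ wt m
    unfold Pool.Agent.Helper57.TA.wgt
    rw [Finsupp.sum_fintype]
    intro a
    rw [Nat.cast_zero, zero_mul]
  rw [h1, h1, Finsupp.sum_mapDomain_index]
  · refine Finsupp.sum_congr fun a _ => ?_
    rcases a with a | a <;> rfl
  · intro a
    rw [Nat.cast_zero, zero_mul]
  · intro a x y
    rw [Nat.cast_add, add_mul]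

section

variable {c : CD S 0 N r} {O : S.L} {w : Fin N → ℝ} {z l : Fin N} {K : ℕ} {ρ : ℝ} (A : c.Ax w z ρ)
  (J : J1 c O w z l K) {i0 : Fin r} {al : Fin r → ℕ → Type} {bV : ∀ i k, (S.F k).Ω → al i k}
  (hL : LV c l K al bV) (X : ∀ i, Exc c w z (fl c l K i))

include A J

theorem til_f {s : ℝ} (hs0 : 0 ≤ s) (hs : w z * s ≤ 1) : fl c l K i0 - f0 c l K s ∈ Id S s := fl_frame A J hs0 hs

omit J in
theorem til_f0 {s : ℝ} (_ : 0 ≤ s) (_ : w z * s ≤ 1) : dg (f0 c l K s) 1 ≤ c.K s := f0_K A s _ l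

include hL

include X in
theorem til_ln : (til c l K i0 al bV).Ln where
  real := by
    have h1 := H_tf A (fun s => til_f (i0 := i0) A J) (fun s => til_f0 A) (X i0)
    apply Rl.of_ge
    rw [h_bot]
    show _ ≤ H (vd (![c.q 0, fl c l K i0] : Fin (1 + 1) → QS S) 1)
    rw [vd_fin2, h1, Fintype.card_fin]
    norm_num
  bdd := hL.bdd
  lit := by
    intro i j
    rcases j with ⟨j, hj⟩
    interval_cases j
    · exact ⟨Lit_zero _, Lit_one _⟩
    · exact hL.lit i
  gen := by
    intro i
    show io (bV i) = vd (![0, fa c l K i] : Fin (1 + 1) → QS S) 1 ⊔ vd (![1, fu c l K i] : Fin (1 + 1) → QS S) 1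
    rw [hL.gen i, vd_fin2, vd_fin2]
    have h0 : dg (0 : QS S) 1 = ⊥ := eq_bot_iff.mpr (Kn S 1 le_rfl ⊥).zero_mem
    have h1 : dg (1 : QS S) 1 = ⊥ := eq_bot_iff.mpr (Kn S 1 le_rfl ⊥).one_mem
    rw [h0, h1, bot_sup_eq, bot_sup_eq]
  a0 := fun i => rfl
  u0 := fun i => rfl
  line := by
    intro i j
    rcases j with ⟨j, hj⟩
    interval_cases j
    · show c.q 0 = 0 + c.q 0 * 1
      ring
    · exact fl_line J i0 i
  curve := A.ln.curve
  time := by
    intro i
    rw [til_xi hL i, ← xi_eq A]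
    exact A.ln.time i
  r1 := by
    refine I_zero_mono J.r1 ?_ ((til_O J).trans le_sup_left)
    refine Finset.sup_le fun i _ => ?_
    have h1 : vd ((til c l K i0 al bV).u i) 1 = dg (1 : QS S) 1 ⊔ dg (fu c l K i) 1 := vd_fin2 _ _ 1
    rw [h1]
    refine le_trans (sup_le ?_ ?_) le_sup_left
    · exact (Kn S 1 le_rfl _).one_mem
    · exact Finset.le_sup (f := fun i => dg (fu c l K i) 1) (mem_univ i)

theorem til_bx : (til c l K i0 al bV).Bx w z where
  bdd := A.bx.bdd
  zero := A.bx.zero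
  lit := A.bx.lit
  gen := A.bx.gen
  mono := A.bx.mono
  pt := by
    intro s hs0 hs
    refine (A.bx.pt s hs0 hs).trans (sup_le_sup_right ?_ _)
    rw [vd_fin1]
    exact dg_le_vd (![c.q 0, fl c l K i0] : Fin (1 + 1) → QS S) _ 0
  xi := by
    intro s hs0 hs i
    rw [til_xi hL i, ← xi_eq A]
    exact A.bx.xi s hs0 hs i
  fq := by
    intro s hs0 hs j
    rcases j with ⟨j, hj⟩
    interval_cases j
    · exact A.bx.fq s hs0 hs 0
    · exact til_f A J hs0 hs
  fγ := A.bx.fγ
  fR := by
    intro s hs0 hs j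
    refine (A.bx.fR s hs0 hs j).trans ?_
    show _ = MvPolynomial.eval _ (MvPolynomial.rename φv (c.F s j)) + c.γ s j
    rw [MvPolynomial.eval_rename]
    congr 2
    congr 1
    funext a
    rcases a with a | a
    · have e : a = 0 := Fin.ext (by omega)
      rw [e]
      rfl
    · rfl
  deg := by
    intro s j n hn
    obtain ⟨n', h1, h2⟩ := MvPolynomial.coeff_rename_ne_zero _ _ _ hn
    rw [← h1, wgt_map]
    exact A.bx.deg s j n' h2
  litq := by
    intro s j
    rcases j with ⟨j, hj⟩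
    interval_cases j
    · exact A.bx.litq s 0
    · exact A.bx.litF s l _
  litF := by
    intro s j n
    show Lit _ ((MvPolynomial.rename φv (c.F s j)).coeff n)
    by_cases hn : ∃ n', Finsupp.mapDomain φv n' = n
    · obtain ⟨n', rfl⟩ := hn
      rw [MvPolynomial.coeff_rename_mapDomain _ φv_inj]
      exact A.bx.litF s j n'
    · rw [MvPolynomial.coeff_rename_eq_zero _ _ _ fun n' h => absurd ⟨n', h⟩ hn]
      exact Lit_zero _
  gq := by
    intro s j
    rcases j with ⟨j, hj⟩
    interval_cases j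
    · exact A.bx.gq s 0
    · exact A.bx.gF s l _
  gF := by
    intro s j n hn
    obtain ⟨n', h1, h2⟩ := MvPolynomial.coeff_rename_ne_zero _ _ _ hn
    obtain ⟨a, ha⟩ := A.bx.gF s j n' h2
    refine ⟨a, ?_⟩
    show (MvPolynomial.rename φv (c.F s j)).coeff n = c.G s a
    rw [← h1, MvPolynomial.coeff_rename_mapDomain _ φv_inj]
    exact ha
  q00 := by
    intro j
    rcases j with ⟨j, hj⟩
    interval_cases j
    · exact A.bx.q00 0
    · show (c.F 0 l).coeff _ = 0
      rw [A.bx.F0 l, MvPolynomial.coeff_zero]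
  F0 := by
    intro j
    show MvPolynomial.rename φv (c.F 0 j) = 0
    rw [A.bx.F0 j, map_zero]

omit hL in
include X in
theorem til_num : (til c l K i0 al bV).Num w z (ρ + 1 / w z) where
  hbe := by
    intro s hs0 hs
    have h1 := A.num.hbe s hs0 hs
    have hw : w z ≠ 0 := by
      have := A.w1 z
      linarith
    show H (c.K s) = _
    rw [h1]
    have e : (1 - (ρ + 1 / w z)) * w z = (1 - ρ) * w z - 1 := by
      field_simp
      ring
    rw [e]
    push_cast
    ring
  pr0 := by
    intro s hs0 hs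
    rw [til_P, I_eq', h_bot, H_tf A (fun s => til_f (i0 := i0) A J) (fun s => til_f0 A) (X i0), sup_bot_eq]
    have h1 := tf_eq A (fun s => til_f (i0 := i0) A J) (fun s => til_f0 A) (X i0) hs0 hs
    show 2 - h _ (c.K s) = _
    rw [h1]
    push_cast
    ring
  pr1 := by
    intro k hk0 hk
    have h1 := M_tf A (fun s => til_f (i0 := i0) A J) (fun s => til_f0 A) (X i0) le_rfl (k := k)
      (by rw [mul_zero]; exact hk0) hk
    have h0 : w z * 0 ≤ 1 := by rw [mul_zero]; exact zero_le_one
    have h3 : c.K 0 = ⊥ := by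
      rw [eq_bot_iff]
      have h3 := A.num.hbe 0 le_rfl h0
      rw [mul_zero] at h3
      exact h_le_zero_iff.mp (by rw [h_bot, h3])
    rw [h3, bot_sup_eq, mul_zero, sub_zero] at h1
    rw [til_P]
    exact h1
  pr2 := by
    intro s k hs0 hsk hk
    rw [til_P]
    exact M_tf A (fun s => til_f (i0 := i0) A J) (fun s => til_f0 A) (X i0) hs0 hsk hk
  vis := by
    intro s hs0 hs
    rw [til_P]
    refine (vis' A hs0 hs).trans ?_
    exact sup_le_sup_left (sup_le_sup_left le_sup_left _) _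

theorem til_lb : (til c l K i0 al bV).Lb w z where
  lab := by
    intro s hs0 hs X hX hi
    refine J.lab s hs0 hs X (hX.trans (til_O J)) fun i => ?_
    have h1 := hi i
    rw [til_xi hL i, ← xi_eq A] at h1
    exact h1
  nlk := by
    intro s hs0 hs W p E hE V h1 h2
    refine J.nlk s hs0 hs W p E hE V (fun y => ?_) fun i y => ?_
    · have h3 := h1 (y ⊔ O)
      have hO := restL_mono E hE (p.map_mono (til_O (i0 := i0) (al := al) (bV := bV) J))
      rw [p.map_sup, restL_sup] at h3
      have h4 := (I_decomp (D := restL E hE (p.map y)) (B := restL E hE (p.map O)) (by rw [sup_comm]; exact h3)).2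
      rwa [sup_eq_left.mpr hO] at h4
    · have h3 := h2 i y
      rw [til_xi hL i, ← xi_eq A] at h3
      exact h3

  nlw := by
    intro s hs0 hs la hb h1 h2
    refine J.nlw s hs0 hs la hb ?_ fun i => ?_
    · have h3 := Pool.Agent.Helper40.EL.rp_mono (til_O (i0 := i0) (al := al) (bV := bV) J)
      have h4 : Nul S (fun k => Pool.Agent.Helper31.EC.h (rp (til c l K i0 al bV).O k) (rp O k)) := h3
      exact (h1.add h4).of_le (Eventually.of_forall fun k => (la k).leak_nonneg _)
        (Eventually.of_forall fun k => (la k).leak_le_leak _ _)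
    · have h3 := h2 i
      rw [til_xi hL i, ← xi_eq A] at h3
      exact h3

include X in
/-- **AXIOMS OF THE PROLONGED CORNER** -/
theorem til_ax : (til c l K i0 al bV).Ax w z (ρ + 1 / w z) where
  w1 := A.w1
  wz := A.wz
  rho0 := by
    have h1 := A.rho0
    have h2 := A.w1 z
    have h3 : 0 < w z := by linarith
    positivity
  rho1 := by
    have h1 := rho_tf A (fun s => til_f (i0 := i0) A J) (fun s => til_f0 A) (X i0)
    have h2 := A.w1 z
    have h3 : 0 < w z := by linarith
    have h4 : (ρ + 1 / w z) * w z ≤ 1 * w z := by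
      have h5 : 1 / w z * w z = 1 := by field_simp
      rw [add_mul, h5]
      linarith
    exact le_of_mul_le_mul_right h4 h3
  ln := til_ln A J hL X
  bx := til_bx A J hL
  num := til_num A J X
  lb := til_lb A J hL

end

end

end Pool.Agent.Helper5.DO
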