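import Pool.Agent.Helper5.DO.TilE

/-! ALL DIMENSIONS, one unit direction, part 4: the prolonged corner `til` and its axioms. -/

set_option autoImplicit false

namespace Pool.Agent.Helper5.DO

open Finset Filter Topology Pool.Agent.Helper69.RK Pool.Agent.Helper31.EC Pool.Agent.Helper31.EC.Sp
open Pool.Agent.Helper31.EC.QS
open Pool.Agent.Helper82.TP (Lit)
open Pool.Agent.Helper57.TA (sc wgt)
open Pool.Agent.Helper10.JET (tc)
open Pool.Agent.Helper13.AM (CD)
open Pool.Agent.Helper40.EL (Lab Nul rp)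

noncomputable section

variable {S : Sp} {N r : ℕ}

/-- the variables of the base point in the prolonged corner -/
def φv : Fin (0 + 1) ⊕ Fin N → Fin (1 + 1) ⊕ Fin N := Sum.map (fun _ => 0) id

theorem φv_inj : Function.Injective (φv (N := N)) := by
  intro a b h
  rcases a with a | a <;> rcases b with b | b
  · exact congrArg Sum.inl (Fin.ext (by omega))
  · exact absurd h (by simp [φv])
  · exact absurd h (by simp [φv])
  · simpa [φv] using h

/-- new base coordinate: the Taylor coefficient of order `K - 1` of the coordinate `l` -/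
def fl (c : CD S 0 N r) (l : Fin N) (K : ℕ) (i : Fin r) : QS S := tc (py (c.cf i l)) (c.q 0) (K - 1)

/-- its centre in the box of scale `s` -/
def f0 (c : CD S 0 N r) (l : Fin N) (K : ℕ) (s : ℝ) : QS S := (c.F s l).coeff (Finsupp.single (Sum.inl 0) (K - 1))

/-- foot and direction of the new base line -/
def fa (c : CD S 0 N r) (l : Fin N) (K : ℕ) (i : Fin r) : QS S := (py (c.cf i l)).coeff (K - 1)
def fu (c : CD S 0 N r) (l : Fin N) (K : ℕ) (i : Fin r) : QS S := (K : QS S) * (py (c.cf i l)).coeff K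

/-- **THE PROLONGED CORNER** -/
def til (c : CD S 0 N r) (l : Fin N) (K : ℕ) (i0 : Fin r) (al : Fin r → ℕ → Type)
    (bV : ∀ i k, (S.F k).Ω → al i k) : CD S 1 N r where
  q := ![c.q 0, fl c l K i0]
  R := c.R
  al := al
  bV := bV
  a := fun i => ![0, fa c l K i]
  u := fun i => ![1, fu c l K i]
  g := c.g
  cf := c.cf
  kb := c.kb
  VK := c.VK
  m := c.m
  G := c.G
  q0 := fun s => ![c.q0 s 0, f0 c l K s]
  F := fun s j => MvPolynomial.rename φv (c.F s j)
  γ := c.γ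

/-- literal variables of the new base lines -/
structure LV (c : CD S 0 N r) (l : Fin N) (K : ℕ) (al : Fin r → ℕ → Type) (bV : ∀ i k, (S.F k).Ω → al i k) : Prop where
  bdd : ∀ i, Bdd (bV i)
  lit : ∀ i, Lit (bV i) (fa c l K i) ∧ Lit (bV i) (fu c l K i)
  gen : ∀ i, io (bV i) = dg (fa c l K i) 1 ⊔ dg (fu c l K i) 1

theorem exists_LV (c : CD S 0 N r) (l : Fin N) (K : ℕ) : ∃ bV : ∀ (_ : Fin r) k, (S.F k).Ω → (Fin 2 → ℤ),
    LV c l K (fun _ _ => Fin 2 → ℤ) bV := by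
  choose V h1 h2 h3 using fun i => exists_lit (S := S) ![fa c l K i, fu c l K i]
  refine ⟨V, h1, fun i => ⟨h3 i 0, h3 i 1⟩, fun i => ?_⟩
  rw [h2 i]
  exact vd_fin2 _ _ 1

/-- HYPOTHESES on a corner with one unit direction; `O` = the digits of the point (also beyond the resolution);
`l` = lowest vertical coordinate, `K` = its weight -/
structure J1 (c : CD S 0 N r) (O : S.L) (w : Fin N → ℝ) (z l : Fin N) (K : ℕ) : Prop where
  hK : 2 ≤ K
  wl : w l = K
  low : ∀ j, w l ≤ w j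
  hO : c.O ≤ O
  /-- weighted degree of the lowest coordinate along the curves -/
  cut : ∀ i m, K < m → (py (c.cf i l)).coeff m = 0
  /-- the jet of order `K - 1` of the lowest coordinate is common to the types and known to the point -/
  jet : ∃ f : QS S, dg f 1 ≤ O ∧ ∀ i, tc (py (c.cf i l)) (c.q 0) (K - 1) = f
  /-- the velocities are common to the types and known to the point -/
  vel : ∀ j, ∃ f : QS S, dg f 1 ≤ O ∧ ∀ i, tc (py (c.cf i j)) (c.q 0) 1 = f
  /-- (R1) for the top derivatives of the lowest coordinate -/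
  r1 : I (univ.sup fun i => dg (fu c l K i) 1) O ⊥ = 0
  /-- the top derivatives span -/
  spn : ∀ (κ : ℝ), 0 < κ → κ ≤ 1 → ∀ F : Fin 2 → QS S, vd F 1 ≤ O → (∀ i, F 0 + F 1 * fu c l K i ∈ Id S κ) →
    ∀ j, F j ∈ Id S κ
  /-- labels, all windows, for the deep point -/
  lab : ∀ s, 0 ≤ s → w z * s < 1 → ∀ X : S.L, X ≤ O → (∀ i, X ≤ c.xi i ⊔ dg (c.q 0) s) → X ≤ c.K s
  nlk : ∀ s, 0 ≤ s → w z * s < 1 → ∀ (W : Sp) (p : Pj W S) (E : ∀ k, (W.F k).Ω → Prop) (hE : 0 < ul (W.pr E))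
    (V : (W.rest E).L), (∀ y : S.L, I V (restL E hE (p.map y)) (restL E hE (p.map O)) = 0) →
    (∀ (i : Fin r) (y : S.L), I V (restL E hE (p.map y)) (restL E hE (p.map (c.xi i ⊔ dg (c.q 0) s))) = 0) →
    ∀ y : S.L, I V (restL E hE (p.map y)) (restL E hE (p.map (c.K s))) = 0
  nlw : ∀ s, 0 ≤ s → w z * s < 1 → ∀ la : Lab S, UB (fun k => H ((la k).v) / (S.F k).n) →
    Nul S (fun k => (la k).leak (rp O k)) → (∀ i, Nul S (fun k => (la k).leak (rp (c.xi i ⊔ dg (c.q 0) s) k))) →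
      Nul S (fun k => (la k).leak (rp (c.K s) k))

section

variable {c : CD S 0 N r} {O : S.L} {w : Fin N → ℝ} {z l : Fin N} {K : ℕ} {ρ : ℝ} (A : c.Ax w z ρ)
  (J : J1 c O w z l K)

include J

theorem fl_eq (i0 i : Fin r) : fl c l K i0 = fl c l K i := by
  obtain ⟨f, _, hf⟩ := J.jet
  unfold fl
  rw [hf, hf]

theorem fl_O (i0 : Fin r) : dg (fl c l K i0) 1 ≤ O := by
  obtain ⟨f, h2, hf⟩ := J.jet
  unfold fl
  rw [hf]
  exact h2

theorem fl_line (i0 i : Fin r) : fl c l K i0 = fa c l K i + c.q 0 * fu c l K i := by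
  rw [fl_eq J i0 i]
  unfold fl fa fu
  exact tc_top (by have := J.hK; omega) (J.cut i) _

omit J in
include A in
theorem b_bot (i : Fin r) : c.b i = ⊥ := by
  rw [A.ln.gen i, vd_fin1, vd_fin1, A.ln.a0, A.ln.u0, eq_bot_iff]
  exact sup_le (Kn S 1 le_rfl ⊥).zero_mem (Kn S 1 le_rfl ⊥).one_mem

omit J in
include A in
theorem xi_eq (i : Fin r) : c.xi i = vd (c.cv i) 1 := by
  unfold CD.xi
  rw [b_bot A i, bot_sup_eq]

omit J in
theorem cf_le_cv (i : Fin r) (j : Fin N) : vd (c.cf i j) 1 ≤ vd (c.cv i) 1 := by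
  rw [vd_le]
  intro k
  exact dg_le_vd (c.cv i) 1 (j, k)

omit J in
theorem fa_cv (i : Fin r) : dg (fa c l K i) 1 ≤ vd (c.cv i) 1 := py_coeff_dg (cf_le_cv i l) _

omit J in
theorem fu_cv (i : Fin r) : dg (fu c l K i) 1 ≤ vd (c.cv i) 1 :=
  (Kn S 1 le_rfl _).mul_mem (natCast_mem (Kn S 1 le_rfl _) K) (py_coeff_dg (cf_le_cv i l) _)

variable {i0 : Fin r} {al : Fin r → ℕ → Type} {bV : ∀ i k, (S.F k).Ω → al i k} (hL : LV c l K al bV)

omit J in
include hL in
theorem til_xi (i : Fin r) : (til c l K i0 al bV).xi i = vd (c.cv i) 1 := by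
  show io (bV i) ⊔ vd (c.cv i) 1 = _
  rw [hL.gen i]
  exact sup_eq_right.mpr (sup_le (fa_cv i) (fu_cv i))

omit J in
theorem til_P : (til c l K i0 al bV).P = dg (c.q 0) 1 ⊔ dg (fl c l K i0) 1 := vd_fin2 _ _ 1

theorem til_O : (til c l K i0 al bV).O ≤ O := by
  show vd (![c.q 0, fl c l K i0] : Fin (1 + 1) → QS S) 1 ⊔ vd c.R 1 ≤ O
  rw [vd_fin2]
  have h1 : c.O ≤ O := J.hO
  have h2 : c.O = vd c.q 1 ⊔ vd c.R 1 := rfl
  rw [h2, vd_fin1] at h1
  exact sup_le (sup_le (le_sup_left.trans h1) (fl_O J i0)) (le_sup_right.trans h1)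

include A in
/-- the polynomial of the frame of the lowest coordinate -/
theorem frame_p {s : ℝ} (hs0 : 0 ≤ s) (hs : w z * s ≤ 1) :
    c.R l = (p0 K (c.F s l)).eval (c.q 0 - c.q0 s 0) + c.γ s l := by
  have h1 := A.bx.fR s hs0 hs l
  rw [p0_eval J.wl J.low (A.bx.deg s l)] at h1
  exact h1

omit J in
include A in
theorem f0_K (s : ℝ) (n : Fin (0 + 1) ⊕ Fin N →₀ ℕ) (j : Fin N) : dg ((c.F s j).coeff n) 1 ≤ c.K s :=
  (A.bx.litF s j n).dg_le (A.bx.bdd s) le_rfl

include A in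
theorem fl_frame {s : ℝ} (hs0 : 0 ≤ s) (hs : w z * s ≤ 1) : fl c l K i0 - f0 c l K s ∈ Id S s := by
  have hK := J.hK
  have h1 : w l * s ≤ 1 := (mul_le_mul_of_nonneg_right (A.wz l) hs0).trans hs
  have e : f0 c l K s = (p0 K (c.F s l)).coeff (K - 1) := by
    rw [p0_coeff, if_pos (by omega)]
    rfl
  rw [e]
  have hxi := CD.K_le_xi A.ln A.bx hs0 hs i0
  refine frame_f (ξ := c.xi i0) (β := c.K s) (y := c.R l) (γ := c.γ s l) (t0 := c.q0 s 0) hs0 (sc_lt A hs0 hs) ?_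
    (py_PU ((cf_le_cv i0 l).trans (by rw [xi_eq A]))) (p0_PU fun n => f0_K A s n l)
    ((A.bx.litq s 0).dg_le (A.bx.bdd s) le_rfl) (by omega) (by rw [← J.wl]; exact h1) ?_ ?_ (frame_p A J hs0 hs) ?_
  · exact Pool.Agent.Helper10.JET.full_beyond (A.ln.time i0) hs0 hxi
  · intro m hm
    rw [p0_coeff, if_neg (by omega)]
  · rw [py_eval, ← A.ln.curve]
  · rw [← J.wl]
    exact A.bx.fγ s hs0 hs l

end

end

end Pool.Agent.Helper5.DO
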