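import Pool.Agent.Helper5.DO.TilN

/-! ALL DIMENSIONS, one unit direction, part 3: the numbers of the prolonged corner from (EXC). -/

set_option autoImplicit false

namespace Pool.Agent.Helper5.DO

open Finset Filter Topology Pool.Agent.Helper69.RK Pool.Agent.Helper31.EC Pool.Agent.Helper31.EC.Sp
open Pool.Agent.Helper31.EC.QS
open Pool.Agent.Helper82.TP (Lit)
open Pool.Agent.Helper57.TA (sc wgt)
open Pool.Agent.Helper10.JET (tc)
open Pool.Agent.Helper13.AM (CD)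

noncomputable section

variable {S : Sp} {N r : ℕ} {w : Fin N → ℝ} {z : Fin N} {ρ : ℝ}

theorem vd_fin1 (q : Fin (0 + 1) → QS S) (s : ℝ) : vd q s = dg (q 0) s := by
  apply le_antisymm
  · rw [vd_le]
    intro i
    have e : i = 0 := Fin.ext (by omega)
    rw [e]
  · exact dg_le_vd q s 0

theorem vd_fin2 (t f : QS S) (s : ℝ) : vd (![t, f] : Fin (1 + 1) → QS S) s = dg t s ⊔ dg f s := by
  apply le_antisymm
  · rw [vd_le]
    intro i
    rcases i with ⟨i, hi⟩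
    interval_cases i
    · exact le_sup_left
    · exact le_sup_right
  · refine sup_le ?_ ?_
    · exact dg_le_vd (![t, f] : Fin (1 + 1) → QS S) s 0
    · exact dg_le_vd (![t, f] : Fin (1 + 1) → QS S) s 1

theorem card_M (z : Fin N) : ((Fintype.card {j : Fin N // j ≠ z} : ℕ) : ℝ) = (N : ℝ) - 1 := by
  rw [Fintype.card_subtype_compl, Fintype.card_fin, Fintype.card_subtype_eq]
  have : 1 ≤ N := by
    have := z.2
    omega
  rw [Nat.cast_sub this, Nat.cast_one]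

theorem h_M_le (c : CD S 0 N r) (z : Fin N) (A : S.L) : h (vd (c.M z) 1) A ≤ (N : ℝ) - 1 := by
  rw [← card_M z]
  exact h_sd_le (c.M z) univ A

theorem sum_one_sub (w : Fin N → ℝ) (z : Fin N) (s : ℝ) :
    ∑ j ∈ univ.erase z, (1 - w j * s) = ((N : ℝ) - 1) - (∑ j ∈ univ.erase z, w j) * s := by
  rw [Finset.sum_sub_distrib, Finset.sum_const, Finset.card_erase_of_mem (mem_univ z), Finset.card_univ,
    Fintype.card_fin, Finset.sum_mul]
  have : 1 ≤ N := by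
    have := z.2
    omega
  rw [nsmul_eq_mul, mul_one, Nat.cast_sub this, Nat.cast_one]

/-- (EXC): the point without its highest coordinate, with the new base coordinate `f`, is full; also given a box -/
def Exc (c : CD S 0 N r) (w : Fin N → ℝ) (z : Fin N) (f : QS S) : Prop :=
  ∀ s, 0 ≤ s → w z * s ≤ 1 → 2 * (1 - s) + ∑ j ∈ univ.erase z, (1 - w j * s) ≤
    h (dg (c.q 0) 1 ⊔ dg f 1 ⊔ vd (c.M z) 1) (c.K s)

section

variable {c : CD S 0 N r} (A : c.Ax w z ρ)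

include A

theorem sc_lt {s : ℝ} (hs0 : 0 ≤ s) (hs : w z * s ≤ 1) : s < 1 := by
  have h1 := A.w1 z
  by_contra hc
  push Not at hc
  nlinarith

theorem K_le_pt {s : ℝ} (hs0 : 0 ≤ s) (hs : w z * s ≤ 1) : c.K s ≤ vd c.R 1 ⊔ dg (c.q 0) 1 := by
  refine (A.bx.pt s hs0 hs).trans (sup_le ?_ ?_)
  · rw [vd_fin1]
    exact (dg_mono _ hs).trans le_sup_right
  · exact (vd_mono _ hs).trans le_sup_left

theorem M_le_pt {k : ℝ} (hk : k ≤ 1) : vd (c.M z) k ≤ vd c.R 1 ⊔ dg (c.q 0) 1 := by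
  rw [vd_le]
  intro j
  exact (dg_mono _ hk).trans ((dg_le_vd c.R 1 j.1).trans le_sup_left)

omit A in
theorem P_eq : c.P = dg (c.q 0) 1 := vd_fin1 c.q 1

omit A in
theorem h_P {X Y : S.L} : h X (Y ⊔ c.P) = h X (Y ⊔ dg (c.q 0) 1) := by rw [P_eq]

theorem pr1' {k : ℝ} (hk0 : 0 ≤ k) (hk : k ≤ 1) : h (vd (c.M z) k) (dg (c.q 0) 1) = ((N : ℝ) - 1) * k := by
  rw [← P_eq]
  exact A.num.pr1 k hk0 hk

theorem pr2' {s k : ℝ} (hs0 : 0 ≤ s) (hsk : w z * s ≤ k) (hk : k ≤ 1) :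
    h (vd (c.M z) k) (c.K s ⊔ dg (c.q 0) 1) = ((N : ℝ) - 1) * k - (∑ j ∈ univ.erase z, w j) * s := by
  rw [← P_eq]
  exact A.num.pr2 s k hs0 hsk hk

theorem vis' {s : ℝ} (hs0 : 0 ≤ s) (hs : w z * s ≤ 1) :
    c.K s ≤ dg (c.R z) (w z * s) ⊔ (vd (c.M z) 1 ⊔ dg (c.q 0) 1) := by
  rw [← P_eq]
  exact A.num.vis s hs0 hs

/-- the box given the lower point -/
theorem K_lower {s : ℝ} (hs0 : 0 ≤ s) (hs : w z * s ≤ 1) :
    h (c.K s) (vd (c.M z) 1 ⊔ dg (c.q 0) 1) = (1 - ρ) * w z * s := by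
  have e1 := A.num.hbe s hs0 hs
  have e2 := A.num.pr0 s hs0 hs
  have e3 := pr2' A hs0 hs le_rfl
  have e4 := pr1' A (zero_le_one) (le_rfl (a := (1 : ℝ)))
  have e5 : h (c.K s) (dg (c.q 0) 1) = H (c.K s) - (((0 : ℕ) : ℝ) + 1) * s := by
    rw [← P_eq]
    have h2 := I_eq (c.K s) c.P ⊥
    rw [e2, h_bot, sup_bot_eq] at h2
    linarith
  have e6 := I_eq (c.K s) (vd (c.M z) 1) (dg (c.q 0) 1)
  have e7 := I_eq' (c.K s) (vd (c.M z) 1) (dg (c.q 0) 1)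
  rw [e3, e4] at e7
  rw [e5, e1] at e6
  push_cast at e6
  linarith

end

section

variable {c : CD S 0 N r} (A : c.Ax w z ρ) {f : QS S} {f0 : ℝ → QS S}
  (hf : ∀ s, 0 ≤ s → w z * s ≤ 1 → f - f0 s ∈ Id S s) (hf0 : ∀ s, 0 ≤ s → w z * s ≤ 1 → dg (f0 s) 1 ≤ c.K s)
  (E : Exc c w z f)

include A hf hf0

theorem f_le {s : ℝ} (hs0 : 0 ≤ s) (hs : w z * s ≤ 1) : dg f s ≤ c.K s := by
  have h1 := (sc_lt A hs0 hs).le
  rw [dg_eq_of_sub_mem (hf s hs0 hs) le_rfl h1]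
  exact (dg_mono _ h1).trans (hf0 s hs0 hs)

omit hf hf0 in
theorem t_le {s : ℝ} (hs0 : 0 ≤ s) (hs : w z * s ≤ 1) : dg (c.q 0) s ≤ c.K s := by
  have h1 := (sc_lt A hs0 hs).le
  rw [dg_eq_of_sub_mem (A.bx.fq s hs0 hs 0) le_rfl h1]
  exact (dg_mono _ h1).trans ((A.bx.litq s 0).dg_le (A.bx.bdd s) le_rfl)

theorem tf_le {s : ℝ} (hs0 : 0 ≤ s) (hs : w z * s ≤ 1) : h (dg (c.q 0) 1 ⊔ dg f 1) (c.K s) ≤ 2 * (1 - s) := by
  have h1 : h (dg (c.q 0) 1) (c.K s) ≤ 1 - s :=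
    (h_anti (t_le A hs0 hs)).trans (h_dg_dg _ (sc_lt A hs0 hs).le)
  have h2 : h (dg f 1) (c.K s) ≤ 1 - s :=
    (h_anti (f_le A hf hf0 hs0 hs)).trans (h_dg_dg _ (sc_lt A hs0 hs).le)
  have h3 := h_sup_le (dg (c.q 0) 1) (dg f 1) (c.K s)
  linarith

include E

/-- the new base point given the box -/
theorem tf_eq {s : ℝ} (hs0 : 0 ≤ s) (hs : w z * s ≤ 1) : h (dg (c.q 0) 1 ⊔ dg f 1) (c.K s) = 2 * (1 - s) := by
  apply le_antisymm (tf_le A hf hf0 hs0 hs)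
  have h1 := E s hs0 hs
  rw [h_chain, sum_one_sub] at h1
  have h2 : h (vd (c.M z) 1) (dg (c.q 0) 1 ⊔ dg f 1 ⊔ c.K s) ≤ h (vd (c.M z) 1) (c.K s ⊔ dg (c.q 0) 1) :=
    h_anti (sup_le le_sup_right (le_sup_left.trans le_sup_left))
  rw [pr2' A hs0 hs le_rfl] at h2
  linarith

theorem M_tf {s k : ℝ} (hs0 : 0 ≤ s) (hsk : w z * s ≤ k) (hk : k ≤ 1) :
    h (vd (c.M z) k) (c.K s ⊔ (dg (c.q 0) 1 ⊔ dg f 1)) = ((N : ℝ) - 1) * k - (∑ j ∈ univ.erase z, w j) * s := by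
  have hs := hsk.trans hk
  apply le_antisymm
  · rw [← pr2' A hs0 hsk hk]
    exact h_anti (sup_le le_sup_left (le_sup_left.trans le_sup_right))
  · have h1 := E s hs0 hs
    rw [h_chain, sum_one_sub, tf_eq A hf hf0 E hs0 hs] at h1
    have h2 : h (vd (c.M z) 1) (dg (c.q 0) 1 ⊔ dg f 1 ⊔ c.K s) ≤
        h (vd (c.M z) k) (dg (c.q 0) 1 ⊔ dg f 1 ⊔ c.K s) +
        h (vd (c.M z) 1) (vd (c.M z) k ⊔ (dg (c.q 0) 1 ⊔ dg f 1 ⊔ c.K s)) := by
      rw [← h_chain]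
      exact h_mono le_sup_right
    have h3 : h (vd (c.M z) 1) (vd (c.M z) k ⊔ (dg (c.q 0) 1 ⊔ dg f 1 ⊔ c.K s)) ≤ ((N : ℝ) - 1) * (1 - k) := by
      refine (h_anti le_sup_left).trans ?_
      have e1 := pr1' A zero_le_one (le_rfl (a := (1 : ℝ)))
      have hk0 : 0 ≤ k := by
        have := A.w1 z
        exact le_trans (by positivity) hsk
      have e2 := pr1' A hk0 hk
      have h4 : h (vd (c.M z) 1) (vd (c.M z) k) ≤ ∑ j : {j : Fin N // j ≠ z}, (1 - k) := by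
        have h5 : ∀ s : Finset {j : Fin N // j ≠ z}, h (s.sup fun j => dg (c.M z j) 1) (vd (c.M z) k) ≤
            ∑ j ∈ s, (1 - k) := by
          classical
          intro s
          induction s using Finset.induction_on with
          | empty =>
            rw [Finset.sup_empty, Finset.sum_empty, h_zero bot_le]
          | insert a s ha ih =>
            rw [Finset.sup_insert, Finset.sum_insert ha]
            refine (h_sup_le _ _ _).trans (add_le_add ?_ ih)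
            exact (h_anti (dg_le_vd (c.M z) k a)).trans (h_dg_dg _ hk)
        exact h5 univ
      rw [Finset.sum_const, Finset.card_univ, nsmul_eq_mul, card_M] at h4
      exact h4
    rw [sup_comm (c.K s)]
    linarith

theorem H_tf : H (dg (c.q 0) 1 ⊔ dg f 1) = 2 := by
  have h0 : w z * 0 ≤ 1 := by rw [mul_zero]; exact zero_le_one
  have h1 := tf_eq A hf hf0 E le_rfl h0
  have h2 : c.K 0 = ⊥ := by
    rw [eq_bot_iff]
    have h3 := A.num.hbe 0 le_rfl h0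
    rw [mul_zero] at h3
    exact h_le_zero_iff.mp (by rw [h_bot, h3])
  rw [h2, h_bot] at h1
  rw [h1]
  norm_num

/-- the new deficit is at most one -/
theorem rho_tf : 1 ≤ (1 - ρ) * w z := by
  have hw := A.w1 z
  have hw0 : 0 < w z := by linarith
  obtain ⟨s, hs⟩ : ∃ s, s = 1 / w z := ⟨_, rfl⟩
  have hs0 : 0 < s := by rw [hs]; positivity
  have hws : w z * s ≤ 1 := by rw [hs, mul_one_div_cancel hw0.ne']
  have h0 : w z * 0 ≤ 1 := by rw [mul_zero]; exact zero_le_one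
  have h1 := K_lower A hs0.le hws
  have h2 : h (dg f s) (vd (c.M z) 1 ⊔ dg (c.q 0) 1) ≤ h (c.K s) (vd (c.M z) 1 ⊔ dg (c.q 0) 1) :=
    h_mono (f_le A hf hf0 hs0.le hws)
  have e1 := M_tf A hf hf0 E le_rfl (k := 1) (by rw [mul_zero]; exact zero_le_one) le_rfl
  have e2 := pr1' A zero_le_one (le_rfl (a := (1 : ℝ)))
  have h3 : c.K 0 = ⊥ := by
    rw [eq_bot_iff]
    have h3 := A.num.hbe 0 le_rfl h0
    rw [mul_zero] at h3
    exact h_le_zero_iff.mp (by rw [h_bot, h3])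
  rw [h3, bot_sup_eq] at e1
  have e3 := H_tf A hf hf0 E
  rw [H_chain] at e3
  have e4 := H_dg_le (c.q 0) (zero_le_one)
  have e5 : 1 ≤ h (dg f 1) (dg (c.q 0) 1) := by linarith
  have e6 := I_eq (dg f 1) (vd (c.M z) 1) (dg (c.q 0) 1)
  have e7 := I_eq' (dg f 1) (vd (c.M z) 1) (dg (c.q 0) 1)
  rw [sup_comm (dg f 1) (dg (c.q 0) 1)] at e7
  rw [e2, e1] at e7
  have e8 := h_triangle (dg f 1) (dg f s) (vd (c.M z) 1 ⊔ dg (c.q 0) 1)
  have e9 : h (dg f 1) (dg f s ⊔ (vd (c.M z) 1 ⊔ dg (c.q 0) 1)) ≤ 1 - s :=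
    (h_anti le_sup_left).trans (h_dg_dg _ (sc_lt A hs0.le hws).le)
  have e10 : s ≤ (1 - ρ) * w z * s := by linarith
  by_contra hc
  push Not at hc
  nlinarith

end

end

end Pool.Agent.Helper5.DO
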