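import Pool.Agent.Helper5.DO.TilA

/-! ALL DIMENSIONS, one unit direction, part 6: (H) for the prolonged corner, and the statement for classes. -/

set_option autoImplicit false

namespace Pool.Agent.Helper5.DO

open Finset Filter Topology Pool.Agent.Helper69.RK Pool.Agent.Helper31.EC Pool.Agent.Helper31.EC.Sp
open Pool.Agent.Helper31.EC.QS
open Pool.Agent.Helper82.TP (Lit)
open Pool.Agent.Helper57.TA (sc wgt)
open Pool.Agent.Helper10.JET (tc)
open Pool.Agent.Helper13.AM (CD)

noncomputable section

variable {S : Sp} {N r : ℕ}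

/-- no relation for a part of the variables -/
theorem NR.sub {σ τ : Type} {D : ℕ} {x : τ → QS S} {B : S.L} {κ : ℝ} (h : NR D x B κ) (g : σ → τ)
    (hg : Function.Injective g) : NR D (fun a => x (g a)) B κ := by
  intro P hD hP h0 m
  have h1 := h (MvPolynomial.rename g P) ((MvPolynomial.totalDegree_rename_le g P).trans hD) (by
    intro n
    by_cases hn : ∃ n', Finsupp.mapDomain g n' = n
    · obtain ⟨n', rfl⟩ := hn
      rw [MvPolynomial.coeff_rename_mapDomain _ hg]
      exact hP n'
    · rw [MvPolynomial.coeff_rename_eq_zero _ _ _ fun n' h => absurd ⟨n', h⟩ hn]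
      exact (Kn S 1 le_rfl B).zero_mem) (by
    rw [MvPolynomial.eval_rename]
    exact h0) (Finsupp.mapDomain g m)
  rwa [MvPolynomial.coeff_rename_mapDomain _ hg] at h1

theorem tc_one (P : Polynomial (QS S)) (t : QS S) : tc P t 1 = (Polynomial.derivative P).eval t := by
  unfold Pool.Agent.Helper10.JET.tc
  rw [Polynomial.hasseDeriv_one]

section

variable {c : CD S 0 N r} {O : S.L} {w : Fin N → ℝ} {z l : Fin N} {K : ℕ} {ρ : ℝ} (A : c.Ax w z ρ)
  (J : J1 c O w z l K) (i0 : Fin r)

/-- the prolonged curve -/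
def curv (i : Fin r) : Cur (Sum.elim (fun _ : Fin 1 => fl c l K i0) c.pt) (c.q 0) (c.xi i) where
  p := Sum.elim (fun _ => Polynomial.C (fa c l K i) + Polynomial.X * Polynomial.C (fu c l K i))
    (Sum.elim (fun _ => Polynomial.X) fun j => py (c.cf i j))
  kn := by
    have hx : (Polynomial.X : Polynomial (QS S)) ∈ PU (c.xi i) := by
      intro m
      rw [Polynomial.coeff_X]
      split_ifs
      · exact (Kn S 1 le_rfl _).one_mem
      · exact (Kn S 1 le_rfl _).zero_mem
    have hC : ∀ a : QS S, dg a 1 ≤ c.xi i → Polynomial.C a ∈ PU (c.xi i) := by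
      intro a ha m
      rw [Polynomial.coeff_C]
      split_ifs
      · exact ha
      · exact (Kn S 1 le_rfl _).zero_mem
    have hcv : vd (c.cv i) 1 ≤ c.xi i := le_sup_right
    intro j
    rcases j with j | j | j
    · exact (PU _).add_mem (hC _ ((fa_cv i).trans hcv)) ((PU _).mul_mem hx (hC _ ((fu_cv i).trans hcv)))
    · exact hx
    · exact py_PU ((cf_le_cv i j).trans hcv)
  pt := by
    intro j
    rcases j with j | j | j
    · show Polynomial.eval (c.q 0) (Polynomial.C (fa c l K i) + Polynomial.X * Polynomial.C (fu c l K i)) = fl c l K i0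
      rw [Polynomial.eval_add, Polynomial.eval_mul, Polynomial.eval_C, Polynomial.eval_X, Polynomial.eval_C]
      exact (fl_line J i0 i).symm
    · have e : j = 0 := Fin.ext (by omega)
      rw [e]
      exact Polynomial.eval_X
    · show (py (c.cf i j)).eval (c.q 0) = c.R j
      rw [py_eval]
      exact (A.ln.curve i j).symm

include A J in
/-- **(H) FOR THE PROLONGED CORNER** -/
theorem til_nr {al : Fin r → ℕ → Type} {bV : ∀ i k, (S.F k).Ω → al i k} {D : ℕ} {κ : ℝ} (h0 : 0 < κ) (h1 : κ ≤ 1)
    (hN : NR D c.pt ⊥ κ) : NR D (til c l K i0 al bV).pt ⊥ κ := by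
  obtain ⟨v, hv1, hv2⟩ : ∃ v : Fin N → QS S, (∀ j, dg (v j) 1 ≤ O) ∧ ∀ i j, tc (py (c.cf i j)) (c.q 0) 1 = v j := by
    choose v h2 h3 using J.vel
    exact ⟨v, h2, fun i j => h3 j i⟩
  have hO : c.O ≤ O := J.hO
  have h3 : c.O = vd c.q 1 ⊔ vd c.R 1 := rfl
  rw [h3] at hO
  have h4 : NR D (Sum.elim (fun _ : Fin 1 => fl c l K i0) c.pt) ⊥ κ := by
    refine NR.prolong' (fun i => curv A J i0 i) (B := ⊥) (O := O) bot_le ?_ ?_ ?_ (Sum.elim (fun _ => 1) v) ?_ ?_ ?_
      h1 hN
    · rw [vd_le]
      exact fun _ => fl_O J i0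
    · rw [vd_le]
      intro a
      rcases a with a | a
      · exact (dg_le_vd c.q 1 a).trans (le_sup_left.trans hO)
      · exact (dg_le_vd c.R 1 a).trans (le_sup_right.trans hO)
    · intro i
      rw [sup_bot_eq]
      exact A.ln.time i
    · intro i a
      rcases a with a | a
      · show (Polynomial.derivative Polynomial.X).eval (c.q 0) = 1
        rw [Polynomial.derivative_X, Polynomial.eval_one]
      · show (Polynomial.derivative (py (c.cf i a))).eval (c.q 0) = v a
        rw [← tc_one]
        exact hv2 i a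
    · rw [vd_le]
      intro a
      rcases a with a | a
      · exact (Kn S 1 le_rfl _).one_mem
      · exact hv1 a
    · intro F hF hi
      refine J.spn κ h0 h1 F hF fun i => ?_
      have h5 := hi i
      rw [Fin.sum_univ_one] at h5
      have h6 : (curv A J i0 i).v (Sum.inl 0) = fu c l K i := by
        show (Polynomial.derivative (Polynomial.C (fa c l K i) + Polynomial.X * Polynomial.C (fu c l K i))).eval
          (c.q 0) = _
        simp
      rw [h6] at h5
      exact h5
  have h5 := h4.sub (σ := Fin (1 + 1) ⊕ Fin N)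
    (Sum.elim (fun i => if i = 0 then Sum.inr (Sum.inl 0) else Sum.inl 0) fun j => Sum.inr (Sum.inr j)) (by
      intro a b hab
      rcases a with a | a <;> rcases b with b | b
      · simp only [Sum.elim_inl] at hab
        congr 1
        have ha := a.2
        have hb := b.2
        split_ifs at hab with h6 h7 h7
        · rw [h6, h7]
        · apply Fin.ext
          have h8 : (a : ℕ) ≠ 0 := fun h => h6 (Fin.ext h)
          have h9 : (b : ℕ) ≠ 0 := fun h => h7 (Fin.ext h)
          omega
      · simp only [Sum.elim_inl, Sum.elim_inr] at hab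
        split_ifs at hab with h6
        simp at hab
      · simp only [Sum.elim_inl, Sum.elim_inr] at hab
        split_ifs at hab with h6
        simp at hab
      · simpa using hab)
  have h6 : (til c l K i0 al bV).pt = fun a => Sum.elim (fun _ : Fin 1 => fl c l K i0) c.pt
      ((Sum.elim (fun i => if i = 0 then Sum.inr (Sum.inl 0) else Sum.inl 0) fun j => Sum.inr (Sum.inr j) :
        Fin (1 + 1) ⊕ Fin N → Fin 1 ⊕ (Fin (0 + 1) ⊕ Fin N)) a) := by
    funext a
    rcases a with ⟨a, ha⟩ | a
    · interval_cases a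
      · rfl
      · rfl
    · rfl
  rw [h6]
  exact h5

end

end

end Pool.Agent.Helper5.DO
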