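import Pool.Agent.Helper5.DO.Til

/-! ALL DIMENSIONS, one unit direction, part 2: the frame of the new base coordinate and the numbers. -/

set_option autoImplicit false

namespace Pool.Agent.Helper5.DO

open Finset Filter Topology Pool.Agent.Helper69.RK Pool.Agent.Helper31.EC Pool.Agent.Helper31.EC.Sp
open Pool.Agent.Helper31.EC.QS
open Pool.Agent.Helper82.TP (Lit)
open Pool.Agent.Helper57.TA (sc wgt)
open Pool.Agent.Helper10.JET (tc)
open Pool.Agent.Helper13.AM (CD)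

noncomputable section

variable {S : Sp} {N r : ℕ}

/-! ### polynomials of weighted degree less than the lowest weight -/

/-- the one-variable polynomial of the pure monomials of the first variable -/
def p0 (K : ℕ) (F : MvPolynomial (Fin (0 + 1) ⊕ Fin N) (QS S)) : Polynomial (QS S) :=
  ∑ m ∈ range K, Polynomial.monomial m (F.coeff (Finsupp.single (Sum.inl 0) m))

theorem p0_coeff (K : ℕ) (F : MvPolynomial (Fin (0 + 1) ⊕ Fin N) (QS S)) (m : ℕ) :
    (p0 K F).coeff m = if m < K then F.coeff (Finsupp.single (Sum.inl 0) m) else 0 := by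
  unfold p0
  rw [Polynomial.finsetSum_coeff]
  simp only [Polynomial.coeff_monomial]
  rw [Finset.sum_ite_eq' (range K) m]
  simp only [mem_range]

theorem p0_PU {K : ℕ} {F : MvPolynomial (Fin (0 + 1) ⊕ Fin N) (QS S)} {A : S.L} (h : ∀ n, dg (F.coeff n) 1 ≤ A) :
    p0 K F ∈ PU A := by
  intro m
  rw [p0_coeff]
  split_ifs
  · exact h _
  · exact (Kn S 1 le_rfl A).zero_mem

/-- only pure monomials -/
theorem pure_of_deg {w : Fin N → ℝ} {l : Fin N} {K : ℕ} (hl : w l = K) (low : ∀ j, w l ≤ w j)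
    {F : MvPolynomial (Fin (0 + 1) ⊕ Fin N) (QS S)}
    (hF : ∀ n, F.coeff n ≠ 0 → wgt (Sum.elim (fun _ => 1) w) n < w l) {n : Fin (0 + 1) ⊕ Fin N →₀ ℕ}
    (hn : F.coeff n ≠ 0) : n (Sum.inl 0) < K ∧ n = Finsupp.single (Sum.inl 0) (n (Sum.inl 0)) := by
  have h1 := hF n hn
  unfold Pool.Agent.Helper57.TA.wgt at h1
  rw [Fintype.sum_sum_type] at h1
  simp only [Sum.elim_inl, Sum.elim_inr, mul_one] at h1
  have h2 : ∑ a : Fin (0 + 1), ((n (Sum.inl a) : ℕ) : ℝ) = n (Sum.inl 0) := by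
    rw [Fin.sum_univ_one]
  rw [h2] at h1
  have hl0 : (0 : ℝ) ≤ w l := by rw [hl]; positivity
  have h3 : ∀ j, 0 ≤ ((n (Sum.inr j) : ℕ) : ℝ) * w j := fun j => mul_nonneg (Nat.cast_nonneg _) (hl0.trans (low j))
  have h4 : ∀ j, n (Sum.inr j) = 0 := by
    intro j
    by_contra hc
    have h5 : (1 : ℝ) ≤ n (Sum.inr j) := by exact_mod_cast Nat.one_le_iff_ne_zero.mpr hc
    have h6 : w j ≤ ((n (Sum.inr j) : ℕ) : ℝ) * w j := by
      have := mul_le_mul_of_nonneg_right h5 (hl0.trans (low j))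
      linarith
    have h7 := Finset.single_le_sum (f := fun j => ((n (Sum.inr j) : ℕ) : ℝ) * w j) (fun j _ => h3 j) (mem_univ j)
    have h8 : (0 : ℝ) ≤ n (Sum.inl 0) := Nat.cast_nonneg _
    have h9 := low j
    linarith
  constructor
  · have h7 : 0 ≤ ∑ j, ((n (Sum.inr j) : ℕ) : ℝ) * w j := Finset.sum_nonneg fun j _ => h3 j
    have h8 : ((n (Sum.inl 0) : ℕ) : ℝ) < K := by linarith
    exact_mod_cast h8
  · ext a
    rcases a with a | a
    · have e : a = 0 := Fin.ext (by omega)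
      rw [e, Finsupp.single_eq_same]
    · rw [h4 a, Finsupp.single_eq_of_ne (by simp)]

theorem p0_eval {w : Fin N → ℝ} {l : Fin N} {K : ℕ} (hl : w l = K) (low : ∀ j, w l ≤ w j)
    {F : MvPolynomial (Fin (0 + 1) ⊕ Fin N) (QS S)}
    (hF : ∀ n, F.coeff n ≠ 0 → wgt (Sum.elim (fun _ => 1) w) n < w l) (x : Fin (0 + 1) ⊕ Fin N → QS S) :
    MvPolynomial.eval x F = (p0 K F).eval (x (Sum.inl 0)) := by
  classical
  unfold p0
  rw [Polynomial.eval_finsetSum, MvPolynomial.eval_eq']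
  simp only [Polynomial.eval_monomial]
  have hs : F.support ⊆ (range K).image fun m => Finsupp.single (Sum.inl 0) m := by
    intro n hn
    obtain ⟨h1, h2⟩ := pure_of_deg hl low hF (MvPolynomial.mem_support_iff.mp hn)
    rw [mem_image]
    exact ⟨n (Sum.inl 0), mem_range.mpr h1, h2.symm⟩
  rw [Finset.sum_subset hs, Finset.sum_image]
  · refine Finset.sum_congr rfl fun m _ => ?_
    congr 1
    rw [Finset.prod_eq_single (Sum.inl 0 : Fin (0 + 1) ⊕ Fin N)]
    · rw [Finsupp.single_eq_same]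
    · intro b _ hb
      rw [Finsupp.single_eq_of_ne hb, pow_zero]
    · intro h
      exact absurd (mem_univ _) h
  · intro a _ b _ h
    exact Finsupp.single_injective _ h
  · intro n _ hn
    rw [MvPolynomial.notMem_support_iff.mp hn, zero_mul]

/-- the top Taylor coefficient -/
theorem tc_lead {P : Polynomial (QS S)} {k : ℕ} (h : ∀ m, k < m → P.coeff m = 0) (t : QS S) : tc P t k = P.coeff k := by
  have h1 : Polynomial.hasseDeriv k P = Polynomial.C (P.coeff k) := by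
    ext n
    rw [Polynomial.hasseDeriv_coeff, Polynomial.coeff_C]
    by_cases hn : n = 0
    · rw [if_pos hn, hn, zero_add, Nat.choose_self, Nat.cast_one, one_mul]
    · rw [if_neg hn, h _ (by omega), mul_zero]
  unfold Pool.Agent.Helper10.JET.tc
  rw [h1, Polynomial.eval_C]

theorem tc_taylor (P : Polynomial (QS S)) (a t : QS S) (k : ℕ) : tc (Polynomial.taylor a P) t k = tc P (t + a) k := by
  have h1 : ∀ (q : Polynomial (QS S)) (x : QS S), tc q x k = (Polynomial.taylor x q).coeff k := by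
    intro q x
    rw [Polynomial.taylor_coeff]
    rfl
  rw [h1, h1, Polynomial.taylor_taylor]

/-- the height is full beyond the level `s` -/
theorem full_of_ind {t : QS S} {ξ β : S.L} (ht : h (dg t 1) ξ = 1) {s : ℝ} (hs0 : 0 ≤ s)
    (hi : I β (dg t 1) (ξ ⊔ dg t s) = 0) : 1 - s ≤ h (dg t 1) ((ξ ⊔ β) ⊔ dg t s) := by
  have h1 := I_zero_iff_h'.mp hi
  have e : β ⊔ (ξ ⊔ dg t s) = (ξ ⊔ β) ⊔ dg t s := by rw [← sup_assoc, sup_comm β ξ]
  rw [e] at h1
  rw [h1]
  have h2 := h_triangle (dg t 1) (dg t s) ξ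
  have h3 : h (dg t s) ξ ≤ s := (h_le_H _ _).trans (H_dg_le t hs0)
  have h4 : h (dg t 1) (dg t s ⊔ ξ) = h (dg t 1) (ξ ⊔ dg t s) := by rw [sup_comm]
  rw [ht, h4] at h2
  linarith

/-- **the frame of the new base coordinate** -/
theorem frame_f {t t0 y γ : QS S} {ξ β : S.L} {s : ℝ} (hs0 : 0 ≤ s) (hs1 : s < 1)
    (hβ : 1 - s ≤ h (dg t 1) ((ξ ⊔ β) ⊔ dg t s)) {P p : Polynomial (QS S)} (hP : P ∈ PU ξ) (hp : p ∈ PU β)
    (ht0 : dg t0 1 ≤ β) {K : ℕ}
    (hK : 1 ≤ K) (hKs : K * s ≤ 1) (hd : ∀ m, K ≤ m → p.coeff m = 0) (hy : P.eval t = y)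
    (hf : y = p.eval (t - t0) + γ) (hγ : γ ∈ Id S (K * s)) : tc P t (K - 1) - p.coeff (K - 1) ∈ Id S s := by
  have hn : dg (-t0) 1 ≤ β := (Kn S 1 le_rfl β).neg_mem ht0
  have h0 : tc (P - Polynomial.taylor (-t0) p) t (K - 1) ∈ Id S (K * s - (K - 1 : ℕ) * s) := by
    apply Pool.Agent.Helper10.JET.hasse_small (A := ξ ⊔ β) (P - Polynomial.taylor (-t0) p) t _ hs0 hs1 hβ hKs
    · rw [Polynomial.eval_sub, Polynomial.taylor_eval, hy, hf, ← sub_eq_add_neg, add_sub_cancel_left]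
      exact hγ
    · exact (PU _).sub_mem (PU_mono le_sup_left hP)
        (PU_mono le_sup_right (Pool.Agent.Helper10.JET.PU_taylor hp hn))
  rw [Pool.Agent.Helper10.JET.tc_sub, tc_taylor, tc_lead (fun m hm => hd m (by omega))] at h0
  refine Id_anti ?_ h0
  rw [Nat.cast_sub hK, Nat.cast_one]
  linarith

end

end Pool.Agent.Helper5.DO
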