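import Pool.Agent.Helper5.DO.TilZ

/-! ALL DIMENSIONS, one unit direction, part 8: (EXC) for all boxes from (EXC0), the statement for the unit box of every
member of the class. -/

set_option autoImplicit false

namespace Pool.Agent.Helper5.DO

open Finset Filter Topology Pool.Agent.Helper69.RK Pool.Agent.Helper31.EC Pool.Agent.Helper31.EC.Sp
open Pool.Agent.Helper31.EC.QS
open Pool.Agent.Helper82.TP (Lit)
open Pool.Agent.Helper57.TA (sc wgt sc_mul_mem mem_of_sc_mul exists_div' dg_sc sc_add sc_nat_mul)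
open Pool.Agent.Helper10.JET (tc)
open Pool.Agent.Helper13.AM (CD cQ cQ_dg cQ_eq)

noncomputable section

variable {S : Sp} {N r : ℕ}

/-- the lower point, to the resolution -/
def T1 (c : CD S 0 N r) (z : Fin N) : S.L := vd (c.M z) 1 ⊔ dg (c.q 0) 1

/-- (EXC), second form -/
def Exc' (c : CD S 0 N r) (w : Fin N → ℝ) (z : Fin N) (f : QS S) : Prop :=
  ∀ s, 0 ≤ s → w z * s ≤ 1 → 1 - s ≤ h (dg f 1) (c.K s ⊔ T1 c z)

section

variable {c : CD S 0 N r} {w : Fin N → ℝ} {z : Fin N} {ρ : ℝ} (A : c.Ax w z ρ)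

include A

theorem H_t : H (dg (c.q 0) 1) = 1 := by
  have h1 := A.ln.real.dg_one 0
  rw [h_bot] at h1
  exact h1

theorem h_t_K {s : ℝ} (hs0 : 0 ≤ s) (hs : w z * s ≤ 1) : h (dg (c.q 0) 1) (c.K s) = 1 - s := by
  have h1 := A.num.pr0 s hs0 hs
  rw [P_eq, I_eq', h_bot, sup_bot_eq, H_t A] at h1
  push_cast at h1
  linarith

theorem h_T1_K {s : ℝ} (hs0 : 0 ≤ s) (hs : w z * s ≤ 1) :
    h (T1 c z) (c.K s) = (1 - s) + ∑ j ∈ univ.erase z, (1 - w j * s) := by
  unfold T1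
  rw [sup_comm (vd (c.M z) 1), h_chain, h_t_K A hs0 hs, sum_one_sub, sup_comm (dg (c.q 0) 1) (c.K s),
    pr2' A hs0 hs le_rfl, mul_one]

theorem exc_iff {f : QS S} : Exc c w z f ↔ Exc' c w z f := by
  have e : dg (c.q 0) 1 ⊔ dg f 1 ⊔ vd (c.M z) 1 = T1 c z ⊔ dg f 1 := by
    unfold T1
    order
  constructor
  · intro h s hs0 hs
    have h1 := h s hs0 hs
    rw [e, h_chain, h_T1_K A hs0 hs, sup_comm (T1 c z) (c.K s)] at h1
    linarith
  · intro h s hs0 hs
    have h1 := h s hs0 hs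
    rw [e, h_chain, h_T1_K A hs0 hs, sup_comm (T1 c z) (c.K s)]
    linarith

/-- box coordinates of the lower point -/
theorem gamM_le {s : ℝ} (hs0 : 0 ≤ s) (hs : w z * s ≤ 1) (j : Fin N) (hj : j ≠ z) :
    dg (c.γ s j) 1 ≤ c.K s ⊔ T1 c z := by
  have hw : ∀ j, 0 < w j := fun j => zero_lt_one.trans (A.w1 j)
  have e1 : c.γ s j = c.R j -
      MvPolynomial.eval (Sum.elim (fun i => c.q i - c.q0 s i) (c.γ s)) (c.F s j) := by
    rw [A.bx.fR s hs0 hs j]
    ring
  have hP : c.P ≤ T1 c z := by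
    rw [P_eq]
    exact le_sup_right
  have hM : ∀ l, l ≠ z → dg (c.R l) 1 ≤ T1 c z := fun l hl => (dg_le_vd (c.M z) 1 ⟨l, hl⟩).trans le_sup_left
  rw [e1]
  have hR : c.R j ∈ Kn S 1 le_rfl (c.K s ⊔ T1 c z) := (hM j hj).trans le_sup_right
  refine (Kn S 1 le_rfl (c.K s ⊔ T1 c z)).sub_mem hR
    (Pool.Agent.Helper13.AM.eval_mem_sub _ _ _ (fun n => ?_) fun n hn0 x hx => ?_)
  · exact ((A.bx.litF s j n).dg_le (A.bx.bdd s) le_rfl).trans le_sup_left
  · have hdeg := A.bx.deg s j n hn0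
    rcases x with i | l
    · show dg (c.q i - c.q0 s i) 1 ≤ _
      refine (dg_sub_le _ _ le_rfl).trans (sup_le ?_ ?_)
      · exact (dg_le_vd c.q 1 i).trans (hP.trans le_sup_right)
      · exact ((A.bx.litq s i).dg_le (A.bx.bdd s) le_rfl).trans le_sup_left
    · have hl : w l < w j := by
        refine lt_of_le_of_lt ?_ hdeg
        have h2 : (1 : ℝ) ≤ (n (Sum.inr l) : ℝ) := by
          exact_mod_cast Nat.one_le_iff_ne_zero.mpr (Finsupp.mem_support_iff.mp hx)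
        have h3 : (n (Sum.inr l) : ℝ) * w l ≤ wgt (Sum.elim (fun _ : Fin (0 + 1) => (1 : ℝ)) w) n := by
          unfold Pool.Agent.Helper57.TA.wgt
          have h4 := Finset.single_le_sum (f := fun a => (n a : ℝ) * Sum.elim (fun _ : Fin (0 + 1) => (1 : ℝ)) w a)
            (s := univ) (fun a _ => by
              refine mul_nonneg (Nat.cast_nonneg _) ?_
              rcases a with a | a
              · exact zero_le_one
              · exact (hw a).le) (mem_univ (Sum.inr l))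
          exact h4
        nlinarith [hw l]
      have h5 := A.bx.gam_le hw (X := T1 c z) hs0 hs le_rfl l fun l' hl' =>
        hM l' fun he => absurd (he ▸ hl') (not_le.mpr (hl.trans_le (A.wz j)))
      show dg (c.γ s l) 1 ≤ _
      refine h5.trans ?_
      exact sup_le le_sup_right (sup_le le_sup_left (hP.trans le_sup_right))

end

/-! ### zooms -/

/-- boxes of a zoom -/
theorem zr_K {c : CD S 0 N r} {w : Fin N → ℝ} {z : Fin N} {ρ : ℝ} (A : c.Ax w z ρ) {s e : ℝ} {he : 0 < e} {h1 : e ≤ 1}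
    {Z : ∀ k, Setoid (S.F k).Ω} {c' : CD (S.chg Z e he) 0 N r} (A' : c'.Ax w z ρ) (hZ : c.ZR w z s e he h1 Z c')
    {s' : ℝ} (h0 : 0 ≤ s') (h2 : w z * (s + e * s') ≤ 1) : c'.K s' = chgL Z e he (c.K (s + e * s')) := by
  have e1 := hZ.VK s' h0 h2
  unfold CD.K
  rw [chgL_io Z e he (A.bx.bdd _)]
  apply le_antisymm
  · refine io_le_of_fun (chg_VB Z e he (A.bx.bdd _)) ?_
    exact Eventually.of_forall fun k ω ω' a b g hω => (e1 k ω ω' a b g).mpr hω
  · refine io_le_of_fun (A'.bx.bdd _) ?_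
    exact Eventually.of_forall fun k ω ω' a b g hω => (e1 k ω ω' a b g).mp hω

section

variable {c : CD S 0 N r} {O : S.L} {w : Fin N → ℝ} {z l : Fin N} {K : ℕ} {ρ : ℝ} (A : c.Ax w z ρ)
  (J : J1 c O w z l K) {s e : ℝ} {he : 0 < e} {h1 : e ≤ 1} (hs0 : 0 ≤ s) (hse : w z * s + e ≤ 1)
  {c' : CD (S.chg (fun k => Setoid.ker (c.VK s k)) e he) 0 N r}
  {O' : (S.chg (fun k => Setoid.ker (c.VK s k)) e he).L}
  (hZ : c.ZR w z s e he h1 (fun k => Setoid.ker (c.VK s k)) c') (A' : c'.Ax w z ρ) (J' : J1 c' O' w z l K)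

include A hs0 hse

/-- entropies over the new base -/
theorem h_chg (x y : S.L) : h (chgL (fun k => Setoid.ker (c.VK s k)) e he x)
    (chgL (fun k => Setoid.ker (c.VK s k)) e he y) = h x (y ⊔ c.K s) / e := by
  have h3 := h_chgL_inf e he (A.bx.bdd s).toInf x y
  have h4 : c.K s = cl (A.bx.bdd s).toInf := io_eq (A.bx.bdd s)
  rw [h4]
  exact h3

include hZ in
/-- the lower point of the zoom is known to the lower point and the box -/
theorem T1_zoom : T1 c' z ≤ chgL (fun k => Setoid.ker (c.VK s k)) e he (T1 c z) := by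
  have hzs := zs_le A he hs0 hse
  have hse' := se_le A he hs0 hse
  have key : ∀ (g X : QS S) (a : ℝ), 0 ≤ a → a + e ≤ 1 → g = sc S a * X → dg g 1 ≤ c.K s ⊔ T1 c z →
      dg (cQ (fun k => Setoid.ker (c.VK s k)) e he h1 X) 1 ≤ chgL (fun k => Setoid.ker (c.VK s k)) e he (T1 c z) := by
    intro g X a ha hae hg hk
    rw [cQ_dg _ _ _ _ _ le_rfl, mul_one]
    have h2 : dg X e ≤ c.K s ⊔ T1 c z := by
      have h3 := Pool.Agent.Helper10.JET.dg_le_sc_mul (S := S) ha (le_refl (1 : ℝ)) X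
      rw [← hg] at h3
      exact (dg_mono _ (by linarith)).trans (h3.trans hk)
    refine (chgL_mono _ _ _ h2).trans ?_
    rw [chgL_sup, K_base he (A.bx.bdd s), bot_sup_eq]
  refine sup_le ?_ ?_
  · rw [vd_le]
    rintro ⟨j, hj⟩
    obtain ⟨Y, hY1, hY2⟩ := hZ.R j
    show dg (c'.R j) 1 ≤ _
    rw [hY2]
    refine key _ Y (w j * s) (mul_nonneg (zero_le_one.trans (A.w1 j).le) hs0) ?_ hY1 (gamM_le A hs0 hzs j hj)
    have := mul_le_mul_of_nonneg_right (A.wz j) hs0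
    linarith
  · obtain ⟨X, hX1, hX2⟩ := hZ.q 0
    rw [hX2]
    refine key _ X s hs0 hse' hX1 ?_
    refine (dg_sub_le _ _ le_rfl).trans (sup_le ?_ ?_)
    · exact le_sup_right.trans le_sup_right
    · exact ((A.bx.litq s 0).dg_le (A.bx.bdd s) le_rfl).trans le_sup_left

include J hZ A' J'

/-- the new coordinate in the zoom -/
theorem fl_zoom (i : Fin r) : ∃ X : QS S, fl c l K i - f0 c l K s = sc S s * X ∧
    fl c' l K i = cQ (fun k => Setoid.ker (c.VK s k)) e he h1 X := by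
  obtain ⟨bV, hL⟩ := exists_LV c l K
  obtain ⟨bV', hL'⟩ := exists_LV c' l K
  have h2 := til_zoom A J (i0 := i) hL he h1 hs0 hse hZ A' J' hL'
  exact h2.q 1

/-- upper comparison of digits -/
theorem fl_zoom_le (i : Fin r) {k : ℝ} (hk : k ≤ 1) : dg (fl c' l K i) k ≤
    chgL (fun k => Setoid.ker (c.VK s k)) e he (dg (fl c l K i) (s + e * k)) := by
  have hzs := zs_le A he hs0 hse
  have hse' := se_le A he hs0 hse
  obtain ⟨X, hX1, hX2⟩ := fl_zoom A J hs0 hse hZ A' J' i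
  have hke : s + e * k ≤ 1 := by
    have := mul_le_mul_of_nonneg_left hk he.le
    linarith
  rw [hX2, cQ_dg _ _ _ _ _ hk]
  have h3 := Pool.Agent.Helper10.JET.dg_le_sc_mul (S := S) hs0 hke X
  rw [add_sub_cancel_left, ← hX1] at h3
  have h4 : dg X (e * k) ≤ dg (fl c l K i) (s + e * k) ⊔ c.K s :=
    h3.trans ((dg_sub_le _ _ hke).trans (sup_le_sup_left ((dg_mono _ hke).trans (f0_K A s _ l)) _))
  refine (chgL_mono _ _ _ h4).trans ?_
  rw [chgL_sup, K_base he (A.bx.bdd s), sup_bot_eq]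

/-- lower comparison of digits -/
theorem fl_zoom_ge (i : Fin r) {k : ℝ} (hk : k ≤ 1) :
    chgL (fun k => Setoid.ker (c.VK s k)) e he (dg (fl c l K i) (s + e * k)) ≤ dg (fl c' l K i) k := by
  have hzs := zs_le A he hs0 hse
  have hse' := se_le A he hs0 hse
  obtain ⟨X, hX1, hX2⟩ := fl_zoom A J hs0 hse hZ A' J' i
  have hke : s + e * k ≤ 1 := by
    have := mul_le_mul_of_nonneg_left hk he.le
    linarith
  rw [hX2, cQ_dg _ _ _ _ _ hk]
  have h3 := Pool.Agent.Helper10.JET.dg_sc_mul (S := S) hs0 hke X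
  rw [add_sub_cancel_left] at h3
  have e1 : fl c l K i = sc S s * X + f0 c l K s := by rw [← hX1]; ring
  have h4 : dg (fl c l K i) (s + e * k) ≤ dg X (e * k) ⊔ c.K s := by
    rw [e1]
    exact (dg_add_le _ _ hke).trans (sup_le_sup h3 ((dg_mono _ hke).trans (f0_K A s _ l)))
  refine (chgL_mono _ _ _ h4).trans ?_
  rw [chgL_sup, K_base he (A.bx.bdd s), sup_bot_eq]

/-- (EXC) in a zoom -/
theorem exc_zoom (i : Fin r) (hE : ∀ s' : ℝ, 0 ≤ s' → w z * s' ≤ 1 →
    e - e * s' ≤ h (dg (fl c l K i) (s + e)) (c.K (s + e * s') ⊔ T1 c z)) : Exc' c' w z (fl c' l K i) := by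
  intro s' h0 h2
  have h3 := hE s' h0 h2
  have hes : w z * (s + e * s') ≤ 1 := by
    have := mul_le_mul_of_nonneg_left h2 he.le
    nlinarith
  have hs' : 0 ≤ e * s' := mul_nonneg he.le h0
  have h4 : h (dg (fl c l K i) (s + e)) (c.K (s + e * s') ⊔ T1 c z ⊔ c.K s) / e ≤
      h (dg (fl c' l K i) 1) (c'.K s' ⊔ T1 c' z) := by
    rw [← h_chg A hs0 hse, chgL_sup, ← zr_K A A' hZ h0 hes]
    refine (h_anti (sup_le_sup_left (T1_zoom A hs0 hse hZ) _)).trans (h_mono ?_)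
    have h5 := fl_zoom_ge A J hs0 hse hZ A' J' i (le_refl (1 : ℝ))
    rwa [mul_one] at h5
  have h5 : c.K (s + e * s') ⊔ T1 c z ⊔ c.K s = c.K (s + e * s') ⊔ T1 c z :=
    sup_eq_left.mpr ((A.bx.mono s (s + e * s') hs0 (by linarith) hes).trans le_sup_left)
  rw [h5] at h4
  refine le_trans ?_ h4
  rw [le_div_iff₀ he]
  linarith

/-- one step -/
theorem step (i : Fin r) (hx : 1 ≤ h (dg (fl c' l K i) 1) (T1 c' z)) {δ : ℝ} (hδ0 : 0 ≤ δ) (hδ : w z * δ ≤ e) :
    δ ≤ h (dg (fl c l K i) (s + δ)) (c.K s ⊔ T1 c z) := by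
  have hw := A.w1 z
  obtain ⟨s', hs'⟩ : ∃ s', s' = δ / e := ⟨_, rfl⟩
  have es : e * s' = δ := by rw [hs']; field_simp
  have h0 : 0 ≤ s' := by rw [hs']; positivity
  have hws' : w z * s' ≤ 1 := by
    rw [hs', ← mul_div_assoc, div_le_one he]
    exact hδ
  have hs1 : s' ≤ 1 := (sc_lt A' h0 hws').le
  have hδe : δ ≤ e := by nlinarith
  have hwsd : w z * (s + e * s') ≤ 1 := by rw [es]; nlinarith
  -- the step in the zoom
  have e1 := K_lower A' h0 hws'
  have e2 : h (c'.K s') (chgL (fun k => Setoid.ker (c.VK s k)) e he (T1 c z)) = (1 - ρ) * w z * s' := by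
    rw [zr_K A A' hZ h0 hwsd, h_chg A hs0 hse, es]
    have h3 := K_lower A (s := s + δ) (by linarith) (by rw [← es]; exact hwsd)
    have h4 := K_lower A hs0 (zs_le A he hs0 hse)
    have h5 := h_chain (c.K s) (c.K (s + δ)) (T1 c z)
    have h6 : c.K s ⊔ c.K (s + δ) = c.K (s + δ) :=
      sup_eq_right.mpr (A.bx.mono s (s + δ) hs0 (by linarith) (by rw [← es]; exact hwsd))
    have h7 : h (c.K (s + δ)) (T1 c z) = (1 - ρ) * w z * (s + δ) := h3
    have h8 : h (c.K s) (T1 c z) = (1 - ρ) * w z * s := h4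
    rw [h6, h7, h8, sup_comm (c.K s)] at h5
    have h9 : h (c.K (s + δ)) (T1 c z ⊔ c.K s) = (1 - ρ) * w z * δ := by linarith
    rw [h9, hs']
    ring
  have hT := T1_zoom A hs0 hse hZ
  have e3 : I (c'.K s') (chgL (fun k => Setoid.ker (c.VK s k)) e he (T1 c z)) (T1 c' z) = 0 := by
    rw [I_eq, sup_eq_left.mpr hT, e2]
    have h3 : h (c'.K s') (T1 c' z) = (1 - ρ) * w z * s' := e1
    rw [h3, sub_self]
  have e4 : dg (fl c' l K i) s' ≤ c'.K s' :=
    f_le A' (fun s h h' => fl_frame A' J' h h') (fun s _ _ => f0_K A' s _ l) h0 hws'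
  have e5 := I_zero_mono e3 (e4.trans le_sup_left) (le_refl _ |>.trans le_sup_left)
  rw [I_eq, sup_eq_left.mpr hT] at e5
  have e6 : s' ≤ h (dg (fl c' l K i) s') (T1 c' z) := by
    have h3 := h_triangle (dg (fl c' l K i) 1) (dg (fl c' l K i) s') (T1 c' z)
    have h4 : h (dg (fl c' l K i) 1) (dg (fl c' l K i) s' ⊔ T1 c' z) ≤ 1 - s' :=
      (h_anti le_sup_left).trans (h_dg_dg _ hs1)
    linarith
  have e7 : h (dg (fl c' l K i) s') (chgL (fun k => Setoid.ker (c.VK s k)) e he (T1 c z)) ≤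
      h (dg (fl c l K i) (s + δ)) (T1 c z ⊔ c.K s) / e := by
    rw [← h_chg A hs0 hse, ← es]
    exact h_mono (fl_zoom_le A J hs0 hse hZ A' J' i hs1)
  have e8 : s' ≤ h (dg (fl c l K i) (s + δ)) (T1 c z ⊔ c.K s) / e := by linarith
  rw [le_div_iff₀ he, sup_comm (T1 c z)] at e8
  calc δ = s' * e := by rw [← es]; ring
    _ ≤ _ := e8

end

end

end Pool.Agent.Helper5.DO
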