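import Pool.Agent.Helper5.DO.TilH
import Pool.Agent.Helper10.JET.Near2

/-! ALL DIMENSIONS, one unit direction, part 7: the prolonged corner and zooms. -/

set_option autoImplicit false

namespace Pool.Agent.Helper5.DO

open Finset Filter Topology Pool.Agent.Helper69.RK Pool.Agent.Helper31.EC Pool.Agent.Helper31.EC.Sp
open Pool.Agent.Helper31.EC.QS
open Pool.Agent.Helper82.TP (Lit)
open Pool.Agent.Helper57.TA (sc wgt sc_mul_mem mem_of_sc_mul exists_div' dg_sc sc_add sc_nat_mul)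
open Pool.Agent.Helper10.JET (tc)
open Pool.Agent.Helper13.AM (CD cQ cQ_dg cQ_eq)

noncomputable section

variable {S : Sp} {N r : ℕ}

section

variable {c : CD S 0 N r} {O : S.L} {w : Fin N → ℝ} {z l : Fin N} {K : ℕ} {ρ : ℝ} (A : c.Ax w z ρ)
  (J : J1 c O w z l K) {s e : ℝ} (he : 0 < e) (hs0 : 0 ≤ s) (hse : w z * s + e ≤ 1)

include A he hs0 hse

theorem zs_le : w z * s ≤ 1 := by linarith

theorem se_le : s + e ≤ 1 := by
  have h1 := A.w1 z
  nlinarith

/-- the zoomed height is real over the curve and the box -/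
theorem time_zoom {X : QS S} (hX : c.q 0 - c.q0 s 0 = sc S s * X) (i : Fin r) : e ≤ h (dg X e) (c.xi i ⊔ c.K s) := by
  have hse' := se_le A he hs0 hse
  have hzs := zs_le A he hs0 hse
  have h1 := Pool.Agent.Helper10.JET.full_beyond (A.ln.time i) hs0 (CD.K_le_xi A.ln A.bx hs0 hzs i)
  have h2 : dg (sc S s * X) (s + e) ≤ dg X e := by
    have h3 := Pool.Agent.Helper10.JET.dg_sc_mul (S := S) hs0 hse' X
    rwa [add_sub_cancel_left] at h3
  have h3 : dg (c.q 0) (s + e) ≤ dg X e ⊔ c.K s := by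
    have e1 : c.q 0 = sc S s * X + c.q0 s 0 := by rw [← hX]; ring
    rw [e1]
    refine (dg_add_le _ _ hse').trans (sup_le_sup h2 ?_)
    exact (dg_mono _ hse').trans ((A.bx.litq s 0).dg_le (A.bx.bdd s) le_rfl)
  have h4 : h (dg (c.q 0) (s + e)) (c.xi i ⊔ c.K s) ≤ h (dg X e) (c.xi i ⊔ c.K s) := by
    have h5 := h_mono (B := c.xi i ⊔ c.K s) h3
    rwa [h_sup_right_of_le le_sup_right] at h5
  have h5 : h (dg (c.q 0) (s + e)) (c.xi i ⊔ c.K s ⊔ dg (c.q 0) s) ≤ h (dg (c.q 0) (s + e)) (c.xi i ⊔ c.K s) :=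
    h_anti le_sup_left
  have h6 := h_triangle (dg (c.q 0) 1) (dg (c.q 0) (s + e)) (c.xi i ⊔ c.K s ⊔ dg (c.q 0) s)
  have h7 : h (dg (c.q 0) 1) (dg (c.q 0) (s + e) ⊔ (c.xi i ⊔ c.K s ⊔ dg (c.q 0) s)) ≤ 1 - (s + e) :=
    (h_anti le_sup_left).trans (h_dg_dg _ hse')
  linarith

include J

/-- the curve in the box -/
theorem zoom_poly {X : QS S} (hX : c.q 0 - c.q0 s 0 = sc S s * X) (i : Fin r) :
    ∃ Q : Polynomial (QS S), Q ∈ PU (c.xi i ⊔ c.K s) ∧ (∀ m, K < m → Q.coeff m = 0) ∧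
      (∀ m, m ≤ K → sc S (((K : ℝ) - m) * s) * Q.coeff m =
        tc (py (c.cf i l)) (c.q0 s 0) m - (p0 K (c.F s l)).coeff m) ∧
      sc S (K * s) * Q.eval X = c.γ s l := by
  classical
  have hzs := zs_le A he hs0 hse
  have hse' := se_le A he hs0 hse
  have hKs : (K : ℝ) * s ≤ 1 := by
    rw [← J.wl]
    exact (mul_le_mul_of_nonneg_right (A.wz l) hs0).trans hzs
  obtain ⟨P, hP⟩ : ∃ P, P = py (c.cf i l) := ⟨_, rfl⟩
  obtain ⟨p, hp⟩ : ∃ p, p = p0 K (c.F s l) := ⟨_, rfl⟩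
  obtain ⟨B, hB⟩ : ∃ B, B = c.xi i ⊔ c.K s := ⟨_, rfl⟩
  have hPd : P.natDegree ≤ K := by
    rw [Polynomial.natDegree_le_iff_coeff_eq_zero, hP]
    exact fun m hm => J.cut i m hm
  have hPk : P ∈ PU B := by
    rw [hP, hB]
    exact py_PU (((cf_le_cv i l).trans le_sup_right).trans le_sup_left)
  have hpk : p ∈ PU B := by
    rw [hp, hB]
    exact p0_PU fun n => (f0_K A s n l).trans le_sup_right
  have hpc : ∀ m, K ≤ m → p.coeff m = 0 := by
    intro m hm
    rw [hp, p0_coeff, if_neg (by omega)]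
  have hq0 : dg (c.q0 s 0) 1 ≤ B := by
    rw [hB]
    exact ((A.bx.litq s 0).dg_le (A.bx.bdd s) le_rfl).trans le_sup_right
  have hR : P.eval (c.q0 s 0 + sc S s * X) = p.eval (sc S s * X) + c.γ s l := by
    rw [← hX, add_sub_cancel, hP, hp, py_eval, ← A.ln.curve]
    exact frame_p A J hs0 hzs
  -- the scaled frame
  obtain ⟨G, hG⟩ : ∃ G : Polynomial (QS S), G = ∑ m ∈ range K, Polynomial.monomial m (sc S (m * s) * p.coeff m) :=
    ⟨_, rfl⟩
  have hGc : ∀ m, G.coeff m = sc S (m * s) * p.coeff m := by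
    intro m
    rw [hG, Polynomial.finsetSum_coeff]
    simp only [Polynomial.coeff_monomial]
    rw [Finset.sum_ite_eq' (range K) m]
    split_ifs with hm
    · rfl
    · rw [hpc m (by rw [mem_range] at hm; omega), mul_zero]
  have hGk : G ∈ PU B := by
    intro m
    rw [hGc]
    refine (Kn S 1 le_rfl B).mul_mem ?_ (hpk m)
    show dg (sc S (m * s)) 1 ≤ B
    rw [dg_sc]
    exact bot_le
  have hpe : ∀ u : QS S, p.eval u = ∑ m ∈ range (K + 1), p.coeff m * u ^ m := by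
    intro u
    exact Polynomial.eval_eq_sum_range' (n := K + 1) (by
      have h5 : p.natDegree ≤ K := by
        rw [Polynomial.natDegree_le_iff_coeff_eq_zero]
        exact fun m hm => hpc m hm.le
      omega) u
  have hGe : G.eval X = p.eval (sc S s * X) := by
    rw [hpe, Finset.sum_range_succ, hpc K le_rfl, zero_mul, add_zero, hG, Polynomial.eval_finsetSum]
    refine Finset.sum_congr rfl fun m _ => ?_
    rw [Polynomial.eval_monomial, sc_nat_mul hs0, mul_pow]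
    ring
  have hj : ∀ m : ℕ, tc P (c.q0 s 0) m - p.coeff m ∈ Id S (K * s - m * s) := by
    intro m
    have h3 := Pool.Agent.Helper10.JET.near_sc hPk hGk hq0 hs0 he (by linarith)
      (by rw [hB]; exact time_zoom A he hs0 hse hX i) hKs (by
        rw [hR, hGe, add_sub_cancel_left, ← J.wl]
        exact A.bx.fγ s hs0 hzs l) m
    rw [hGc, ← mul_sub] at h3
    exact mem_of_sc_mul (by positivity) hKs h3
  have hc : ∀ m : ℕ, ∃ g : QS S, (m ≤ K → tc P (c.q0 s 0) m - p.coeff m = sc S (((K : ℝ) - m) * s) * g) ∧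
      dg g 1 ≤ B := by
    intro m
    by_cases hm : m ≤ K
    · have hm' : (m : ℝ) ≤ K := by exact_mod_cast hm
      have e1 : (K : ℝ) * s - m * s = ((K : ℝ) - m) * s := by ring
      have h3 := hj m
      rw [e1] at h3
      obtain ⟨g, hg1, hg2⟩ := exists_div' (mul_nonneg (by linarith) hs0) (by
        have : (0 : ℝ) ≤ m * s := by positivity
        linarith) h3
      refine ⟨g, fun _ => hg1, hg2.trans ?_⟩
      exact (Kn S 1 le_rfl B).sub_mem (Pool.Agent.Helper10.JET.tc_known hPk hq0 m) (hpk m)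
    · exact ⟨0, fun h => absurd h hm, (Kn S 1 le_rfl B).zero_mem⟩
  choose g hg1 hg2 using hc
  obtain ⟨Q, hQ⟩ : ∃ Q : Polynomial (QS S), Q = ∑ m ∈ range (K + 1), Polynomial.monomial m (g m) := ⟨_, rfl⟩
  have hQc : ∀ m, Q.coeff m = if m ∈ range (K + 1) then g m else 0 := by
    intro m
    rw [hQ, Polynomial.finsetSum_coeff]
    simp only [Polynomial.coeff_monomial]
    exact Finset.sum_ite_eq' (range (K + 1)) m g
  have hPe : P.eval (c.q0 s 0 + sc S s * X) = ∑ m ∈ range (K + 1), tc P (c.q0 s 0) m * (sc S s * X) ^ m :=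
    Pool.Agent.Helper10.JET.eval_tc P _ _ hPd
  rw [← hB, ← hP, ← hp]
  refine ⟨Q, fun m => ?_, fun m hm => ?_, fun m hm => ?_, ?_⟩
  · rw [hQc]
    split_ifs
    · exact hg2 m
    · exact (Kn S 1 le_rfl B).zero_mem
  · rw [hQc, if_neg (by rw [mem_range]; omega)]
  · rw [hQc, if_pos (by rw [mem_range]; omega)]
    exact (hg1 m hm).symm
  · have e2 : Q.eval X = ∑ m ∈ range (K + 1), g m * X ^ m := by
      rw [hQ, Polynomial.eval_finsetSum]
      exact Finset.sum_congr rfl fun m _ => Polynomial.eval_monomial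
    have e3 : c.γ s l = P.eval (c.q0 s 0 + sc S s * X) - p.eval (sc S s * X) := by rw [hR]; ring
    rw [e3, e2, hPe, hpe, Finset.mul_sum, ← Finset.sum_sub_distrib]
    refine Finset.sum_congr rfl fun m hm => ?_
    have hm1 : m ≤ K := by rw [mem_range] at hm; omega
    have hm' : (m : ℝ) ≤ K := by exact_mod_cast hm1
    have e4 : sc S ((K : ℝ) * s) = sc S (m * s) * sc S (((K : ℝ) - m) * s) := by
      rw [← sc_add (by positivity) (mul_nonneg (by linarith) hs0)]
      congr 1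
      ring
    have e5 := hg1 m hm1
    rw [← sub_mul, e5, e4, mul_pow, sc_nat_mul hs0]
    ring

end

section

variable {c : CD S 0 N r} {O : S.L} {w : Fin N → ℝ} {z l : Fin N} {K : ℕ} {ρ : ℝ} (A : c.Ax w z ρ)
  (J : J1 c O w z l K) {s e : ℝ} (he : 0 < e) (h1 : e ≤ 1) (hs0 : 0 ≤ s) (hse : w z * s + e ≤ 1)

theorem K_base {s e : ℝ} (he : 0 < e) (hb : Bdd (c.VK s)) :
    chgL (fun k => Setoid.ker (c.VK s k)) e he (c.K s) = ⊥ := by
  have h2 := chgL_base e he hb.toInf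
  have h3 : c.K s = cl hb.toInf := io_eq hb
  rw [h3]
  exact h2

include A hs0 hse

theorem time_chg {X : QS S} (hX : c.q 0 - c.q0 s 0 = sc S s * X) (i : Fin r) :
    1 ≤ h (dg (cQ (fun k => Setoid.ker (c.VK s k)) e he h1 X) 1)
      (chgL (fun k => Setoid.ker (c.VK s k)) e he (c.xi i)) := by
  have h2 := time_zoom A he hs0 hse hX i
  have h3 := h_chgL_inf e he (A.bx.bdd s).toInf (dg X e) (c.xi i)
  have h4 : c.K s = cl (A.bx.bdd s).toInf := io_eq (A.bx.bdd s)
  rw [cQ_dg _ _ _ _ _ le_rfl, mul_one]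
  have h5 : h (chgL (fun k => Setoid.ker (c.VK s k)) e he (dg X e))
      (chgL (fun k => Setoid.ker (c.VK s k)) e he (c.xi i)) = h (dg X e) (c.xi i ⊔ cl (A.bx.bdd s).toInf) / e := h3
  rw [h5, ← h4, le_div_iff₀ he, one_mul]
  exact h2

include J

/-- **the zoomed curve is the transformed curve** -/
theorem zoom_cf {c' : CD (S.chg (fun k => Setoid.ker (c.VK s k)) e he) 0 N r}
    (hZ : c.ZR w z s e he h1 (fun k => Setoid.ker (c.VK s k)) c') (A' : c'.Ax w z ρ) {X : QS S}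
    (hX : c.q 0 - c.q0 s 0 = sc S s * X)
    (hq : c'.q 0 = cQ (fun k => Setoid.ker (c.VK s k)) e he h1 X) (i : Fin r) {Q : Polynomial (QS S)}
    (hQk : Q ∈ PU (c.xi i ⊔ c.K s)) (hQe : sc S (K * s) * Q.eval X = c.γ s l) :
    py (c'.cf i l) = Q.map (cQ (fun k => Setoid.ker (c.VK s k)) e he h1) := by
  obtain ⟨Y, hY1, hY2⟩ := hZ.R l
  have hzs := zs_le A he hs0 hse
  have hKs : (K : ℝ) * s ≤ 1 - e := by
    rw [← J.wl]
    have := mul_le_mul_of_nonneg_right (A.wz l) hs0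
    linarith
  have hKs0 : (0 : ℝ) ≤ K * s := by positivity
  have h2 : Y - Q.eval X ∈ Id S e := by
    have h3 : sc S (K * s) * (Y - Q.eval X) ∈ Id S 1 := by
      rw [mul_sub, hQe, ← J.wl, ← hY1, sub_self]
      exact (Id S 1).zero_mem
    exact Id_anti (by linarith) (mem_of_sc_mul hKs0 le_rfl h3)
  have h4 : (py (c'.cf i l) - Q.map (cQ (fun k => Setoid.ker (c.VK s k)) e he h1)).eval (c'.q 0) ∈
      Id (S.chg (fun k => Setoid.ker (c.VK s k)) e he) 1 := by
    rw [Polynomial.eval_sub, py_eval, ← A'.ln.curve, hY2, hq, Polynomial.eval_map_apply, mem_Id_one, sub_eq_zero,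
      cQ_eq]
    exact h2
  have h5 : py (c'.cf i l) - Q.map (cQ (fun k => Setoid.ker (c.VK s k)) e he h1) ∈
      PU (chgL (fun k => Setoid.ker (c.VK s k)) e he (c.xi i)) := by
    refine (PU _).sub_mem ?_ fun m => ?_
    · refine py_PU (((cf_le_cv i l).trans ?_).trans (hZ.xi i))
      exact le_sup_right
    · rw [Polynomial.coeff_map, cQ_dg _ _ _ _ _ le_rfl, mul_one]
      refine (chgL_mono _ _ _ ((dg_mono _ h1).trans (hQk m))).trans ?_
      rw [chgL_sup, K_base he (A.bx.bdd s), sup_bot_eq]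
  have h6 := Pool.Agent.Helper10.JET.poly_top h5 one_pos le_rfl (x := c'.q 0) (by
    rw [hq]
    exact time_chg A he h1 hs0 hse hX i) le_rfl h4
  ext m
  have h7 := h6 m
  rw [mem_Id_one, Polynomial.coeff_sub, sub_eq_zero] at h7
  exact h7

end

/-- **ZOOMS OF THE PROLONGED CORNER** -/
theorem til_zoom {c : CD S 0 N r} {O : S.L} {w : Fin N → ℝ} {z l : Fin N} {K : ℕ} {ρ : ℝ} (A : c.Ax w z ρ)
    (J : J1 c O w z l K) {i0 : Fin r} {al : Fin r → ℕ → Type} {bV : ∀ i k, (S.F k).Ω → al i k}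
    (hL : LV c l K al bV) {s e : ℝ} (he : 0 < e) (h1 : e ≤ 1) (hs0 : 0 ≤ s) (hse : w z * s + e ≤ 1)
    {Z : ∀ k, Setoid (S.F k).Ω} {c' : CD (S.chg Z e he) 0 N r} {O' : (S.chg Z e he).L}
    (hZ : c.ZR w z s e he h1 Z c') (A' : c'.Ax w z ρ) (J' : J1 c' O' w z l K)
    {al' : Fin r → ℕ → Type} {bV' : ∀ i k, ((S.chg Z e he).F k).Ω → al' i k} (hL' : LV c' l K al' bV') :
    (til c l K i0 al bV).ZR w z s e he h1 Z (til c' l K i0 al' bV') := by
  obtain rfl : Z = fun k => Setoid.ker (c.VK s k) := funext hZ.base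
  obtain ⟨X, hX1, hX2⟩ := hZ.q 0
  have hK := J.hK
  have key : ∀ i, ∃ Q : Polynomial (QS S), (∀ m, K < m → Q.coeff m = 0) ∧
      (∀ m, m ≤ K → sc S (((K : ℝ) - m) * s) * Q.coeff m =
        tc (py (c.cf i l)) (c.q0 s 0) m - (p0 K (c.F s l)).coeff m) ∧
      py (c'.cf i l) = Q.map (cQ (fun k => Setoid.ker (c.VK s k)) e he h1) := by
    intro i
    obtain ⟨Q, h2, h3, h4, h5⟩ := zoom_poly A J he hs0 hse hX1 i
    exact ⟨Q, h3, h4, zoom_cf A J he h1 hs0 hse hZ A' hX1 hX2 i h2 h5⟩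
  -- the top coefficient
  have top : ∀ i, fu c' l K i = cQ (fun k => Setoid.ker (c.VK s k)) e he h1 (fu c l K i) := by
    intro i
    obtain ⟨Q, h3, h4, h5⟩ := key i
    have h6 := h4 K le_rfl
    rw [sub_self, zero_mul, Pool.Agent.Helper57.TA.sc_zero, one_mul, p0_coeff, if_neg (lt_irrefl K), sub_zero,
      tc_lead (J.cut i)] at h6
    unfold fu
    rw [h5, Polynomial.coeff_map, h6, map_mul, map_natCast]
  -- the next coefficient
  have nxt : ∀ i, ∃ g : QS S, fa c' l K i = cQ (fun k => Setoid.ker (c.VK s k)) e he h1 g ∧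
      sc S s * g = fa c l K i + c.q0 s 0 * fu c l K i - f0 c l K s := by
    intro i
    obtain ⟨Q, h3, h4, h5⟩ := key i
    refine ⟨Q.coeff (K - 1), ?_, ?_⟩
    · unfold fa
      rw [h5, Polynomial.coeff_map]
    · have h6 := h4 (K - 1) (by omega)
      have e1 : ((K : ℝ) - ((K - 1 : ℕ) : ℝ)) * s = s := by
        rw [Nat.cast_sub (by omega), Nat.cast_one]
        ring
      rw [e1, tc_top (by omega) (J.cut i), p0_coeff, if_pos (by omega)] at h6
      exact h6
  have hse' := se_le A he hs0 hse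
  refine ⟨fun k => rfl, fun j => ?_, hZ.R, fun i j => ?_, fun i => ?_, fun i => ?_, hZ.VK⟩
  · rcases j with ⟨j, hj⟩
    interval_cases j
    · exact hZ.q 0
    · obtain ⟨g, h2, h3⟩ := nxt i0
      refine ⟨g + X * fu c l K i0, ?_, ?_⟩
      · show fl c l K i0 - f0 c l K s = _
        rw [fl_line J i0 i0, mul_add, h3, ← mul_assoc, ← hX1]
        ring
      · show fl c' l K i0 = _
        rw [fl_line J' i0 i0, h2, top, hX2, map_add, map_mul]
  · rcases j with ⟨j, hj⟩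
    interval_cases j
    · show (1 : QS _) = cQ _ e he h1 1
      rw [map_one]
    · exact top i
  · show io (bV' i) ≤ chgL _ e he (io (bV i))
    rw [hL'.gen i, hL.gen i]
    obtain ⟨g, h2, h3⟩ := nxt i
    have hKb : chgL (fun k => Setoid.ker (c.VK s k)) e he (dg (fa c l K i) 1 ⊔ dg (fu c l K i) 1) =
        chgL (fun k => Setoid.ker (c.VK s k)) e he (dg (fa c l K i) 1 ⊔ dg (fu c l K i) 1 ⊔ c.K s) := by
      rw [chgL_sup _ _ _ _ (c.K s), K_base he (A.bx.bdd s), sup_bot_eq]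
    refine sup_le ?_ ?_
    · rw [h2, cQ_dg _ _ _ _ _ le_rfl, mul_one, hKb]
      refine chgL_mono _ _ _ ?_
      have h4 := Pool.Agent.Helper10.JET.dg_le_sc_mul (S := S) hs0 (le_refl (1 : ℝ)) g
      refine ((dg_mono _ (by linarith)).trans h4).trans ?_
      rw [h3]
      have k1 : dg (fa c l K i) 1 ≤ dg (fa c l K i) 1 ⊔ dg (fu c l K i) 1 ⊔ c.K s := le_sup_left.trans le_sup_left
      have k2 : dg (c.q0 s 0) 1 ≤ dg (fa c l K i) 1 ⊔ dg (fu c l K i) 1 ⊔ c.K s :=
        ((A.bx.litq s 0).dg_le (A.bx.bdd s) le_rfl).trans le_sup_right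
      have k3 : dg (fu c l K i) 1 ≤ dg (fa c l K i) 1 ⊔ dg (fu c l K i) 1 ⊔ c.K s := le_sup_right.trans le_sup_left
      have k4 : dg (f0 c l K s) 1 ≤ dg (fa c l K i) 1 ⊔ dg (fu c l K i) 1 ⊔ c.K s := (f0_K A s _ l).trans le_sup_right
      exact (Kn S 1 le_rfl _).sub_mem ((Kn S 1 le_rfl _).add_mem k1 ((Kn S 1 le_rfl _).mul_mem k2 k3)) k4
    · rw [top, cQ_dg _ _ _ _ _ le_rfl, mul_one]
      exact chgL_mono _ _ _ ((dg_mono _ h1).trans le_sup_right)
  · rw [til_xi hL' i, til_xi hL i, ← xi_eq A', ← xi_eq A]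
    exact hZ.xi i

end

end Pool.Agent.Helper5.DO
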