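import Pool.Agent.Helper5.DO.TilC
import Pool.Agent.Helper5.HB.Lbl
import Pool.Agent.Helper56.STL.Flt
import Pool.Agent.Helper84.MT.Fun

/-! THE HULL OF A SYSTEM at the point of a corner is full: a label of small leak at all windows is known to the base
(labels of corners), and there are no relations over the base. -/

set_option autoImplicit false

namespace Pool.Agent.Helper5.DO

open Finset Filter Topology Pool.Agent.Helper69.RK Pool.Agent.Helper31.EC Pool.Agent.Helper31.EC.Sp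
open Pool.Agent.Helper31.EC.QS Pool.Agent.Helper40.EL Pool.Agent.Helper89.LX Pool.Agent.Helper84.MT
open Pool.Agent.Helper13.AM (CD)
open Pool.Agent.Helper5.HB (cq NRl lb vol_ge NRl_iff)
open Pool.Agent.Helper56.STL (LForm exists_LForm vd_cor)

noncomputable section

variable {S : Sp} {d N r M D : ℕ} {E : ℕ → ℕ}

/-- the literal form of a label: no relation over the base on all events of all extensions gives no relation over
labels known to the base -/
theorem nrl_lit {Q : S.VV M} (F : LForm Q D) (hK : F.K ≤ ⊥)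
    (hN : ∀ (T : Sp) (p : Pj T S) (A : ∀ k, (T.F k).Ω → Prop) (hA : 0 < ul (T.pr A)) (κ : ℝ), 0 < κ → κ ≤ 1 →
      NR D (fun i => QS.rest A hA (p.qs (cq Q i))) ⊥ κ) : NRl D (lb F.x) Q := by
  have hV : (lb F.x).sp.VB (lb F.x).V := F.vb
  rw [NRl_iff hV]
  intro A hA κ h0 h1
  have e1 : cl (⟨(lb F.x).V, hV⟩ : (lb F.x).sp.Inf) = (lb F.x).pj.map F.K := rfl
  have e2 : (lb F.x).pj.map F.K = ⊥ := by
    rw [le_bot_iff.mp hK, Pj.map_bot]
  rw [e1, e2, restL_bot]
  exact hN _ _ A hA κ h0 h1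

/-- **FULL HULL**: `s` is a system at the point of a corner with the axiom of labels, its windows are at least as
coarse as the curves -/
theorem vol_full {r' : ℕ} {c : CD S d N r} {w : Fin N → ℝ} {z : Fin N} (hlb : c.Lb w z) (hbx : c.Bx w z)
    (s : MSys S M E (Fin r')) (e : Fin (d + 1) ⊕ Fin N ≃ Fin M) (he : ∀ i, c.pt i = cq s.Q (e i))
    (hw : ∀ X : S.L, (∀ i, PLe (rp X) ((s.lf i).win 0)) → ∀ i, X ≤ c.xi i)
    (hN : ∀ (T : Sp) (p : Pj T S) (A : ∀ k, (T.F k).Ω → Prop) (hA : 0 < ul (T.pr A)) (κ : ℝ), 0 < κ → κ ≤ 1 →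
      NR D (fun i => QS.rest A hA (p.qs (c.pt i))) ⊥ κ) : (M : ℝ) ≤ s.vol D 0 := by
  obtain ⟨x, hx⟩ := s.exists_can D 0
  obtain ⟨F, hO, hle, hFv, -⟩ := exists_LForm s.Q D (A := s.cnd 0) (i₀ := none) rfl hx.1
  have h1 : F.K ≤ c.O := by
    have h2 := F.K_le
    have h3 : s.Q.dg 1 = vd (fun j => cq s.Q j) 1 := (vd_cor s.Q le_rfl).symm
    rw [h3] at h2
    refine h2.trans ((vd_le _ _ _).mpr fun j => ?_)
    have h4 : cq s.Q j = c.pt (e.symm j) := by rw [he, Equiv.apply_symm_apply]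
    rw [h4]
    rcases e.symm j with i | i
    · exact (dg_le_vd c.q 1 i).trans le_sup_left
    · exact (dg_le_vd c.R 1 i).trans le_sup_right
  have h2 : ∀ i, F.K ≤ c.xi i := hw F.K fun i => (rp_rpI F.inf).1.trans (hle (some i))
  have h3 : F.K ≤ ⊥ := by
    rw [← hbx.K_zero]
    exact hlb.lab 0 le_rfl (by rw [mul_zero]; exact one_pos) F.K h1 fun i => (h2 i).trans le_sup_left
  have h4 : NRl D (lb F.x) s.Q := nrl_lit F h3 (by
    intro T p A hA κ h0 h1
    have h5 := (hN T p A hA κ h0 h1).sub e.symm e.symm.injective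
    have e5 : (fun j => QS.rest A hA (p.qs (cq s.Q j))) = fun j => QS.rest A hA (p.qs (c.pt (e.symm j))) := by
      funext j
      rw [he, Equiv.apply_symm_apply]
    rw [e5]
    exact h5)
  rw [← s.vol_eq hx.1, ← hFv]
  exact vol_ge s.Q hO.1 h4

variable {K : ℕ} {ρ : ℝ} {w : Fin N → ℝ} {z l : Fin N} {C : ∀ S : Sp, CD S 0 N r → S.L → Prop}

/-- no relations at prolonged corners on events of extensions -/
theorem til_nr_rest (h0 : Cls0 N r w z l K ρ C) {c' : CD S 1 N r} (hc : TilC w z l K C S c') (D : ℕ) (T : Sp)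
    (p : Pj T S) (A : ∀ k, (T.F k).Ω → Prop) (hA : 0 < ul (T.pr A)) (κ : ℝ) (hκ : 0 < κ) (hκ1 : κ ≤ 1) :
    NR D (fun i => QS.rest A hA (p.qs (c'.pt i))) ⊥ κ := by
  have h1 := nr_til h0 _ _ ((cls_til h0).rest _ _ ((cls_til h0).pull _ _ hc T p) A hA) D κ hκ hκ1
  have e1 : (fun i => QS.rest A hA (p.qs (c'.pt i))) = ((c'.pull p).rest A hA).pt := by
    funext i
    rcases i with i | i <;> rfl
  rw [e1]
  exact h1

/-- **FULL HULL AT PROLONGED CORNERS** -/
theorem vol_til (h0 : Cls0 N r w z l K ρ C) {c' : CD S 1 N r} (hc : TilC w z l K C S c') {r' : ℕ}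
    (s : MSys S M E (Fin r')) (e : Fin (1 + 1) ⊕ Fin N ≃ Fin M) (he : ∀ i, c'.pt i = cq s.Q (e i))
    (hw : ∀ X : S.L, (∀ i, PLe (rp X) ((s.lf i).win 0)) → ∀ i, X ≤ c'.xi i) (D : ℕ) : (M : ℝ) ≤ s.vol D 0 :=
  vol_full ((cls_til h0).ax _ _ hc).lb ((cls_til h0).ax _ _ hc).bx s e he hw (til_nr_rest h0 hc D)

/-- the volume does not see equivalent windows -/
theorem win_le_of {r' : ℕ} {c' : CD S d N r} (s : MSys S M E (Fin r')) (f : Fin r → Fin r')
    (h : ∀ i, PLe ((s.lf (f i)).win 0) (rp (c'.xi i ⊔ dg (c'.q 0) 0))) (X : S.L)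
    (hX : ∀ i, PLe (rp X) ((s.lf i).win 0)) (i : Fin r) : X ≤ c'.xi i := by
  have h1 : X ≤ c'.xi i ⊔ dg (c'.q 0) 0 := PLe_rp.mp ((hX (f i)).trans (h i))
  rwa [dg_nonpos _ le_rfl, sup_bot_eq] at h1

end

end Pool.Agent.Helper5.DO
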